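import Mathlib

namespace Pool.Agent.H1.Box
open Finset Filter Topology

theorem lim {d : ℕ} {ι : Type} [Fintype ι] (i0 : ι) (a b : ι → Fin d → ℝ)
    (h : ∀ ε > (0:ℝ), ∃ p v : Fin d → ℝ, v ≠ 0 ∧ ∀ i, ∃ t : ℝ, ∀ k,
      a i k - ε ≤ p k + t * v k ∧ p k + t * v k ≤ b i k + ε) :
    ∃ p v : Fin d → ℝ, v ≠ 0 ∧ ∀ i, ∃ t : ℝ, ∀ k,
      a i k ≤ p k + t * v k ∧ p k + t * v k ≤ b i k := by
  let S : ℕ → Set ((Fin d → ℝ) × (Fin d → ℝ) × (ι → ℝ)) := fun n =>
    {q | ‖q.2.1‖ = 1 ∧ q.2.2 i0 = 0 ∧ ∀ i k,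
      a i k - 1 / ((n:ℝ) + 1) ≤ q.1 k + q.2.2 i * q.2.1 k ∧
      q.1 k + q.2.2 i * q.2.1 k ≤ b i k + 1 / ((n:ℝ) + 1)}
  have hcl : ∀ n, IsClosed (S n) := by
    intro n
    simp only [S, Set.setOf_and, Set.setOf_forall]
    refine (isClosed_eq (by fun_prop) (by fun_prop)).inter
      ((isClosed_eq (by fun_prop) (by fun_prop)).inter ?_)
    refine isClosed_iInter fun i => isClosed_iInter fun k => ?_
    exact (isClosed_le (by fun_prop) (by fun_prop)).inter (isClosed_le (by fun_prop) (by fun_prop))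
  have hne : ∀ n, (S n).Nonempty := by
    intro n
    obtain ⟨p, v, hv, H⟩ := h (1 / ((n:ℝ) + 1)) (by positivity)
    choose t ht using H
    have hn : 0 < ‖v‖ := norm_pos_iff.2 hv
    refine ⟨(fun k => p k + t i0 * v k, ‖v‖⁻¹ • v, fun i => (t i - t i0) * ‖v‖), ?_, by simp, ?_⟩
    · simp only [norm_smul, norm_inv, norm_norm]
      field_simp
    · intro i k
      have : p k + t i0 * v k + (t i - t i0) * ‖v‖ * (‖v‖⁻¹ • v) k = p k + t i * v k := by
        simp only [Pi.smul_apply, smul_eq_mul]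
        field_simp
        ring
      simp only [this]
      exact ht i k
  have hmono : ∀ n, S (n + 1) ⊆ S n := by
    rintro n q ⟨h1, h2, h3⟩
    refine ⟨h1, h2, fun i k => ?_⟩
    have : 1 / (((n + 1 : ℕ) : ℝ) + 1) ≤ 1 / ((n:ℝ) + 1) := by
      apply one_div_le_one_div_of_le (by positivity)
      push_cast
      linarith
    obtain ⟨h4, h5⟩ := h3 i k
    constructor <;> linarith
  have hc : IsCompact (S 0) := by
    refine Metric.isCompact_of_isClosed_isBounded (hcl 0) ?_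
    set M := ‖a‖ + ‖b‖ + 1 with hM
    refine (Metric.isBounded_closedBall (x := 0) (r := 2 * M)).subset ?_
    rintro ⟨p, v, t⟩ ⟨h1, h2, h3⟩
    simp only at h1 h2 h3
    have hM0 : 1 ≤ M := by rw [hM]; have := norm_nonneg a; have := norm_nonneg b; linarith
    have hy : ∀ i, ‖p + t i • v‖ ≤ M := by
      intro i
      refine (pi_norm_le_iff_of_nonneg (by linarith)).2 fun k => ?_
      have e1 : |a i k| ≤ ‖a‖ := (norm_le_pi_norm (a i) k).trans (norm_le_pi_norm a i)
      have e2 : |b i k| ≤ ‖b‖ := (norm_le_pi_norm (b i) k).trans (norm_le_pi_norm b i)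
      obtain ⟨h4, h5⟩ := h3 i k
      have := norm_nonneg a
      have := norm_nonneg b
      rw [abs_le] at e1 e2
      simp only [Pi.add_apply, Pi.smul_apply, smul_eq_mul, Real.norm_eq_abs, abs_le]
      norm_num at h4 h5
      constructor <;> linarith [e1.1, e2.2]
    have hp : ‖p‖ ≤ M := by simpa [h2] using hy i0
    have ht : ‖t‖ ≤ 2 * M := by
      refine (pi_norm_le_iff_of_nonneg (by linarith)).2 fun i => ?_
      have e : ‖t i‖ = ‖(p + t i • v) - p‖ := by simp [norm_smul, h1]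
      rw [e]
      refine (norm_sub_le _ _).trans ?_
      linarith [hy i]
    simp only [Metric.mem_closedBall, dist_zero_right, Prod.norm_def, max_le_iff]
    exact ⟨by linarith, by linarith, ht⟩
  obtain ⟨⟨p, v, t⟩, hq⟩ :=
    IsCompact.nonempty_iInter_of_sequence_nonempty_isCompact_isClosed S hmono hne hc hcl
  simp only [Set.mem_iInter] at hq
  refine ⟨p, v, ?_, fun i => ⟨t i, fun k => ⟨?_, ?_⟩⟩⟩
  · intro h0
    have := (hq 0).1
    simp [h0] at this
  · refine le_of_forall_pos_le_add fun e he => ?_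
    obtain ⟨n, hn⟩ := exists_nat_one_div_lt he
    have := ((hq n).2.2 i k).1
    simp only at this
    linarith
  · refine le_of_forall_pos_le_add fun e he => ?_
    obtain ⟨n, hn⟩ := exists_nat_one_div_lt he
    have := ((hq n).2.2 i k).2
    simp only at this
    linarith

theorem avg {s c c' l u lo hi x x' : ℝ} (hs : s = 1 ∨ s = -1) (hc : 0 < s * c) (hc' : 0 < s * c')
    (hl : 0 ≤ l) (hu : 0 ≤ u) (hlu : l + u = 1) (h1 : lo ≤ x ∧ x ≤ hi) (h2 : lo ≤ x' ∧ x' ≤ hi) :
    0 < s * (l * c + u * c') ∧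
      lo ≤ (l * c * x + u * c' * x') / (l * c + u * c') ∧
      (l * c * x + u * c' * x') / (l * c + u * c') ≤ hi := by
  have h0 : 0 < s * (l * c + u * c') := by
    have e : s * (l * c + u * c') = l * (s * c) + u * (s * c') := by ring
    rw [e]
    rcases hl.eq_or_lt with h | h
    · have : u = 1 := by linarith
      subst this
      rw [← h]
      linarith
    · have := mul_pos h hc
      have := mul_nonneg hu hc'.le
      linarith
  have hs0 : s ≠ 0 := by rcases hs with rfl | rfl <;> norm_num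
  have e : (l * c * x + u * c' * x') / (l * c + u * c') =
      (l * (s * c) * x + u * (s * c') * x') / (s * (l * c + u * c')) := by
    rw [← mul_div_mul_left _ _ hs0]
    congr 1
    ring
  have p1 := mul_nonneg hl hc.le
  have p2 := mul_nonneg hu hc'.le
  refine ⟨h0, ?_, ?_⟩
  · rw [e, le_div_iff₀ h0]
    nlinarith [mul_nonneg p1 (sub_nonneg.2 h1.1), mul_nonneg p2 (sub_nonneg.2 h2.1)]
  · rw [e, div_le_iff₀ h0]
    nlinarith [mul_nonneg p1 (sub_nonneg.2 h1.2), mul_nonneg p2 (sub_nonneg.2 h2.2)]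

def sg (b : Bool) : ℝ := if b then 1 else -1

theorem sg_cases (b : Bool) : sg b = 1 ∨ sg b = -1 := by cases b <;> simp [sg]

def C {m : ℕ} (σ : Fin m → Bool) (lo hi : Fin (m + 1) → ℝ) : Set ((Fin m → ℝ) × (Fin m → ℝ)) :=
  {q | (∀ j, 0 < sg (σ j) * q.1 j) ∧ ∃ x : Fin (m + 1) → ℝ, (∀ k, lo k ≤ x k ∧ x k ≤ hi k) ∧
    ∀ j, q.1 j * x j.succ + q.2 j = x 0}

theorem C_convex {m : ℕ} (σ : Fin m → Bool) (lo hi : Fin (m + 1) → ℝ) : Convex ℝ (C σ lo hi) := by
  rintro q ⟨h1, x, hx, hq⟩ q' ⟨h1', x', hx', hq'⟩ l u hl hu hlu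
  have A := fun j => avg (sg_cases (σ j)) (h1 j) (h1' j) hl hu hlu (hx j.succ) (hx' j.succ)
  refine ⟨fun j => by simpa using (A j).1, Fin.cons (l * x 0 + u * x' 0)
    (fun j => (l * q.1 j * x j.succ + u * q'.1 j * x' j.succ) / (l * q.1 j + u * q'.1 j)), ?_, ?_⟩
  · intro k
    refine Fin.cases ?_ (fun j => ?_) k
    · simp only [Fin.cons_zero]
      obtain ⟨e1, e2⟩ := hx 0
      obtain ⟨e3, e4⟩ := hx' 0
      have f1 : lo 0 = l * lo 0 + u * lo 0 := by rw [← add_mul, hlu, one_mul]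
      have f2 : hi 0 = l * hi 0 + u * hi 0 := by rw [← add_mul, hlu, one_mul]
      constructor
      · linarith [mul_le_mul_of_nonneg_left e1 hl, mul_le_mul_of_nonneg_left e3 hu]
      · linarith [mul_le_mul_of_nonneg_left e2 hl, mul_le_mul_of_nonneg_left e4 hu]
    · simp only [Fin.cons_succ]
      exact (A j).2
  · intro j
    have h0 : l * q.1 j + u * q'.1 j ≠ 0 := by
      intro h
      have := (A j).1
      rw [h] at this
      simp at this
    simp only [Fin.cons_zero, Fin.cons_succ, Prod.fst_add, Prod.smul_fst, Pi.add_apply,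
      Pi.smul_apply, smul_eq_mul, Prod.snd_add, Prod.smul_snd]
    rw [mul_div_cancel₀ _ h0, ← hq j, ← hq' j]
    ring

theorem upper_eps {m : ℕ} {ι : Type} (a b : ι → Fin (m + 1) → ℝ) (s : Finset ι)
    (h : ∀ G ⊆ s, G.card ≤ 2 ^ m * (2 * m + 1) → ∃ p v : Fin (m + 1) → ℝ, ∀ i ∈ G, ∃ t : ℝ, ∀ k,
      a i k ≤ p k + t * v k ∧ p k + t * v k ≤ b i k) (ε : ℝ) (hε : 0 < ε) :
    ∃ p v : Fin (m + 1) → ℝ, v ≠ 0 ∧ ∀ i ∈ s, ∃ t : ℝ, ∀ k,
      a i k - ε ≤ p k + t * v k ∧ p k + t * v k ≤ b i k + ε := by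
  classical
  let D : (Fin m → Bool) → ι → Set ((Fin m → ℝ) × (Fin m → ℝ)) := fun σ i =>
    C σ (fun k => a i k - ε) (fun k => b i k + ε)
  have key : ∃ σ, (⋂ i ∈ s, D σ i).Nonempty := by
    by_contra hcon
    push Not at hcon
    have H : ∀ σ, ∃ I ⊆ s, I.card ≤ 2 * m + 1 ∧ ¬ (⋂ i ∈ I, D σ i).Nonempty := by
      intro σ
      by_contra h2
      push Not at h2
      have := Convex.helly_theorem' (𝕜 := ℝ) (F := D σ) (s := s) (fun i _ => C_convex _ _ _)
        (fun I hI hc => h2 I hI (by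
          simp only [Module.finrank_prod, Module.finrank_fintype_fun_eq_card,
            Fintype.card_fin] at hc
          omega))
      rw [hcon σ] at this
      exact Set.not_nonempty_empty this
    choose I hIs hIc hI using H
    obtain ⟨p, v, hpv⟩ := h (univ.biUnion I) (biUnion_subset.2 fun σ _ => hIs σ) (by
      refine (card_biUnion_le_card_mul _ _ _ fun σ _ => hIc σ).trans ?_
      simp)
    choose! t ht using hpv
    set T := ∑ i ∈ univ.biUnion I, |t i| + 1 with hT
    have hT0 : 0 < T := by rw [hT]; positivity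
    let v' : Fin (m + 1) → ℝ := fun k => if v k = 0 then ε / T else v k
    have hv' : ∀ k, v' k ≠ 0 := by
      intro k
      simp only [v']
      split_ifs with h0
      · positivity
      · exact h0
    let c : Fin m → ℝ := fun j => v' 0 / v' j.succ
    refine hI (fun j => decide (0 < c j)) ⟨(c, fun j => p 0 - c j * p j.succ), ?_⟩
    simp only [Set.mem_iInter]
    intro i hi
    have hiG : i ∈ univ.biUnion I := mem_biUnion.2 ⟨_, mem_univ _, hi⟩
    refine ⟨fun j => ?_, fun k => p k + t i * v' k, fun k => ?_, fun j => ?_⟩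
    · have hc : c j ≠ 0 := div_ne_zero (hv' _) (hv' _)
      by_cases h0 : 0 < c j
      · simp [sg, h0]
      · have : c j < 0 := lt_of_le_of_ne (not_lt.1 h0) hc
        simp [sg, h0, this]
    · have e1 : |t i| ≤ T := by
        have := single_le_sum (f := fun i => |t i|) (fun i _ => abs_nonneg _) hiG
        rw [hT]
        linarith
      obtain ⟨e2, e3⟩ := ht i hiG k
      simp only [v']
      split_ifs with h0
      · have e4 : |t i * (ε / T)| ≤ ε := by
          rw [abs_mul, abs_of_pos (by positivity : 0 < ε / T), mul_div_assoc', div_le_iff₀ hT0]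
          nlinarith
        rw [abs_le] at e4
        rw [h0] at e2 e3
        constructor <;> linarith [e4.1, e4.2]
      · constructor <;> linarith
    · have := hv' j.succ
      simp only [c]
      field_simp
      ring
  obtain ⟨σ, q, hq⟩ := key
  simp only [Set.mem_iInter] at hq
  refine ⟨Fin.cons 0 fun j => -q.2 j / q.1 j, Fin.cons 1 fun j => 1 / q.1 j, ?_, fun i hi => ?_⟩
  · intro h0
    have := congrFun h0 0
    simp at this
  · obtain ⟨h1, x, hx, hx2⟩ := hq i hi
    refine ⟨x 0, fun k => ?_⟩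
    have e : (Fin.cons 0 (fun j => -q.2 j / q.1 j) : Fin (m + 1) → ℝ) k +
        x 0 * (Fin.cons 1 (fun j => 1 / q.1 j) : Fin (m + 1) → ℝ) k = x k := by
      refine Fin.cases ?_ (fun j => ?_) k
      · simp
      · have h0 : q.1 j ≠ 0 := by
          intro h
          have := h1 j
          rw [h] at this
          simp at this
        simp only [Fin.cons_succ]
        rw [← hx2 j]
        field_simp
        ring
    rw [e]
    exact hx k

theorem upper {m : ℕ} {ι : Type} (a b : ι → Fin (m + 1) → ℝ) (s : Finset ι)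
    (h : ∀ G ⊆ s, G.card ≤ 2 ^ m * (2 * m + 1) → ∃ p v : Fin (m + 1) → ℝ, ∀ i ∈ G, ∃ t : ℝ, ∀ k,
      a i k ≤ p k + t * v k ∧ p k + t * v k ≤ b i k) :
    ∃ p v : Fin (m + 1) → ℝ, v ≠ 0 ∧ ∀ i ∈ s, ∃ t : ℝ, ∀ k,
      a i k ≤ p k + t * v k ∧ p k + t * v k ≤ b i k := by
  rcases s.eq_empty_or_nonempty with rfl | ⟨i0, hi0⟩
  · exact ⟨0, 1, one_ne_zero, by simp⟩
  · obtain ⟨p, v, hv, H⟩ := lim (ι := s) ⟨i0, hi0⟩ (fun i => a i) (fun i => b i) (fun ε hε => by
      obtain ⟨p, v, hv, H⟩ := upper_eps a b s h ε hε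
      exact ⟨p, v, hv, fun i => H i i.2⟩)
    exact ⟨p, v, hv, fun i hi => H ⟨i, hi⟩⟩

end Pool.Agent.H1.Box
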