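import Pool.Agent.H1.Box1

namespace Pool.Agent.H1.Box
open Finset Filter Topology

theorem hit {a1 a2 q1 q2 α β : ℝ} (h1 : 0 < a1) (h2 : 0 < a2) (h : a2 * (α - q1) < a1 * (β - q2)) :
    ∃ T, α < a1 * T + q1 ∧ a2 * T + q2 < β := by
  have h3 : (α - q1) / a1 < (β - q2) / a2 := by
    rw [div_lt_div_iff₀ h1 h2]
    linarith
  obtain ⟨T, h4, h5⟩ := exists_between h3
  rw [div_lt_iff₀ h1] at h4
  rw [lt_div_iff₀ h2] at h5
  exact ⟨T, by linarith, by linarith⟩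

theorem hit2 {a1 a2 : ℝ} (q1 q2 α β : ℝ) (h1 : 0 < a1) (h2 : 0 < a2) :
    ∃ T, α < a1 * T + q1 ∧ β < a2 * T + q2 := by
  obtain ⟨T, hT⟩ := exists_gt (max ((α - q1) / a1) ((β - q2) / a2))
  rw [max_lt_iff, div_lt_iff₀ h1, div_lt_iff₀ h2] at hT
  exact ⟨T, by linarith [hT.1], by linarith [hT.2]⟩

theorem ev_lin {A : ℝ} (B : ℝ) (hA : A < 0) : ∀ᶠ E in atTop, A * E + B < 0 := by
  filter_upwards [eventually_gt_atTop (B / (-A))] with E hE
  rw [div_lt_iff₀ (by linarith)] at hE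
  linarith

theorem stage2 {S K D : Type} [Fintype S] [Fintype K] [Fintype D] (s : S → D → ℝ)
    (hs : ∀ σ k, s σ k = 1 ∨ s σ k = -1) (N : S → ℝ) (r q : S → D → ℝ) (tl hd : K → D)
    (hA : ∀ σ τ e, σ ≠ τ → s σ (tl e) = s τ (tl e) → s σ (hd e) = s τ (hd e) →
      (r τ (hd e) * N σ + q τ (hd e)) - (r τ (tl e) * N σ + q τ (tl e)) <
      (r σ (hd e) * N σ + q σ (hd e)) - (r σ (tl e) * N σ + q σ (tl e)))
    (hB : ∀ σ τ e, s σ (tl e) ≠ s τ (tl e) → s σ (hd e) ≠ s τ (hd e) →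
      0 < ((r σ (hd e) * N σ + q σ (hd e)) - (r σ (tl e) * N σ + q σ (tl e))) +
      ((r τ (hd e) * -N σ + q τ (hd e)) - (r τ (tl e) * -N σ + q τ (tl e)))) :
    ∃ a b : S → D → ℝ, (∀ σ k, 0 < a σ k) ∧ ∀ σ τ e, σ ≠ τ → ∃ T,
      b σ (tl e) < s σ (tl e) * s τ (tl e) * (a τ (tl e) * T + b τ (tl e)) ∧
      s σ (hd e) * s τ (hd e) * (a τ (hd e) * T + b τ (hd e)) < b σ (hd e) := by
  have E1 : ∀ᶠ E in atTop, ∀ σ k, 0 < E + r σ k := by
    simp only [eventually_all]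
    intro σ k
    filter_upwards [eventually_gt_atTop (-r σ k)] with E hE
    linarith
  have E2 : ∀ᶠ E in atTop, ∀ σ τ e, σ ≠ τ → s σ (tl e) = s τ (tl e) → s σ (hd e) = s τ (hd e) →
      (E + r τ (hd e)) * (((E + r σ (tl e)) * N σ + q σ (tl e)) - q τ (tl e)) <
      (E + r τ (tl e)) * (((E + r σ (hd e)) * N σ + q σ (hd e)) - q τ (hd e)) := by
    simp only [eventually_all]
    intro σ τ e h1 h2 h3
    filter_upwards [ev_lin (r τ (hd e) * (r σ (tl e) * N σ + q σ (tl e) - q τ (tl e)) -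
      r τ (tl e) * (r σ (hd e) * N σ + q σ (hd e) - q τ (hd e))) (sub_neg.2 (hA σ τ e h1 h2 h3))]
      with E hE
    linarith
  have E3 : ∀ᶠ E in atTop, ∀ σ τ e, s σ (tl e) ≠ s τ (tl e) → s σ (hd e) ≠ s τ (hd e) →
      (E + r τ (tl e)) * (-((E + r σ (hd e)) * N σ + q σ (hd e)) - q τ (hd e)) <
      (E + r τ (hd e)) * (-((E + r σ (tl e)) * N σ + q σ (tl e)) - q τ (tl e)) := by
    simp only [eventually_all]
    intro σ τ e h2 h3
    filter_upwards [ev_lin (r τ (tl e) * (-(r σ (hd e) * N σ + q σ (hd e)) - q τ (hd e)) -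
      r τ (hd e) * (-(r σ (tl e) * N σ + q σ (tl e)) - q τ (tl e))) (neg_neg_of_pos (hB σ τ e h2 h3))]
      with E hE
    linarith
  obtain ⟨E, e1, e2, e3⟩ := (E1.and (E2.and E3)).exists
  refine ⟨fun σ k => E + r σ k, fun σ k => (E + r σ k) * N σ + q σ k, e1, fun σ τ e hne => ?_⟩
  have same : ∀ k, s σ k = s τ k → s σ k * s τ k = 1 := by
    intro k h
    rw [h]
    rcases hs τ k with h | h <;> rw [h] <;> norm_num
  have diff : ∀ k, s σ k ≠ s τ k → s σ k * s τ k = -1 := by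
    intro k h
    rcases hs τ k with h1 | h1 <;> rcases hs σ k with h2 | h2 <;> simp_all
  by_cases c1 : s σ (tl e) = s τ (tl e) <;> by_cases c2 : s σ (hd e) = s τ (hd e)
  · obtain ⟨T, h1, h2⟩ := hit (e1 τ (tl e)) (e1 τ (hd e)) (e2 σ τ e hne c1 c2)
    refine ⟨T - N τ, ?_, ?_⟩
    · rw [same _ c1]; linarith
    · rw [same _ c2]; linarith
  · obtain ⟨T, h1, h2⟩ := hit2 (q τ (tl e)) (q τ (hd e)) ((E + r σ (tl e)) * N σ + q σ (tl e))
      (-((E + r σ (hd e)) * N σ + q σ (hd e))) (e1 τ (tl e)) (e1 τ (hd e))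
    refine ⟨T - N τ, ?_, ?_⟩
    · rw [same _ c1]; linarith
    · rw [diff _ c2]; linarith
  · obtain ⟨T, h1, h2⟩ := hit2 (-q τ (tl e)) (-q τ (hd e)) ((E + r σ (tl e)) * N σ + q σ (tl e))
      (-((E + r σ (hd e)) * N σ + q σ (hd e))) (e1 τ (tl e)) (e1 τ (hd e))
    refine ⟨-T - N τ, ?_, ?_⟩
    · rw [diff _ c1]; linarith
    · rw [same _ c2]; linarith
  · obtain ⟨T, h1, h2⟩ := hit (e1 τ (hd e)) (e1 τ (tl e)) (e3 σ τ e c1 c2)
    refine ⟨T - N τ, ?_, ?_⟩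
    · rw [diff _ c1]; linarith
    · rw [diff _ c2]; linarith

def U (R m : ℕ) (β : ℕ → ℕ) (k : ℕ) : ℕ := ∑ j ∈ Ico k m, β j * R ^ j

def V (R : ℕ) (β : ℕ → ℕ) (k : ℕ) : ℕ := ∑ j ∈ range k, β j * R ^ j

theorem V_lt {R : ℕ} (hR : 2 ≤ R) {β : ℕ → ℕ} (hβ : ∀ j, β j ≤ 1) (k : ℕ) : V R β k < R ^ k := by
  induction k with
  | zero => simp [V]
  | succ k ih =>
    have : V R β (k + 1) = V R β k + β k * R ^ k := sum_range_succ _ _
    have h1 : β k * R ^ k ≤ R ^ k := by simpa using Nat.mul_le_mul_right (R ^ k) (hβ k)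
    have h2 : R ^ k * 2 ≤ R ^ k * R := Nat.mul_le_mul_left _ hR
    rw [this, pow_succ]
    omega

theorem U_dvd (R m : ℕ) (β : ℕ → ℕ) (k : ℕ) : R ^ k ∣ U R m β k :=
  dvd_sum fun j hj => (pow_dvd_pow R (mem_Ico.1 hj).1).mul_left _

theorem U_zero (R : ℕ) {m : ℕ} (β : ℕ → ℕ) {k : ℕ} (hk : k ≤ m) :
    U R m β 0 = V R β k + U R m β k := by
  unfold U V
  rw [sum_range_add_sum_Ico _ hk, range_eq_Ico]

theorem U_succ (R : ℕ) {m : ℕ} (β : ℕ → ℕ) {k : ℕ} (hk : k < m) :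
    U R m β k = β k * R ^ k + U R m β (k + 1) := sum_eq_sum_Ico_succ_bot hk _

theorem U_inj {R m : ℕ} (hR : 2 ≤ R) {β γ : ℕ → ℕ} (hβ : ∀ j, β j ≤ 1) (hγ : ∀ j, γ j ≤ 1)
    (h : U R m β 0 = U R m γ 0) (l : ℕ) (hl : l < m) : β l = γ l := by
  have A : ∀ k ≤ m, V R β k = V R γ k := by
    intro k hk
    have e : ∀ δ : ℕ → ℕ, (∀ j, δ j ≤ 1) → U R m δ 0 % R ^ k = V R δ k := by
      intro δ hδ
      obtain ⟨c, hc⟩ := U_dvd R m δ k
      rw [U_zero R δ hk, hc, Nat.add_mul_mod_self_left, Nat.mod_eq_of_lt (V_lt hR hδ k)]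
    rw [← e β hβ, ← e γ hγ, h]
  have e1 : V R β (l + 1) = V R β l + β l * R ^ l := sum_range_succ _ _
  have e2 : V R γ (l + 1) = V R γ l + γ l * R ^ l := sum_range_succ _ _
  rw [A _ hl, A _ hl.le, e2] at e1
  have h0 : 0 < R ^ l := by positivity
  exact (Nat.eq_of_mul_eq_mul_right h0 (by omega)).symm

theorem keyA {m : ℕ} {β γ : ℕ → ℕ} (hβ : ∀ j, β j ≤ 1) (hγ : ∀ j, γ j ≤ 1)
    (h : U (2 * m + 4) m β 0 ≠ U (2 * m + 4) m γ 0) (l : ℕ) (hl : l < m) (e : β l = γ l) :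
    (0:ℤ) < ((U (2 * m + 4) m β 0 : ℤ) - U (2 * m + 4) m γ 0) ^ 2 +
      2 * (m + 1) * β l * (2 * m + 4) ^ l *
        ((U (2 * m + 4) m β (l + 1) : ℤ) - U (2 * m + 4) m γ (l + 1)) := by
  set R := 2 * m + 4 with hR
  have hR2 : 2 ≤ R := by omega
  obtain ⟨c, hc⟩ := U_dvd R m β (l + 1)
  obtain ⟨c', hc'⟩ := U_dvd R m γ (l + 1)
  have h1 := U_zero R β hl.le
  have h2 := U_zero R γ hl.le
  rw [U_succ R β hl] at h1
  rw [U_succ R γ hl, ← e] at h2
  have v1 := V_lt hR2 hβ l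
  have v2 := V_lt hR2 hγ l
  have hD : ((U R m β 0 : ℤ) - U R m γ 0) ≠ 0 := by
    intro h0
    exact h (by exact_mod_cast sub_eq_zero.1 h0)
  have hsq : (0:ℤ) < ((U R m β 0 : ℤ) - U R m γ 0) ^ 2 := by positivity
  have hRz : (2 * (m:ℤ) + 4) = (R:ℤ) := by rw [hR]; push_cast; ring
  rw [hRz]
  have hw : (0:ℤ) < (R:ℤ) ^ l := by positivity
  have hb : β l = 0 ∨ β l = 1 := by have := hβ l; omega
  rcases hb with hb | hb
  · simp only [hb]
    simpa using hsq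
  by_cases hcc : (c':ℤ) ≤ c
  · have : (0:ℤ) ≤ ((U R m β (l + 1) : ℤ) - U R m γ (l + 1)) := by
      rw [hc, hc']
      push_cast
      rw [← mul_sub]
      exact mul_nonneg (by positivity) (by linarith)
    positivity
  · push Not at hcc
    set w : ℤ := (R:ℤ) ^ l with hwd
    set y : ℤ := (U R m γ (l + 1) : ℤ) - U R m β (l + 1) with hy
    have hy1 : w * R ≤ y := by
      rw [hy, hc, hc']
      push_cast
      rw [← mul_sub, pow_succ]
      have : (0:ℤ) < w * R := by positivity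
      nlinarith
    have v1' : (V R β l : ℤ) < w := by rw [hwd]; exact_mod_cast v1
    have v2' : (0:ℤ) ≤ V R γ l := by positivity
    have hD2 : (U R m γ 0 : ℤ) - U R m β 0 = y + (V R γ l - V R β l) := by
      rw [h1, h2, hy]
      push_cast
      ring
    have e3 : ((U R m β 0 : ℤ) - U R m γ 0) ^ 2 = (y + (V R γ l - V R β l)) ^ 2 := by
      rw [← hD2]; ring
    have e4 : ((U R m β (l + 1) : ℤ) - U R m γ (l + 1)) = -y := by rw [hy]; ring
    rw [e3, e4, hb]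
    have hm : (0:ℤ) ≤ m := by positivity
    have hyw : 0 ≤ y - w := by nlinarith
    have e5 : (y - w) ^ 2 ≤ (y + (V R γ l - V R β l)) ^ 2 :=
      pow_le_pow_left₀ hyw (by linarith) 2
    have hy0 : 0 ≤ y := by linarith
    have e6 : w * R * y ≤ y * y := mul_le_mul_of_nonneg_right hy1 hy0
    rw [← hRz] at e6
    push_cast
    nlinarith [mul_pos hw hw]

def sgn {m : ℕ} (σ : Fin m → Bool) : Fin (m + 1) → ℝ := Fin.cons 1 fun j => sg (σ j)

def tl (m : ℕ) : Option (Fin m) → Fin (m + 1)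
  | none => Fin.last m
  | some l => l.castSucc

def hd (m : ℕ) : Option (Fin m) → Fin (m + 1)
  | none => 0
  | some l => l.succ

theorem sgn_cases {m : ℕ} (σ : Fin m → Bool) (k : Fin (m + 1)) : sgn σ k = 1 ∨ sgn σ k = -1 := by
  refine Fin.cases ?_ (fun j => ?_) k
  · simp [sgn]
  · simpa [sgn] using sg_cases _

def bit {m : ℕ} (σ : Fin m → Bool) (j : ℕ) : ℕ :=
  if h : j < m then (if σ ⟨j, h⟩ then 1 else 0) else 0

theorem bit_le {m : ℕ} (σ : Fin m → Bool) (j : ℕ) : bit σ j ≤ 1 := by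
  unfold bit
  split_ifs <;> simp

theorem base (m : ℕ) :
    ∃ a b : (Fin m → Bool) → Fin (m + 1) → ℝ, (∀ σ k, 0 < a σ k) ∧ ∀ σ τ e, σ ≠ τ → ∃ T,
      b σ (tl m e) < sgn σ (tl m e) * sgn τ (tl m e) * (a τ (tl m e) * T + b τ (tl m e)) ∧
      sgn σ (hd m e) * sgn τ (hd m e) * (a τ (hd m e) * T + b τ (hd m e)) < b σ (hd m e) := by
  let u : (Fin m → Bool) → ℕ → ℝ := fun σ k => (U (2 * m + 4) m (bit σ) k : ℝ)
  let r : (Fin m → Bool) → Fin (m + 1) → ℝ := fun σ k => 2 * ((k:ℕ) * u σ 0 + (m + 1) * u σ k)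
  let q : (Fin m → Bool) → Fin (m + 1) → ℝ := fun σ k => -((k:ℕ) * u σ 0 ^ 2 + (m + 1) * u σ k ^ 2)
  have hL : ∀ᶠ L : ℝ in atTop, ∀ (σ τ : Fin m → Bool) (l : Fin m),
      0 < ((r σ l.succ * u σ 0 + q σ l.succ) - (r σ l.castSucc * u σ 0 + q σ l.castSucc)) +
      ((r τ l.succ * -u σ 0 + q τ l.succ) - (r τ l.castSucc * -u σ 0 + q τ l.castSucc)) + 2 * L := by
    simp only [eventually_all]
    intro σ τ l
    filter_upwards [ev_lin (A := -2) (-(((r σ l.succ * u σ 0 + q σ l.succ) -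
      (r σ l.castSucc * u σ 0 + q σ l.castSucc)) +
      ((r τ l.succ * -u σ 0 + q τ l.succ) - (r τ l.castSucc * -u σ 0 + q τ l.castSucc))))
      (by norm_num)] with L hL
    linarith
  obtain ⟨L, hL⟩ := hL.exists
  have hne : ∀ σ τ : Fin m → Bool, σ ≠ τ →
      U (2 * m + 4) m (bit σ) 0 ≠ U (2 * m + 4) m (bit τ) 0 := by
    intro σ τ h h0
    refine h (funext fun l => ?_)
    have := U_inj (by omega) (bit_le σ) (bit_le τ) h0 l l.2
    simp only [bit, l.2, dite_true, Fin.eta] at this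
    cases h1 : σ l <;> cases h2 : τ l <;> simp_all
  refine stage2 sgn sgn_cases (fun σ => u σ 0) r (fun σ k => q σ k + (k:ℕ) * L) (tl m) (hd m) ?_ ?_
  · intro σ τ e h c1 c2
    rcases e with _ | l
    · have h1 : u σ 0 - u τ 0 ≠ 0 := by
        intro h0
        exact hne σ τ h (Nat.cast_injective (R := ℝ) (sub_eq_zero.1 h0))
      have h2 : 0 < (u σ 0 - u τ 0) ^ 2 := by positivity
      have h3 : ∀ ρ, u ρ m = 0 := fun ρ => by simp [u, U]
      simp only [tl, hd, r, q, Fin.val_last, Fin.val_zero, h3]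
      push_cast
      nlinarith
    · have hb : bit σ l = bit τ l := by
        have : σ l = τ l := by
          simp only [hd, sgn, Fin.cons_succ] at c2
          cases h1 : σ l <;> cases h2 : τ l <;> simp_all [sg] <;> norm_num at c2
        simp [bit, this]
      have k1 := keyA (bit_le σ) (bit_le τ) (hne σ τ h) l l.2 hb
      have k2 : (0:ℝ) < (u σ 0 - u τ 0) ^ 2 + 2 * (m + 1) * (bit σ l : ℝ) * (2 * m + 4) ^ (l:ℕ) *
          (u σ (l + 1) - u τ (l + 1)) := by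
        simp only [u]
        exact_mod_cast k1
      have s1 : u σ l = (bit σ l : ℝ) * (2 * m + 4) ^ (l:ℕ) + u σ (l + 1) := by
        simp only [u]
        rw [U_succ _ _ l.2]
        push_cast
        ring
      have s2 : u τ l = (bit σ l : ℝ) * (2 * m + 4) ^ (l:ℕ) + u τ (l + 1) := by
        simp only [u]
        rw [U_succ _ _ l.2, hb]
        push_cast
        ring
      simp only [tl, hd, r, q, Fin.val_succ, Fin.val_castSucc, s1, s2]
      push_cast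
      nlinarith
  · intro σ τ e c1 c2
    rcases e with _ | l
    · exact absurd (by simp [hd, sgn]) c2
    · have := hL σ τ l
      simp only [tl, hd, Fin.val_succ, Fin.val_castSucc]
      push_cast
      linarith

end Pool.Agent.H1.Box
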