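import Pool.Agent.H1.Box2

namespace Pool.Agent.H1.Box
open Finset Filter Topology

def al {m : ℕ} (δ : ℝ) : Option (Fin m × Bool) → ℝ
  | none => δ ^ 2
  | some x => sg x.2 * δ

def be {m : ℕ} (δ : ℝ) : Option (Fin m × Bool) → ℝ
  | none => 0
  | some x => sg x.2 * δ

def off {m : ℕ} (δ : ℝ) : Option (Fin m × Bool) → Fin (m + 1) → ℝ
  | none, _ => 0
  | some x, k => if (k:ℕ) ≤ x.1 then 0 else δ ^ 2

def slo {m : ℕ} (δ : ℝ) : Option (Fin m × Bool) → Fin (m + 1) → ℝ
  | none, _ => 1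
  | some x, k => if (k:ℕ) ≤ x.1 then 1 else 1 + sg x.2 * δ

def TL {m : ℕ} (e : Option (Fin m × Bool)) : Fin (m + 1) := tl m (e.map Prod.fst)

def HD {m : ℕ} (e : Option (Fin m × Bool)) : Fin (m + 1) := hd m (e.map Prod.fst)

theorem core {m : ℕ} {δ : ℝ} (hδ : 0 < δ) (P W : Fin (m + 1) → ℝ) (hW : ∀ k, 0 ≤ W k)
    (h : ∀ e, ∃ t, al δ e ≤ P (TL e) + t * W (TL e) ∧ P (HD e) + t * W (HD e) ≤ be δ e) : False := by
  have hpos : ∀ k, 0 < W k := by
    intro k
    refine (hW k).lt_of_ne fun h0 => ?_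
    have h1 : 0 < P k := by
      induction k using Fin.lastCases with
      | last =>
        obtain ⟨t, h1, -⟩ := h none
        simp only [al, TL, tl, Option.map_none, ← h0] at h1
        nlinarith
      | cast l =>
        obtain ⟨t, h1, -⟩ := h (some (l, true))
        simp only [al, TL, tl, Option.map_some, ← h0, sg, if_true] at h1
        linarith
    have h2 : P k ≤ 0 := by
      induction k using Fin.cases with
      | zero =>
        obtain ⟨t, -, h1⟩ := h none
        simp only [be, HD, hd, Option.map_none, ← h0] at h1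
        linarith
      | succ l =>
        obtain ⟨t, -, h1⟩ := h (some (l, false))
        simp only [be, HD, hd, Option.map_some, ← h0, sg] at h1
        norm_num at h1
        linarith
    linarith
  have hm : Monotone fun k => -P k / W k := by
    rw [Fin.monotone_iff_le_succ]
    intro l
    obtain ⟨t, h1, h2⟩ := h (some (l, true))
    obtain ⟨t', h3, h4⟩ := h (some (l, false))
    simp only [al, be, TL, HD, tl, hd, Option.map_some, sg] at h1 h2 h3 h4
    norm_num at h1 h2 h3 h4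
    refine le_trans (b := (t + t') / 2) ?_ ?_
    · rw [div_le_iff₀ (hpos _)]
      linarith
    · rw [le_div_iff₀ (hpos _)]
      linarith
  obtain ⟨t, h1, h2⟩ := h none
  simp only [al, be, TL, HD, tl, hd, Option.map_none] at h1 h2
  have h3 : -P 0 / W 0 ≤ -P (Fin.last m) / W (Fin.last m) := hm (Fin.zero_le _)
  have h4 : t ≤ -P 0 / W 0 := by
    rw [le_div_iff₀ (hpos _)]
    linarith
  have h5 : -P (Fin.last m) / W (Fin.last m) < t := by
    rw [div_lt_iff₀ (hpos _)]
    nlinarith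
  linarith

theorem own {m : ℕ} {δ : ℝ} (hδ : 0 < δ) (hδ1 : δ < 1) (e0 e : Option (Fin m × Bool)) (h : e ≠ e0) :
    ∃ t, al δ e ≤ off δ e0 (TL e) + t * slo δ e0 (TL e) ∧
      off δ e0 (HD e) + t * slo δ e0 (HD e) ≤ be δ e := by
  rcases e0 with _ | ⟨l0, b0⟩ <;> rcases e with _ | ⟨l, b⟩
  · exact absurd rfl h
  · exact ⟨sg b * δ, by simp [al, off, slo], by simp [be, off, slo]⟩
  · refine ⟨0, ?_, ?_⟩
    · have : ¬ m ≤ (l0:ℕ) := not_le.2 l0.2
      simp [al, off, TL, tl, this]
    · simp [be, off, HD, hd]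
  · have hs : 0 < 1 + sg b0 * δ := by rcases sg_cases b0 with h | h <;> rw [h] <;> linarith
    rcases lt_trichotomy (l:ℕ) l0 with c | c | c
    · refine ⟨sg b * δ, ?_, ?_⟩
      · simp [al, off, slo, TL, tl, c.le]
      · have : (l:ℕ) + 1 ≤ l0 := c
        simp [be, off, slo, HD, hd, this]
    · have hb : b ≠ b0 := by
        rintro rfl
        exact h (by rw [Fin.ext c])
      refine ⟨sg b * δ, ?_, ?_⟩
      · simp [al, off, slo, TL, tl, c.le]
      · have : ¬ (l:ℕ) + 1 ≤ l0 := by omega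
        simp only [be, off, slo, HD, hd, Option.map_some, Fin.val_succ, this, if_false]
        cases b <;> cases b0 <;> simp [sg] at hb ⊢ <;> nlinarith
    · refine ⟨(sg b * δ - δ ^ 2) / (1 + sg b0 * δ), ?_, ?_⟩
      · have : ¬ (l:ℕ) ≤ l0 := by omega
        simp only [al, off, slo, TL, tl, Option.map_some, Fin.val_castSucc, this, if_false]
        rw [div_mul_cancel₀ _ hs.ne']
        linarith
      · have : ¬ (l:ℕ) + 1 ≤ l0 := by omega
        simp only [be, off, slo, HD, hd, Option.map_some, Fin.val_succ, this, if_false]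
        rw [div_mul_cancel₀ _ hs.ne']
        linarith

theorem c_al {m : ℕ} (e : Option (Fin m × Bool)) : Continuous fun δ => al δ e := by
  cases e <;> simp only [al] <;> fun_prop

theorem c_be {m : ℕ} (e : Option (Fin m × Bool)) : Continuous fun δ => be δ e := by
  cases e <;> simp only [be] <;> fun_prop

theorem c_off {m : ℕ} (e : Option (Fin m × Bool)) (k) : Continuous fun δ => off δ e k := by
  cases e <;> simp only [off]
  · fun_prop
  · split_ifs <;> fun_prop

theorem c_slo {m : ℕ} (e : Option (Fin m × Bool)) (k) : Continuous fun δ => slo δ e k := by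
  cases e <;> simp only [slo]
  · fun_prop
  · split_ifs <;> fun_prop

theorem z_al {m : ℕ} (e : Option (Fin m × Bool)) : al 0 e = 0 := by cases e <;> simp [al]

theorem z_be {m : ℕ} (e : Option (Fin m × Bool)) : be 0 e = 0 := by cases e <;> simp [be]

theorem z_off {m : ℕ} (e : Option (Fin m × Bool)) (k) : off 0 e k = 0 := by cases e <;> simp [off]

theorem z_slo {m : ℕ} (e : Option (Fin m × Bool)) (k) : slo 0 e k = 1 := by cases e <;> simp [slo]

theorem sgn_sq {m : ℕ} (σ : Fin m → Bool) (k : Fin (m + 1)) : sgn σ k * sgn σ k = 1 := by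
  rcases sgn_cases σ k with h | h <;> rw [h] <;> norm_num

theorem stage3 (m : ℕ) : ∃ A B : (Fin m → Bool) × Option (Fin m × Bool) → ℝ,
    (∀ p v : Fin (m + 1) → ℝ, ¬ ∀ i, ∃ t, A i ≤ sgn i.1 (TL i.2) * (p (TL i.2) + t * v (TL i.2)) ∧
      sgn i.1 (HD i.2) * (p (HD i.2) + t * v (HD i.2)) ≤ B i) ∧
    ∀ i0, ∃ p v : Fin (m + 1) → ℝ, v ≠ 0 ∧ ∀ i, i ≠ i0 → ∃ t,
      A i ≤ sgn i.1 (TL i.2) * (p (TL i.2) + t * v (TL i.2)) ∧
      sgn i.1 (HD i.2) * (p (HD i.2) + t * v (HD i.2)) ≤ B i := by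
  obtain ⟨a, b, ha, H⟩ := base m
  choose! T hT using H
  have E : ∀ᶠ δ in 𝓝 (0:ℝ), ∀ σ τ (e e0 : Option (Fin m × Bool)), σ ≠ τ →
      b σ (TL e) + a σ (TL e) * al δ e < sgn σ (TL e) * sgn τ (TL e) * (a τ (TL e) *
        (off δ e0 (TL e) + T σ τ (e.map Prod.fst) * slo δ e0 (TL e)) + b τ (TL e)) ∧
      sgn σ (HD e) * sgn τ (HD e) * (a τ (HD e) *
        (off δ e0 (HD e) + T σ τ (e.map Prod.fst) * slo δ e0 (HD e)) + b τ (HD e)) <
        b σ (HD e) + a σ (HD e) * be δ e := by
    simp only [eventually_all]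
    intro σ τ e e0 h
    have c1 := c_al e
    have c2 := c_be e
    have c3 := c_off e0
    have c4 := c_slo e0
    obtain ⟨h1, h2⟩ := hT σ τ (e.map Prod.fst) h
    refine (ContinuousAt.eventually_lt (by fun_prop) (by fun_prop) ?_).and
      (ContinuousAt.eventually_lt (by fun_prop) (by fun_prop) ?_)
    · simpa [z_al, z_off, z_slo, TL] using h1
    · simpa [z_be, z_off, z_slo, HD] using h2
  obtain ⟨δ, hδ, hδ0, hδ1⟩ := ((E.filter_mono (nhdsWithin_le_nhds (s := Set.Ioi 0))).and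
    (Ioo_mem_nhdsGT (zero_lt_one' ℝ))).exists
  refine ⟨fun i => b i.1 (TL i.2) + a i.1 (TL i.2) * al δ i.2,
    fun i => b i.1 (HD i.2) + a i.1 (HD i.2) * be δ i.2, ?_, ?_⟩
  · intro p v h
    obtain ⟨c, hc, hc0⟩ : ∃ c : ℝ, c * c = 1 ∧ 0 ≤ c * v 0 := by
      rcases le_total 0 (v 0) with h0 | h0
      · exact ⟨1, by norm_num, by linarith⟩
      · exact ⟨-1, by norm_num, by linarith⟩
    let σ : Fin m → Bool := fun j => decide (0 ≤ c * v j.succ)
    refine core hδ0 (fun k => (sgn σ k * p k - b σ k) / a σ k)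
      (fun k => sgn σ k * (c * v k) / a σ k) (fun k => div_nonneg ?_ (ha σ k).le) fun e => ?_
    · refine Fin.cases ?_ (fun j => ?_) k
      · simpa [sgn] using hc0
      · by_cases h0 : 0 ≤ c * v j.succ
        · simp [sgn, sg, σ, h0]
        · simp only [sgn, sg, σ, h0, Fin.cons_succ, decide_false]
          norm_num
          linarith
    · obtain ⟨t, h1, h2⟩ := h (σ, e)
      simp only at h1 h2
      have f : ∀ k, (sgn σ k * p k - b σ k) / a σ k + t * c * (sgn σ k * (c * v k) / a σ k) =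
          (sgn σ k * (p k + t * v k) - b σ k) / a σ k := by
        intro k
        have := (ha σ k).ne'
        field_simp
        linear_combination (sgn σ k * t * v k) * hc
      refine ⟨t * c, ?_, ?_⟩
      · rw [f, le_div_iff₀ (ha _ _)]
        linarith
      · rw [f, div_le_iff₀ (ha _ _)]
        linarith
  · rintro ⟨τ, e0⟩
    refine ⟨fun k => sgn τ k * (a τ k * off δ e0 k + b τ k), fun k => sgn τ k * (a τ k * slo δ e0 k),
      ?_, ?_⟩
    · intro h0
      have h1 := congrFun h0 0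
      have h2 : slo δ e0 0 = 1 := by cases e0 <;> simp [slo]
      simp [sgn, h2, (ha τ 0).ne'] at h1
    · rintro ⟨σ, e⟩ hne
      by_cases h : σ = τ
      · subst h
        obtain ⟨t, h1, h2⟩ := own hδ0 hδ1 e0 e (fun h => hne (by rw [h]))
        have f : ∀ k, sgn σ k * (sgn σ k * (a σ k * off δ e0 k + b σ k) +
            t * (sgn σ k * (a σ k * slo δ e0 k))) = b σ k + a σ k * (off δ e0 k + t * slo δ e0 k) := by
          intro k
          linear_combination (b σ k + a σ k * (off δ e0 k + t * slo δ e0 k)) * sgn_sq σ k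
        refine ⟨t, ?_, ?_⟩
        · simp only [f]
          linarith [mul_le_mul_of_nonneg_left h1 (ha σ (TL e)).le]
        · simp only [f]
          linarith [mul_le_mul_of_nonneg_left h2 (ha σ (HD e)).le]
      · obtain ⟨h1, h2⟩ := hδ σ τ e e0 h
        refine ⟨T σ τ (e.map Prod.fst), ?_, ?_⟩
        · simp only
          linarith
        · simp only
          linarith

theorem trunc {D : Type} [DecidableEq D] (i j : D) (hij : i ≠ j) (s s' A B M : ℝ)
    (hs : s = 1 ∨ s = -1) (hs' : s' = 1 ∨ s' = -1) (hA : |A| < M) (hB : |B| < M) :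
    ∃ lo hi : D → ℝ, (∀ k, lo k < hi k) ∧
      (∀ x : D → ℝ, (∀ k, lo k ≤ x k ∧ x k ≤ hi k) → A ≤ s * x i ∧ s' * x j ≤ B) ∧
      ∀ x : D → ℝ, (∀ k, |x k| ≤ M) → A ≤ s * x i → s' * x j ≤ B → ∀ k, lo k ≤ x k ∧ x k ≤ hi k := by
  have hM : 0 < M := (abs_nonneg _).trans_lt hA
  rw [abs_lt] at hA hB
  refine ⟨fun k => if k = i ∧ s = 1 then A else if k = j ∧ s' = -1 then -B else -M,
    fun k => if k = i ∧ s = -1 then -A else if k = j ∧ s' = 1 then B else M, ?_, ?_, ?_⟩
  · intro k
    have := hij.symm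
    by_cases h1 : k = i <;> by_cases h2 : k = j <;> rcases hs with rfl | rfl <;>
      rcases hs' with rfl | rfl <;> norm_num [h1, h2, hij, this] <;> first | linarith | simp_all
  · intro x hx
    have h1 := hx i
    have h2 := hx j
    have := hij.symm
    rcases hs with rfl | rfl <;> rcases hs' with rfl | rfl <;> norm_num [hij, this] at h1 h2 ⊢ <;>
      constructor <;> linarith [h1.1, h1.2, h2.1, h2.2]
  · intro x hx h1 h2 k
    have h3 := abs_le.1 (hx k)
    constructor
    · simp only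
      split_ifs with c1 c2
      · rw [c1.1]; rw [c1.2] at h1; linarith
      · rw [c2.1]; rw [c2.2] at h2; linarith
      · exact h3.1
    · simp only
      split_ifs with c1 c2
      · rw [c1.1]; rw [c1.2] at h1; linarith
      · rw [c2.1]; rw [c2.2] at h2; linarith
      · exact h3.2

theorem lower {m : ℕ} (hm : 1 ≤ m) :
    ∃ lo hi : (Fin m → Bool) × Option (Fin m × Bool) → Fin (m + 1) → ℝ, (∀ i k, lo i k < hi i k) ∧
    (∀ p v : Fin (m + 1) → ℝ, ¬ ∀ i, ∃ t, ∀ k, lo i k ≤ p k + t * v k ∧ p k + t * v k ≤ hi i k) ∧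
    ∀ i0, ∃ p v : Fin (m + 1) → ℝ, v ≠ 0 ∧ ∀ i, i ≠ i0 → ∃ t,
      ∀ k, lo i k ≤ p k + t * v k ∧ p k + t * v k ≤ hi i k := by
  obtain ⟨A, B, h1, h2⟩ := stage3 m
  choose p v hv H using h2
  choose! t ht using H
  let X := fun i0 i k => p i0 k + t i0 i * v i0 k
  have hij : ∀ e : Option (Fin m × Bool), TL e ≠ HD e := by
    rintro (_ | ⟨l, b⟩)
    · simp only [TL, HD, tl, hd, Option.map_none, ne_eq, Fin.ext_iff, Fin.val_last, Fin.val_zero]
      omega
    · simp only [TL, HD, tl, hd, Option.map_some, ne_eq, Fin.ext_iff, Fin.val_succ, Fin.val_castSucc]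
      omega
  have n1 := norm_nonneg A
  have n2 := norm_nonneg B
  have n3 := norm_nonneg X
  have R := fun i : (Fin m → Bool) × Option (Fin m × Bool) =>
    trunc (TL i.2) (HD i.2) (hij _) (sgn i.1 (TL i.2)) (sgn i.1 (HD i.2)) (A i) (B i)
      (‖A‖ + ‖B‖ + ‖X‖ + 1) (sgn_cases _ _) (sgn_cases _ _)
      (by have : |A i| ≤ ‖A‖ := norm_le_pi_norm A i
          linarith)
      (by have : |B i| ≤ ‖B‖ := norm_le_pi_norm B i
          linarith)
  choose lo hi r1 r2 r3 using R
  refine ⟨lo, hi, r1, fun p v h => h1 p v fun i => ?_, fun i0 => ⟨p i0, v i0, hv i0, fun i hi => ?_⟩⟩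
  · obtain ⟨t, ht⟩ := h i
    exact ⟨t, r2 i (fun k => p k + t * v k) ht⟩
  · refine ⟨t i0 i, r3 i (X i0 i) (fun k => ?_) (ht i0 i hi).1 (ht i0 i hi).2⟩
    have : |X i0 i k| ≤ ‖X‖ :=
      (norm_le_pi_norm (X i0 i) k).trans ((norm_le_pi_norm (X i0) i).trans (norm_le_pi_norm X i0))
    linarith

end Pool.Agent.H1.Box
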