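import Mathlib

set_option autoImplicit false

namespace Pool.Agent.H1.C21

/-- The Euclidean plane. -/
abbrev E := EuclideanSpace ℝ (Fin 2)

/-- Combinatorial configuration `(n_k)`; `I i j` means point `i` lies on line `j`. -/
def IsConfig (n k : ℕ) (I : Fin n → Fin n → Prop) : Prop :=
  (∀ j, {i | I i j}.ncard = k) ∧ (∀ i, {j | I i j}.ncard = k) ∧
  ∀ i i' j j', i ≠ i' → I i j → I i' j → I i j' → I i' j' → j = j'

/-- A straight line of the plane. -/
def IsLine (l : Set E) : Prop := ∃ a b c : ℝ, (a ≠ 0 ∨ b ≠ 0) ∧ l = {x | a * x 0 + b * x 1 = c}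

/-- Distinct points `p` and distinct straight lines `L` realize `I`, with exactly its incidences. -/
def Realizes {n : ℕ} (I : Fin n → Fin n → Prop) (p : Fin n → E) (L : Fin n → Set E) : Prop :=
  Function.Injective p ∧ Function.Injective L ∧ (∀ j, IsLine (L j)) ∧ ∀ i j, p i ∈ L j ↔ I i j

/-- The map `g` sends the set of points onto itself and the set of lines onto itself. -/
def Preserves {n : ℕ} (p : Fin n → E) (L : Fin n → Set E) (g : E → E) : Prop :=
  g '' Set.range p = Set.range p ∧ (fun l => g '' l) '' Set.range L = Set.range L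

/-- The rotation by the angle `θ` about the point `c`. -/
noncomputable def rot (c : E) (θ : ℝ) (x : E) : E :=
  !₂[c 0 + Real.cos θ * (x 0 - c 0) - Real.sin θ * (x 1 - c 1),
     c 1 + Real.sin θ * (x 0 - c 0) + Real.cos θ * (x 1 - c 1)]

/-- Polycyclic: preserved by a rotation by `2π/m`, `m ≥ 2`, all of whose orbits on the points and
on the lines have exactly `m` elements. -/
def Polycyclic {n : ℕ} (p : Fin n → E) (L : Fin n → Set E) : Prop :=
  ∃ (c : E) (m : ℕ), 2 ≤ m ∧ Preserves p L (rot c (2 * Real.pi / m)) ∧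
    (∀ i, (Set.range fun k : ℕ => (rot c (2 * Real.pi / m))^[k] (p i)).ncard = m) ∧
    ∀ j, (Set.range fun k : ℕ => (rot c (2 * Real.pi / m))^[k] '' L j).ncard = m

def ib (i j : Fin 21) : Bool := Nat.testBit 22923263384578312941911851493460108674036754567056916705319411289980854815746372870603698618277813800687999926589134312582372542480 (21 * i.val + j.val)
def I (i j : Fin 21) : Prop := ib i j = true
instance (i j : Fin 21) : Decidable (I i j) := inferInstanceAs (Decidable (ib i j = true))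

theorem config : IsConfig 21 4 I := by
  refine ⟨fun j => ?_, fun i => ?_, ?_⟩
  · have : ∀ j, (Finset.univ.filter (fun i => I i j)).card = 4 := by decide +kernel
    rw [← this j, ← Set.ncard_coe_finset]; congr 1; ext; simp
  · have : ∀ i, (Finset.univ.filter (fun j => I i j)).card = 4 := by decide +kernel
    rw [← this i, ← Set.ncard_coe_finset]; congr 1; ext; simp
  · have : ∀ i j, I i j → ∀ i', I i' j → i ≠ i' → ∀ j', I i j' → I i' j' → j = j' := by
      decide +kernel
    exact fun i i' j j' h a b c d => this i j a i' b h j' c d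

def px : Fin 21 → ℤ := ![0, 0, 0, -60, -105, -420, -84, 420, -420, 420, -420, 84, 420, 105, 60, -168, -420, 840, -840, 420, 168]
def py : Fin 21 → ℤ := ![0, 420, 140, 120, 210, 840, 84, -420, 0, 0, -420, 84, 840, 210, 120, 84, 210, -420, -420, 210, 84]
def la : Fin 21 → ℤ := ![0, 0, 0, 1, 1, 1, 1, 1, -1, -1, -1, -1, -1, 2, 2, 2, -2, -2, -2, 3, -3]
def lb : Fin 21 → ℤ := ![-2, 5, 1, 0, -2, -4, 1, -3, -3, 1, -4, -2, 0, 1, -1, -3, -3, -1, 1, 2, 2]
def lc : Fin 21 → ℤ := ![-420, 420, -420, 420, 0, -420, 420, -420, -420, 420, -420, 0, 420, 420, 0, -420, -420, 0, 420, 420, 420]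
def sg : Fin 21 → Fin 21 := ![0, 1, 2, 14, 13, 12, 11, 10, 9, 8, 7, 6, 5, 4, 3, 20, 19, 18, 17, 16, 15]
def ta : Fin 21 → Fin 21 := ![0, 1, 2, 12, 11, 10, 9, 8, 7, 6, 5, 4, 3, 18, 17, 16, 15, 14, 13, 20, 19]

theorem r1 : ∀ i j, la j * px i + lb j * py i = lc j ↔ I i j := by decide +kernel
theorem r2 : ∀ j, la j ≠ 0 ∨ lb j ≠ 0 := by decide +kernel
theorem r3 : ∀ i k : Fin 21, (∀ j, I i j ↔ I k j) → i = k := by decide +kernel
theorem r4 : ∀ i k : Fin 21, (∀ j, I j i ↔ I j k) → i = k := by decide +kernel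
theorem r5 : ∀ i, px (sg i) = -px i ∧ py (sg i) = py i ∧ sg (sg i) = i ∧ la (ta i) = -la i ∧
    lb (ta i) = lb i ∧ lc (ta i) = lc i ∧ ta (ta i) = i := by decide +kernel

noncomputable def mir : E ≃ᵢ E where
  toFun x := !₂[-x 0, x 1]
  invFun x := !₂[-x 0, x 1]
  left_inv x := by ext i; fin_cases i <;> simp
  right_inv x := by ext i; fin_cases i <;> simp
  isometry_toFun := Isometry.of_dist_eq fun x y => by
    simp [EuclideanSpace.dist_eq, Fin.sum_univ_two]

theorem real : ∃ p L, Realizes I p L ∧ ∃ g : E ≃ᵢ E, Preserves p L g ∧ ∃ x, g x ≠ x := by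
  let p : Fin 21 → E := fun i => !₂[(px i : ℝ), (py i : ℝ)]
  let L : Fin 21 → Set E := fun j => {x | (la j : ℝ) * x 0 + (lb j : ℝ) * x 1 = (lc j : ℝ)}
  have h : ∀ i j, p i ∈ L j ↔ I i j := by
    intro i j
    rw [← r1]
    simp only [p, L, Set.mem_setOf_eq]
    simp
    norm_cast
  have m0 : ∀ x : E, mir x 0 = -x 0 := fun _ => rfl
  have m1 : ∀ x : E, mir x 1 = x 1 := fun _ => rfl
  have hp : ∀ i, mir (p i) = p (sg i) := by
    intro i; ext k; fin_cases k
    · simp [m0, p, (r5 i).1]
    · simp [m1, p, (r5 i).2.1]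
  have hL : ∀ j, mir '' L j = L (ta j) := by
    intro j
    obtain ⟨-, -, -, a, b, c, -⟩ := r5 j
    ext x
    constructor
    · rintro ⟨y, hy, rfl⟩
      simp only [L, Set.mem_setOf_eq, m0, m1, a, b, c] at hy ⊢
      push_cast; linarith
    · intro hx
      refine ⟨mir x, ?_, mir.left_inv x⟩
      simp only [L, Set.mem_setOf_eq, m0, m1, a, b, c] at hx ⊢
      push_cast at hx; linarith
  refine ⟨p, L, ⟨fun i k e => r3 i k fun j => ?_, fun i k e => r4 i k fun j => ?_, fun j => ?_, h⟩,
    mir, ⟨?_, ?_⟩, !₂[1, 0], fun e => ?_⟩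
  · rw [← h, ← h, e]
  · rw [← h, ← h, e]
  · refine ⟨la j, lb j, lc j, ?_, rfl⟩
    exact_mod_cast r2 j
  · ext x
    constructor
    · rintro ⟨_, ⟨i, rfl⟩, rfl⟩; exact ⟨sg i, (hp i).symm⟩
    · rintro ⟨i, rfl⟩; exact ⟨_, ⟨sg i, rfl⟩, by rw [hp, (r5 i).2.2.1]⟩
  · ext x
    constructor
    · rintro ⟨_, ⟨i, rfl⟩, rfl⟩; exact ⟨ta i, (hL i).symm⟩
    · rintro ⟨i, rfl⟩; exact ⟨_, ⟨ta i, rfl⟩, by simp only [hL, (r5 i).2.2.2.2.2.2]⟩
  · have := m0 !₂[1, 0]
    rw [e] at this
    norm_num at this

abbrev V := Bool × Fin 21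

def okb (x : V) (y : Fin 21) (L : List (V × Fin 21)) : Bool :=
  L.all (fun p => if x.1 = p.1.1 then (p.2 != y || p.1.2 == x.2) else
    if x.1 then ib p.1.2 x.2 == ib p.2 y else ib x.2 p.1.2 == ib y p.2)

def srch : List V → List (V × Fin 21) → Bool
  | [], L => L.any (fun p => !p.1.1 && p.1.2 == p.2)
  | x :: r, L => (List.finRange 21).all (fun y => !okb x y L || srch r ((x, y) :: L))

theorem k2 : srch [(false, 4), (true, 16), (false, 11), (true, 10), (true, 17), (false, 3), (true, 0), (false, 16), (true, 19), (false, 5), (true, 12), (true, 6), (false, 9), (false, 17), (true, 11), (false, 0), (false, 7), (true, 2), (true, 3), (false, 10), (false, 19), (true, 18), (false, 15), (false, 1), (true, 1), (true, 7), (true, 13), (false, 2), (true, 4), (false, 20), (true, 8), (false, 13), (true, 20), (true, 15), (false, 6), (false, 18), (true, 9), (false, 8), (false, 12), (true, 5), (false, 14), (true, 14)] [] = true := by decide +kernel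

theorem sound (f : V → Fin 21) (h1 : ∀ b i k, f (b, i) = f (b, k) → i = k)
    (h2 : ∀ i j, ib i j = ib (f (false, i)) (f (true, j))) :
    ∀ (r : List V) (L : List (V × Fin 21)), (∀ p ∈ L, p.2 = f p.1) → srch r L = true →
    ∃ i, f (false, i) = i := by
  intro r
  induction r with
  | nil =>
    intro L hL h
    rw [srch, List.any_eq_true] at h
    obtain ⟨⟨⟨b, i⟩, w⟩, hp, h⟩ := h
    have := hL _ hp
    simp only [Bool.and_eq_true, Bool.not_eq_true', beq_iff_eq] at h this
    obtain ⟨rfl, rfl⟩ := h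
    exact ⟨_, this.symm⟩
  | cons x r ih =>
    intro L hL h
    rw [srch, List.all_eq_true] at h
    have h3 := h (f x) (List.mem_finRange _)
    have h4 : okb x (f x) L = true := by
      unfold okb
      rw [List.all_eq_true]
      rintro ⟨⟨a, k⟩, w⟩ hp
      have hw : w = f (a, k) := hL _ hp
      subst hw
      obtain ⟨c, i⟩ := x
      cases a <;> cases c <;> simp [h2 k i, h2 i k]
      · by_cases e : f (false, k) = f (false, i)
        · exact Or.inr (h1 _ _ _ e)
        · exact Or.inl e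
      · by_cases e : f (true, k) = f (true, i)
        · exact Or.inr (h1 _ _ _ e)
        · exact Or.inl e
    rw [h4] at h3
    simp only [Bool.not_true, Bool.false_or] at h3
    exact ih ((x, f x) :: L) (by
      intro p hp
      rcases List.mem_cons.1 hp with rfl | hp
      · rfl
      · exact hL p hp) h3

theorem rot_inj (c : E) (θ : ℝ) : Function.Injective (rot c θ) := by
  intro x y h
  have h0 : rot c θ x 0 = rot c θ y 0 := by rw [h]
  have h1 : rot c θ x 1 = rot c θ y 1 := by rw [h]
  simp [rot] at h0 h1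
  have := Real.cos_sq_add_sin_sq θ
  ext i; fin_cases i
  · show x 0 = y 0
    linear_combination Real.cos θ * h0 + Real.sin θ * h1 - (x 0 - y 0) * this
  · show x 1 = y 1
    linear_combination Real.cos θ * h1 - Real.sin θ * h0 - (x 1 - y 1) * this

theorem notPoly (p : Fin 21 → E) (L : Fin 21 → Set E) (h : Realizes I p L) : ¬ Polycyclic p L := by
  obtain ⟨hp, hL, -, hI⟩ := h
  rintro ⟨c, m, hm, ⟨hg1, hg2⟩, ho, -⟩
  have gi := rot_inj c (2 * Real.pi / m)
  generalize rot c (2 * Real.pi / m) = g at *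
  have e1 : ∀ j, ∃ k, p k = g (p j) := fun j => by
    have : g (p j) ∈ Set.range p := hg1 ▸ ⟨_, ⟨j, rfl⟩, rfl⟩
    exact this
  have e2 : ∀ i, ∃ j, L j = g '' L i := fun i => by
    have : g '' L i ∈ Set.range L := hg2 ▸ ⟨_, ⟨i, rfl⟩, rfl⟩
    exact this
  choose s hs using e1
  choose t ht using e2
  have si : Function.Injective s := fun j k e => hp (gi (by rw [← hs, ← hs, e]))
  have ti : Function.Injective t := fun j k e => hL (gi.image_injective (by rw [← ht, ← ht, e]))
  obtain ⟨i, hi⟩ := sound (fun x => if x.1 then t x.2 else s x.2)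
    (by
      intro b i k e
      cases b
      · exact si e
      · exact ti e)
    (fun i j => Bool.eq_iff_iff.2 (show I i j ↔ I (s i) (t j) by
      rw [← hI, ← hI, hs, ht, gi.mem_set_image])) _ [] (by simp) k2
  have fx : g (p i) = p i := by rw [← hs]; exact congrArg p hi
  have := ho i
  simp only [Function.iterate_fixed fx, Set.range_const, Set.ncard_singleton] at this
  omega

end Pool.Agent.H1.C21
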