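import Mathlib

namespace Pool.Agent.H1.Coup

open Finset

variable {α : Type} [DecidableEq α]

theorem sel_bound (k q : ℕ) (hk : 1 ≤ k) (hkq : k ≤ q) (r : Finset α → α) :
    ∀ n, n ≤ q → ∀ G : Finset α, G.card = n → (∀ R ∈ G.powersetCard (k + 1), r R ∈ R) →
      (∑ i ∈ G, ((((G.powersetCard (k + 1)).filter (r · = i)).card : ℝ)) ^ 2) *
        (1 - (1 - k / q : ℝ) ^ 2) ≤ ((n - 1).choose k : ℝ) ^ 2 := by
  have hq : (0 : ℝ) < q := by exact_mod_cast (by omega : 0 < q)
  have hl0 : (0 : ℝ) ≤ 1 - k / q := by
    rw [sub_nonneg, div_le_one hq]; exact_mod_cast hkq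
  have hl1 : (1 - k / q : ℝ) ≤ 1 := by
    have : (0 : ℝ) ≤ k / q := by positivity
    linarith
  intro n
  induction n with
  | zero =>
    intro _ G hG _
    rw [Finset.card_eq_zero.1 hG]
    simp
  | succ n ih =>
    intro hn G hG hr
    obtain ⟨m, hm, hmax⟩ := Finset.exists_max_image G
      (fun i => ((G.powersetCard (k + 1)).filter (r · = i)).card) (Finset.card_pos.1 (by omega))
    have hG' : (G.erase m).card = n := by rw [Finset.card_erase_of_mem hm]; omega
    have hP : (G.erase m).powersetCard (k + 1) = (G.powersetCard (k + 1)).filter (m ∉ ·) := by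
      ext R
      simp only [mem_powersetCard, mem_filter, subset_erase]
      tauto
    have IH := ih (by omega) (G.erase m) hG' fun R hR => hr R (by
      rw [hP] at hR; exact (mem_filter.1 hR).1)
    set c : α → ℝ := fun i => (((G.powersetCard (k + 1)).filter (r · = i)).card : ℝ) with hc
    set c' : α → ℝ := fun i => ((((G.erase m).powersetCard (k + 1)).filter (r · = i)).card : ℝ)
      with hc'
    set d : α → ℝ := fun i =>
      ((((G.powersetCard (k + 1)).filter (m ∈ ·)).filter (r · = i)).card : ℝ) with hd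
    have h1 : ∀ i, c i = d i + c' i := fun i => by
      simp only [hc, hc', hd, hP]
      rw [filter_comm (m ∈ ·), filter_comm (m ∉ ·), ← Nat.cast_add,
        Finset.card_filter_add_card_filter_not]
    have h2 : c' m = 0 := by
      simp only [hc', Nat.cast_eq_zero, card_eq_zero, filter_eq_empty_iff, hP, mem_filter]
      exact fun R hR e => hR.2 (e ▸ hr R hR.1)
    have h3 : ∑ i ∈ G, d i = n.choose k := by
      simp only [hd]
      rw [← Nat.cast_sum, ← Finset.card_eq_sum_card_fiberwise (f := r)]
      · have := Finset.card_filter_add_card_filter_not (s := G.powersetCard (k + 1)) (m ∈ ·)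
        rw [← hP, card_powersetCard, card_powersetCard, hG, hG', Nat.choose_succ_succ'] at this
        congr 1
        omega
      · intro R hR
        have := (mem_filter.1 hR).1
        exact (mem_powersetCard.1 this).1 (hr R this)
    have hd0 : ∀ i, 0 ≤ d i := fun i => Nat.cast_nonneg _
    have hc0 : ∀ i, 0 ≤ c' i := fun i => Nat.cast_nonneg _
    have h4 : ∀ i ∈ G.erase m, c i ^ 2 ≤ c' i ^ 2 + 2 * d m * d i := fun i hi => by
      have h5 : c i ≤ c m := Nat.cast_le.2 (hmax i (mem_of_mem_erase hi))
      rw [h1 m, h2, add_zero, h1 i] at h5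
      rw [h1 i]
      nlinarith [hd0 i, hc0 i]
    have h5 := Finset.sum_le_sum h4
    rw [Finset.sum_add_distrib, ← Finset.mul_sum] at h5
    rw [← Finset.add_sum_erase G d hm] at h3
    have h6 : ∑ i ∈ G, c i ^ 2 ≤ (n.choose k : ℝ) ^ 2 + ∑ i ∈ G.erase m, c' i ^ 2 := by
      rw [← Finset.add_sum_erase G (fun i => c i ^ 2) hm, ← h3, h1 m, h2, add_zero]
      nlinarith [sq_nonneg (∑ i ∈ G.erase m, d i)]
    have h7 : ((n - 1).choose k : ℝ) ≤ (1 - k / q) * n.choose k := by
      rcases n with _ | n
      · simp [Nat.choose_eq_zero_of_lt (show 0 < k by omega)]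
      · rw [Nat.add_sub_cancel]
        by_cases hkn : k ≤ n + 1
        · have h8 : (n.choose k : ℝ) * (n + 1) = (n + 1).choose k * (n + 1 - k) := by
            have := congrArg (Nat.cast : ℕ → ℝ) (Nat.choose_mul_succ_eq n k)
            push_cast [hkn] at this
            exact this
          have h9 : (n : ℝ) + 1 ≤ q := by exact_mod_cast (by omega : n + 1 ≤ q)
          have h10 : (0 : ℝ) < n + 1 := by positivity
          have h11 : (k : ℝ) / q * (n + 1) ≤ k := by
            rw [div_mul_eq_mul_div, div_le_iff₀ hq]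
            exact mul_le_mul_of_nonneg_left h9 (by positivity)
          have h12 : (0 : ℝ) ≤ (n + 1).choose k := by positivity
          refine le_of_mul_le_mul_right ?_ h10
          rw [h8]
          nlinarith
        · rw [Nat.choose_eq_zero_of_lt (by omega), Nat.choose_eq_zero_of_lt (by omega)]
          simp
    rw [Nat.add_sub_cancel]
    have h8 : ((n - 1).choose k : ℝ) ^ 2 ≤ ((1 - k / q) * n.choose k) ^ 2 :=
      pow_le_pow_left₀ (by positivity) h7 2
    have h9 : 0 ≤ 1 - (1 - k / q : ℝ) ^ 2 := by nlinarith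
    have h10 := mul_le_mul_of_nonneg_right h6 h9
    nlinarith

theorem sq_bound {β : Type} [DecidableEq β] [Fintype α] [Fintype β] (k : ℕ) (hk : 1 ≤ k)
    (hkq : k ≤ Fintype.card α) (a : Finset α → Option (α × β))
    (ha : ∀ R ∈ (univ : Finset α).powersetCard (k + 1), ∀ z, a R = some z → z.1 ∈ R) :
    (∑ z : α × β, ((((univ : Finset α).powersetCard (k + 1)).filter (a · = some z)).card : ℝ) ^ 2)
      * (1 - (1 - k / Fintype.card α : ℝ) ^ 2) ≤ ((Fintype.card α - 1).choose k : ℝ) ^ 2 := by
  have hne : Nonempty α := Fintype.card_pos_iff.1 (by omega)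
  have : ∀ R : Finset α, ∃ i, R ∈ (univ : Finset α).powersetCard (k + 1) →
      i ∈ R ∧ ∀ z, a R = some z → z.1 = i := by
    intro R
    by_cases hR : R ∈ (univ : Finset α).powersetCard (k + 1)
    · cases h : a R with
      | none =>
        obtain ⟨i, hi⟩ := Finset.card_pos.1 (show 0 < R.card by
          rw [(mem_powersetCard.1 hR).2]; omega)
        exact ⟨i, fun _ => ⟨hi, fun z hz => by cases hz⟩⟩
      | some z => exact ⟨z.1, fun _ => ⟨ha R hR z h, fun z' hz => by cases hz; rfl⟩⟩
    · exact ⟨hne.some, fun h => absurd h hR⟩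
  choose r hr using this
  refine le_trans (mul_le_mul_of_nonneg_right ?_ ?_)
    (sel_bound k _ hk hkq r _ le_rfl univ rfl fun R hR => (hr R hR).1)
  · rw [Fintype.sum_prod_type]
    refine Finset.sum_le_sum fun i _ => ?_
    refine (Finset.sum_sq_le_sq_sum_of_nonneg fun j _ => Nat.cast_nonneg _).trans
      (pow_le_pow_left₀ (Finset.sum_nonneg fun j _ => Nat.cast_nonneg _) ?_ 2)
    rw [← Nat.cast_sum, Nat.cast_le, ← Finset.card_biUnion]
    · refine Finset.card_le_card fun R hR => ?_
      simp only [mem_biUnion, mem_univ, true_and, mem_filter] at hR ⊢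
      obtain ⟨j, h1, h2⟩ := hR
      exact ⟨h1, ((hr R h1).2 _ h2).symm⟩
    · intro j _ j' _ hjj
      refine Finset.disjoint_filter.2 fun R _ h1 h2 => hjj ?_
      rw [h1] at h2
      simpa using h2
  · have hq : (0 : ℝ) < Fintype.card α := by exact_mod_cast (by omega : 0 < Fintype.card α)
    have hl0 : (k : ℝ) / Fintype.card α ≤ 1 := by
      rw [div_le_one hq]; exact_mod_cast hkq
    have : (0 : ℝ) ≤ k / Fintype.card α := by positivity
    nlinarith

theorem pair_bound [Fintype α] (k : ℕ) (hk : 1 ≤ k)
    (hkq : k ≤ Fintype.card α) (a b : Finset α → Option (α × α))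
    (ha : ∀ R ∈ (univ : Finset α).powersetCard (k + 1), ∀ z, a R = some z → z.1 ∈ R)
    (hb : ∀ R ∈ (univ : Finset α).powersetCard (k + 1), ∀ z, b R = some z → z.2 ∈ R) :
    (∑ R ∈ (univ : Finset α).powersetCard (k + 1), ∑ C ∈ (univ : Finset α).powersetCard (k + 1),
      (if a R = b C then (1 : ℝ) else 0)) ≤
      (∑ R ∈ (univ : Finset α).powersetCard (k + 1),
        ∑ _C ∈ (univ : Finset α).powersetCard (k + 1), (if a R = none then (1 : ℝ) else 0)) +
      ((Fintype.card α - 1).choose k : ℝ) ^ 2 / (1 - (1 - k / Fintype.card α : ℝ) ^ 2) := by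
  have hq : (0 : ℝ) < Fintype.card α := by exact_mod_cast (by omega : 0 < Fintype.card α)
  have hl0 : (k : ℝ) / Fintype.card α ≤ 1 := by
    rw [div_le_one hq]; exact_mod_cast hkq
  have hl1 : (0 : ℝ) < k / Fintype.card α := by
    have : (0 : ℝ) < k := by exact_mod_cast hk
    positivity
  have hpos : 0 < 1 - (1 - k / Fintype.card α : ℝ) ^ 2 := by nlinarith
  have h1 := sq_bound k hk hkq a ha
  have h2 := sq_bound k hk hkq (fun R => (b R).map Prod.swap) (fun R hR z hz => by
    obtain ⟨y, hy, rfl⟩ := Option.map_eq_some_iff.1 hz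
    exact hb R hR y hy)
  rw [← le_div_iff₀ hpos] at h1 h2
  have h3 : ∑ z : α × α, ((((univ : Finset α).powersetCard (k + 1)).filter
      (fun R => (b R).map Prod.swap = some z)).card : ℝ) ^ 2 =
      ∑ z : α × α, ((((univ : Finset α).powersetCard (k + 1)).filter
      (b · = some z)).card : ℝ) ^ 2 := by
    refine Fintype.sum_equiv (Equiv.prodComm α α) _ _ fun z => ?_
    congr 3
    refine Finset.filter_congr fun R _ => ?_
    cases b R <;> simp [Prod.ext_iff, and_comm]
  rw [h3] at h2
  set P := (univ : Finset α).powersetCard (k + 1)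
  have h4 : ∀ R C, (if a R = b C then (1 : ℝ) else 0) ≤ (if a R = none then (1 : ℝ) else 0) +
      ∑ z : α × α, (if a R = some z then (1 : ℝ) else 0) * (if b C = some z then 1 else 0) := by
    intro R C
    cases h : a R with
    | none => simp; split_ifs <;> norm_num
    | some y =>
      simp only [reduceCtorEq, if_false, zero_add, Option.some.injEq, ite_mul, one_mul, zero_mul,
        Finset.sum_ite_eq, mem_univ, if_true]
      simp only [eq_comm (a := some y), le_refl]
  refine (Finset.sum_le_sum fun R _ => Finset.sum_le_sum fun C _ => h4 R C).trans ?_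
  simp only [Finset.sum_add_distrib]
  refine add_le_add le_rfl ?_
  have h5 : ∑ R ∈ P, ∑ C ∈ P, ∑ z : α × α, (if a R = some z then (1 : ℝ) else 0) *
      (if b C = some z then 1 else 0) = ∑ z : α × α, ((P.filter (a · = some z)).card : ℝ) *
        ((P.filter (b · = some z)).card : ℝ) := by
    simp only [Finset.card_filter, Nat.cast_sum, Finset.sum_mul_sum, Nat.cast_ite, Nat.cast_one,
      Nat.cast_zero]
    rw [Finset.sum_comm (s := univ)]
    refine Finset.sum_congr rfl fun R _ => ?_
    rw [Finset.sum_comm]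
  rw [h5]
  have h6 : ∑ z : α × α, ((P.filter (a · = some z)).card : ℝ) *
      ((P.filter (b · = some z)).card : ℝ) ≤ ∑ z : α × α, (((P.filter (a · = some z)).card : ℝ) ^ 2
      + ((P.filter (b · = some z)).card : ℝ) ^ 2) / 2 :=
    Finset.sum_le_sum fun z _ => by
      nlinarith [sq_nonneg (((P.filter (a · = some z)).card : ℝ) -
        ((P.filter (b · = some z)).card : ℝ))]
  rw [← Finset.sum_div, Finset.sum_add_distrib] at h6
  linarith

end Pool.Agent.H1.Coup
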