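import Mathlib

set_option autoImplicit false
set_option linter.unusedSectionVars false
set_option linter.unusedVariables false

namespace Pool.Agent.H1.Glauber

open Finset

variable {V : Type} [Fintype V] [DecidableEq V] (G : SimpleGraph V) [DecidableRel G.Adj]

/-- adjacency indicator -/
noncomputable def ad (u v : V) : ℝ := if G.Adj u v then 1 else 0

lemma ad_nonneg (u v : V) : 0 ≤ ad G u v := by unfold ad; split_ifs <;> norm_num

lemma ad_symm (u v : V) : ad G u v = ad G v u := by
  unfold ad; simp only [G.adj_comm u v]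

lemma sum_ad_le (u : V) (S : Finset V) : ∑ v ∈ S, ad G u v ≤ G.degree u := by
  have h1 : ∑ v ∈ S, ad G u v ≤ ∑ v, ad G u v :=
    Finset.sum_le_sum_of_subset_of_nonneg (Finset.subset_univ _) (fun v _ _ => ad_nonneg G u v)
  have h2 : ∑ v, ad G u v = G.degree u := by
    unfold ad
    rw [Finset.sum_boole, ← SimpleGraph.card_neighborFinset_eq_degree, SimpleGraph.neighborFinset_eq_filter]
  linarith

noncomputable def cod (u v : V) : ℝ := ∑ z, ad G u z * ad G z v

lemma cod_nonneg (u v : V) : 0 ≤ cod G u v :=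
  Finset.sum_nonneg fun z _ => mul_nonneg (ad_nonneg G _ _) (ad_nonneg G _ _)

lemma cod_symm (u v : V) : cod G u v = cod G v u := by
  unfold cod; refine Finset.sum_congr rfl fun z _ => ?_
  rw [ad_symm G u z, ad_symm G z v, mul_comm]

noncomputable def qq (α β : ℝ) (u v : V) : ℝ := α * ad G u v + β * (if u = v then 0 else cod G u v)

lemma qq_symm (α β : ℝ) (u v : V) : qq G α β u v = qq G α β v u := by
  unfold qq
  rw [ad_symm G u v, cod_symm G u v]
  by_cases h : u = v
  · simp [h]
  · simp [h, Ne.symm h]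

noncomputable def QQ (α β : ℝ) (S : Finset V) : ℝ := ∑ u ∈ S, ∑ v ∈ S, qq G α β u v

lemma QQ_union (α β : ℝ) (S A : Finset V) (h : Disjoint S A) :
    QQ G α β (S ∪ A) = QQ G α β S + 2 * ∑ u ∈ A, ∑ v ∈ S, qq G α β u v + QQ G α β A := by
  unfold QQ
  rw [Finset.sum_union h]
  simp only [Finset.sum_union h, Finset.sum_add_distrib]
  have : ∑ u ∈ S, ∑ v ∈ A, qq G α β u v = ∑ u ∈ A, ∑ v ∈ S, qq G α β u v := by
    rw [Finset.sum_comm]
    exact Finset.sum_congr rfl fun u _ => Finset.sum_congr rfl fun v _ => qq_symm G α β v u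
  rw [this]; ring

noncomputable def phi (α β : ℝ) (S : Finset V) : ℝ := S.card - QQ G α β S

/-- the combinatorial estimate -/
lemma drift (Δ : ℕ) (hΔ : 2 ≤ Δ) (hG : ∀ v, G.degree v ≤ Δ) (S : Finset V) (x : V) (hx : x ∈ S) :
    ∃ D T : ℝ,
      phi G (1 / (8 * Δ)) (1 / (8 * Δ ^ 2)) (S.erase x) ≤ phi G (1 / (8 * Δ)) (1 / (8 * Δ ^ 2)) S + D ∧
      phi G (1 / (8 * Δ)) (1 / (8 * Δ ^ 2)) (S.erase x ∪ G.neighborFinset x) ≤
        phi G (1 / (8 * Δ)) (1 / (8 * Δ ^ 2)) S + T ∧
      |D| ≤ 2 * Δ ∧ |T| ≤ 2 * Δ ∧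
      ∀ p : ℝ, 0 ≤ p → p * Δ ≤ 1 → (1 - p) * D + p * T ≤ -(1 / (8 * Δ ^ 2)) := by
  set α : ℝ := 1 / (8 * Δ) with hα
  set β : ℝ := 1 / (8 * Δ ^ 2) with hβ
  have hΔr : (2 : ℝ) ≤ Δ := by exact_mod_cast hΔ
  have hΔ0 : (0 : ℝ) < Δ := by linarith
  have hα0 : 0 < α := by positivity
  have hβ0 : 0 < β := by positivity
  have hβΔ : β * Δ = α := by rw [hα, hβ]; field_simp
  have hαΔ : α * Δ = 1 / 8 := by rw [hα]; field_simp
  have hGr : ∀ v, (G.degree v : ℝ) ≤ Δ := fun v => by exact_mod_cast hG v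
  set S0 := S.erase x with hS0
  set A := G.neighborFinset x \ S with hA
  have hxS0 : x ∉ S0 := Finset.notMem_erase x S
  have hS : S = S0 ∪ {x} := by
    ext y; by_cases h : y = x <;> simp [hS0, h, hx]
  have hS' : S0 ∪ G.neighborFinset x = S0 ∪ A := by
    ext y
    simp only [hS0, hA, Finset.mem_union, Finset.mem_erase, Finset.mem_sdiff,
      SimpleGraph.mem_neighborFinset]
    constructor
    · rintro (h | h)
      · exact Or.inl h
      · by_cases hy : y ∈ S
        · exact Or.inl ⟨(G.ne_of_adj h).symm, hy⟩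
        · exact Or.inr ⟨h, hy⟩
    · rintro (h | h)
      · exact Or.inl h
      · exact Or.inr h.1
  have hdisj : Disjoint S0 A := by
    rw [Finset.disjoint_left]; intro y hy hy'
    exact (Finset.mem_sdiff.1 hy').2 (Finset.mem_of_mem_erase hy)
  set e : ℝ := ∑ v ∈ S0, ad G x v with he
  set a : ℝ := (A.card : ℝ) with ha
  set co : ℝ := ∑ u ∈ A, ∑ v ∈ S0, ad G u v with hco
  have he0 : 0 ≤ e := Finset.sum_nonneg fun v _ => ad_nonneg G _ _
  have ha0 : 0 ≤ a := Nat.cast_nonneg _
  have hco0 : 0 ≤ co := Finset.sum_nonneg fun u _ => Finset.sum_nonneg fun v _ => ad_nonneg G _ _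
  have hAad : ∀ u ∈ A, ad G x u = 1 := by
    intro u hu
    have := (SimpleGraph.mem_neighborFinset _ _ _).1 (Finset.mem_sdiff.1 hu).1
    simp [ad, this]
  have hea : e + a ≤ Δ := by
    have h1 := sum_ad_le G x (S0 ∪ A)
    rw [Finset.sum_union hdisj] at h1
    have h2 : ∑ v ∈ A, ad G x v = a := by
      rw [Finset.sum_congr rfl hAad]; simp [ha]
    have := hGr x
    linarith
  have hcoa : co ≤ a * Δ := by
    have : ∑ u ∈ A, ∑ v ∈ S0, ad G u v ≤ ∑ u ∈ A, (Δ : ℝ) :=
      Finset.sum_le_sum fun u _ => (sum_ad_le G u S0).trans (hGr u)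
    simpa [ha] using this
  -- cherries through x
  have hc : ∑ v ∈ S0, cod G x v ≤ co + e * Δ := by
    unfold cod
    rw [Finset.sum_comm]
    have h1 : ∑ z, ∑ v ∈ S0, ad G x z * ad G z v = ∑ z ∈ S0 ∪ A, ∑ v ∈ S0, ad G x z * ad G z v := by
      symm
      apply Finset.sum_subset (Finset.subset_univ _)
      intro z _ hz
      have : ¬ G.Adj x z := by
        intro h
        apply hz
        rw [← hS']
        exact Finset.mem_union_right _ ((SimpleGraph.mem_neighborFinset _ _ _).2 h)
      simp [ad, this]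
    rw [h1, Finset.sum_union hdisj]
    have h2 : ∑ z ∈ A, ∑ v ∈ S0, ad G x z * ad G z v = co := by
      refine Finset.sum_congr rfl fun z hz => ?_
      simp [hAad z hz]
    have h3 : ∑ z ∈ S0, ∑ v ∈ S0, ad G x z * ad G z v ≤ e * Δ := by
      rw [he, Finset.sum_mul]
      refine Finset.sum_le_sum fun z _ => ?_
      rw [← Finset.mul_sum]
      exact mul_le_mul_of_nonneg_left ((sum_ad_le G z S0).trans (hGr z)) (ad_nonneg G _ _)
    linarith
  set R : ℝ := 2 * α * e + 2 * β * (co + e * Δ) with hR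
  have hQ1 : QQ G α β S ≤ QQ G α β S0 + R := by
    rw [hS, QQ_union G α β S0 {x} (by simpa using hxS0)]
    have h1 : QQ G α β {x} = 0 := by simp [QQ, qq, ad]
    have h2 : ∑ v ∈ S0, qq G α β x v = α * e + β * ∑ v ∈ S0, cod G x v := by
      rw [he, Finset.mul_sum, Finset.mul_sum, ← Finset.sum_add_distrib]
      refine Finset.sum_congr rfl fun v hv => ?_
      have : x ≠ v := fun h => hxS0 (h ▸ hv)
      simp [qq, this]
    rw [h1, Finset.sum_singleton, h2]
    nlinarith
  have hQ2 : QQ G α β S0 + 2 * α * co + β * (a * (a - 1)) ≤ QQ G α β (S0 ∪ A) := by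
    rw [QQ_union G α β S0 A hdisj]
    have h1 : α * co ≤ ∑ u ∈ A, ∑ v ∈ S0, qq G α β u v := by
      rw [hco, Finset.mul_sum]
      refine Finset.sum_le_sum fun u _ => ?_
      rw [Finset.mul_sum]
      refine Finset.sum_le_sum fun v _ => ?_
      unfold qq
      have : 0 ≤ β * (if u = v then 0 else cod G u v) := by
        apply mul_nonneg hβ0.le; split_ifs
        · exact le_rfl
        · exact cod_nonneg G _ _
      linarith
    have h2 : β * (a * (a - 1)) ≤ QQ G α β A := by
      unfold QQ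
      have h3 : ∀ u ∈ A, β * (a - 1) ≤ ∑ v ∈ A, qq G α β u v := by
        intro u hu
        have h4 : ∑ v ∈ A.erase u, β ≤ ∑ v ∈ A.erase u, qq G α β u v := by
          refine Finset.sum_le_sum fun v hv => ?_
          have hvu : u ≠ v := (Finset.ne_of_mem_erase hv).symm
          have hv' := Finset.mem_of_mem_erase hv
          have h5 : ad G u x * ad G x v ≤ cod G u v :=
            Finset.single_le_sum (f := fun z => ad G u z * ad G z v)
              (fun z _ => mul_nonneg (ad_nonneg G _ _) (ad_nonneg G _ _)) (Finset.mem_univ x)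
          rw [ad_symm G u x, hAad u hu, hAad v hv'] at h5
          unfold qq
          rw [if_neg hvu]
          have := mul_nonneg hα0.le (ad_nonneg G u v)
          nlinarith
        have h6 : ∑ v ∈ A.erase u, qq G α β u v + qq G α β u u = ∑ v ∈ A, qq G α β u v :=
          Finset.sum_erase_add _ _ hu
        have h7 : qq G α β u u = 0 := by simp [qq, ad]
        have h8 : ∑ v ∈ A.erase u, β = β * (a - 1) := by
          rw [Finset.sum_const, Finset.card_erase_of_mem hu, nsmul_eq_mul,
            Nat.cast_sub (Finset.card_pos.2 ⟨u, hu⟩)]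
          simp [ha, mul_comm]
        linarith
      have := Finset.sum_le_sum h3
      rw [Finset.sum_const, nsmul_eq_mul] at this
      linarith
    linarith
  have hcard1 : (S.card : ℝ) = S0.card + 1 := by
    rw [hS0, Finset.card_erase_of_mem hx, Nat.cast_sub (Finset.card_pos.2 ⟨x, hx⟩)]; simp
  have hcard2 : ((S0 ∪ A).card : ℝ) = S0.card + a := by
    rw [Finset.card_union_of_disjoint hdisj]; simp [ha]
  have hR' : R = 4 * α * e + 2 * β * co := by rw [hR, ← hβΔ]; ring
  have hαe : α * e ≤ 1 / 8 := by nlinarith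
  have hβco : β * co ≤ 1 / 8 := by
    have : β * co ≤ β * (a * Δ) := mul_le_mul_of_nonneg_left hcoa hβ0.le
    have h2 : β * (a * Δ) = α * a := by rw [← hβΔ]; ring
    nlinarith
  have hαco : α * co ≤ Δ / 8 := by
    have : α * co ≤ α * (a * Δ) := mul_le_mul_of_nonneg_left hcoa hα0.le
    have h2 : α * (a * Δ) = a / 8 := by rw [show α * (a * Δ) = (α * Δ) * a by ring, hαΔ]; ring
    linarith
  have haa0 : 0 ≤ a * (a - 1) := by
    rcases Nat.eq_zero_or_pos A.card with h | h
    · simp [ha, h]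
    · have : (1 : ℝ) ≤ a := by rw [ha]; exact_mod_cast h
      nlinarith
  have hβaa : β * (a * (a - 1)) ≤ 1 / 8 := by
    have h1 : a * (a - 1) ≤ Δ * Δ := by nlinarith
    have h2 : β * (Δ * Δ) = 1 / 8 := by rw [← mul_assoc, hβΔ, hαΔ]
    nlinarith
  have hβ8 : β ≤ 1 / 32 := by nlinarith
  have hR0 : 0 ≤ R := by rw [hR']; positivity
  have hR1 : R ≤ 3 / 4 := by rw [hR']; linarith
  refine ⟨-1 + R, -1 + R + a - 2 * α * co - β * (a * (a - 1)), ?_, ?_, ?_, ?_, ?_⟩
  · unfold phi; linarith
  · rw [hS']; unfold phi; linarith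
  · rw [abs_le]; constructor <;> linarith
  · have := mul_nonneg hα0.le hco0
    have := mul_nonneg hβ0.le haa0
    rw [abs_le]; constructor <;> linarith
  · intro p hp0 hp1
    -- value at p = 1/Δ
    have key : Δ * (-1 + R) + (a - 2 * α * co - β * (a * (a - 1))) ≤ -(β * Δ) := by
      have h1 : Δ * (-1 + R) = -Δ + e / 2 + 2 * α * co := by
        rw [hR', ← hβΔ]
        have : Δ * (4 * (β * Δ) * e) = e / 2 := by
          rw [hβΔ, show Δ * (4 * α * e) = 4 * (α * Δ) * e by ring, hαΔ]; ring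
        linarith
      rw [h1]
      have hint : a = Δ ∨ a ≤ Δ - 1 := by
        have : (A.card : ℝ) ≤ Δ := by linarith
        have h2 : A.card ≤ Δ := by exact_mod_cast this
        rcases Nat.eq_or_lt_of_le h2 with h | h
        · left; rw [ha, h]
        · right
          have : A.card + 1 ≤ Δ := h
          have : (A.card : ℝ) + 1 ≤ Δ := by exact_mod_cast this
          linarith
      rcases hint with h | h
      · have : e = 0 := by linarith
        rw [this, h]
        have : β * Δ * 1 ≤ β * Δ * (Δ - 1) := mul_le_mul_of_nonneg_left (by linarith) (by positivity)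
        nlinarith
      · have := mul_nonneg hβ0.le haa0
        rw [hβΔ]
        have : α ≤ 1 / 16 := by nlinarith
        linarith
    have h0 : -1 + R ≤ -β := by linarith
    have e1 : (1 - p) * (-1 + R) + p * (-1 + R + a - 2 * α * co - β * (a * (a - 1))) =
        (1 - p * Δ) * (-1 + R) + p * (Δ * (-1 + R) + (a - 2 * α * co - β * (a * (a - 1)))) := by ring
    rw [e1]
    have h1 := mul_le_mul_of_nonneg_left h0 (sub_nonneg.2 hp1)
    have h2 := mul_le_mul_of_nonneg_left key hp0
    nlinarith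

end Pool.Agent.H1.Glauber
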