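import Pool.Agent.H1.H4A

set_option autoImplicit false

namespace Pool.Agent.H1.H4

def X (i : ℕ) : Z3 := (ptl[i]?).getD (0, 0, 1)
def Y (i : ℕ) : Z3 := (lnl[i - 246]?).getD (1, 0, 0)

theorem hX (i : ℕ) (h : i < 246) : ptl[i]? = some (X i) := by
  rw [X, List.getElem?_eq_getElem (by rw [lenp]; exact h)]; rfl
theorem hY (i : ℕ) (h : i < 492) : lnl[i - 246]? = some (Y i) := by
  rw [Y, List.getElem?_eq_getElem (by rw [lenl]; omega)]; rfl

theorem gall (P L : List Z3) (F : Z3 × ℕ → Z3 × ℕ → Bool)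
    (h : (P.zipIdx.all fun p => L.zipIdx.all fun l => F p l) = true) (i j : ℕ) (x y : Z3)
    (hx : P[i]? = some x) (hy : L[j]? = some y) : F (x, i) (y, j) = true :=
  List.all_eq_true.1 (List.all_eq_true.1 h (x, i)
    (List.mem_zipIdx_iff_getElem?.2 hx)) (y, j) (List.mem_zipIdx_iff_getElem?.2 hy)

theorem inc (i j : ℕ) (hi : i < 246) (hj : 246 ≤ j) (hj' : j < 492) :
    dz (X i) (Y j) = 0 ↔ A i j = true := by
  have := gall ptl lnl (fun p l => (dz p.1 l.1 == 0) == A p.2 (l.2 + 246)) f0 i (j - 246) _ _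
    (hX i hi) (hY j hj')
  simp only [beq_iff_eq, Nat.sub_add_cancel hj] at this
  rw [← this, beq_iff_eq]

theorem sumF (n : ℕ) (p : ℕ → Prop) [DecidablePred p] (f : ℕ → ℤ) :
    ∑ x ∈ (Finset.range n).filter p, f x = (((List.range n).filter (fun x => p x)).map f).sum := rfl

theorem xz (i : ℕ) (h : i < 246) : (X i).2.2 ≠ 0 := by
  simpa using List.all_eq_true.1 f1 _ (List.mem_of_getElem? (hX i h))
theorem yz (i : ℕ) (h : i < 492) : (Y i).1 ≠ 0 ∨ (Y i).2.1 ≠ 0 := by
  simpa using List.all_eq_true.1 f2 _ (List.mem_of_getElem? (hY i h))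

theorem hA (a b : ℕ) : A a b = true ↔ ∃ k < 4, nb a k = b := by
  simp only [A, Bool.or_eq_true, beq_iff_eq]
  constructor
  · rintro (((h | h) | h) | h) <;> exact ⟨_, by norm_num, h⟩
  · rintro ⟨k, hk, h⟩
    interval_cases k <;> simp [h]

theorem Ap (a b : ℕ) (ha : a < 492) (h : A a b = true) :
    b < 492 ∧ A b a = true ∧ (a < 246 ↔ 246 ≤ b) := by
  obtain ⟨k, hk, rfl⟩ := (hA a b).1 h
  exact g3 a ha k hk

theorem inj (i k : ℕ) (hi : i < 492) (hk : k < 492) (h : ∀ j, A i j = true → A k j = true) : i = k := by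
  have a0 := h _ ((hA i _).2 ⟨0, by norm_num, rfl⟩)
  have a1 := h _ ((hA i _).2 ⟨1, by norm_num, rfl⟩)
  obtain ⟨m, hm, e⟩ := (hA _ _).1 (Ap _ _ hk a0).2.1
  have := g4 i hi m hm (by rw [e]; exact (Ap _ _ hk a1).2.1)
  rw [← this, e]

theorem deg (v : ℕ) (hv : v < 492) (F : Finset ℕ) (h : ∀ y, y ∈ F ↔ A v y = true) : F.card = 4 := by
  rw [← g5 v hv]
  congr 1
  ext y
  simp only [h, A, Bool.or_eq_true, beq_iff_eq, Finset.mem_insert, Finset.mem_singleton, or_assoc,
    @eq_comm _ y]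

theorem t2 : ∀ r < 3, ∀ v < 492, ok3 (mk (par r 0) r 50 (par r 0 v)) (mk (par r 1) r 50 (par r 1 v))
    (mk (par r 2) r 50 (par r 2 v)) = true := by
  intro r hr
  interval_cases r
  · exact t20
  · exact t21
  · exact t22

theorem u1 (x : ℕ) (hx : x < 492) (y : ℕ) (_ : y < 492) (h : A x y = true) :
    gad x = gad y ∨ y = mate x := by
  obtain ⟨k, hk, rfl⟩ := (hA x y).1 h
  exact u0 x hx k hk

def St (B : Set ℕ) (a b : ℕ) : Prop := a < 492 ∧ b < 492 ∧ a ∉ B ∧ b ∉ B ∧ A a b = true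

theorem reach (B : Set ℕ) (p : ℕ → ℕ) (r : ℕ) (hr : r ∉ B)
    (hp : ∀ v < 492, v ≠ r → p v < 492 ∧ A v (p v) = true) : ∀ f v, v < 492 →
    (mk p r f v).testBit 492 = false → (∀ u < 492, (mk p r f v).testBit u = true → u ∉ B) →
    v ∉ B ∧ Relation.ReflTransGen (St B) v r := by
  intro f
  induction f with
  | zero => intro v _ h; rw [mk, Nat.testBit_two_pow_self] at h; cases h
  | succ f ih =>
    intro v hv h1 h2
    by_cases e : v = r
    · subst e; exact ⟨hr, Relation.ReflTransGen.refl⟩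
    · simp only [mk, e, if_false, Nat.testBit_or, Bool.or_eq_false_iff, Bool.or_eq_true] at h1 h2
      have hB := h2 v hv (Or.inl Nat.testBit_two_pow_self)
      obtain ⟨a, b⟩ := ih (p v) (hp v hv e).1 h1.2 (fun u hu h => h2 u hu (Or.inr h))
      exact ⟨hB, Relation.ReflTransGen.head ⟨hv, (hp v hv e).1, hB, a, (hp v hv e).2⟩ b⟩

theorem dis (a b u v : ℕ) (h : a &&& b = 0) (h1 : a.testBit u = true) (h2 : b.testBit v = true) :
    u ≠ v := by
  rintro rfl
  have := congrArg (fun x => x.testBit u) h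
  simp [Nat.testBit_and, h1, h2] at this

theorem conn (B : Set ℕ) (hB : ∀ a < 492, ∀ b < 492, ∀ c < 492, a ∈ B → b ∈ B → c ∈ B →
    a = b ∨ a = c ∨ b = c) : ∃ r < 492, r ∉ B ∧ ∀ v < 492, v ∉ B → Relation.ReflTransGen (St B) v r := by
  obtain ⟨r, hr, hrB⟩ : ∃ r < 3, r ∉ B := by
    by_contra hc
    push Not at hc
    have := hB 0 (by norm_num) 1 (by norm_num) 2 (by norm_num) (hc 0 (by norm_num))
      (hc 1 (by norm_num)) (hc 2 (by norm_num))
    omega
  refine ⟨r, by omega, hrB, fun v hv hvB => ?_⟩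
  by_cases e : v = r
  · subst e; exact Relation.ReflTransGen.refl
  have h := t2 r hr v hv
  simp only [ok3, Bool.and_eq_true, beq_iff_eq, Bool.not_eq_true', Nat.testBit_or,
    Bool.or_eq_false_iff] at h
  obtain ⟨⟨⟨d1, d2⟩, d3⟩, ⟨n1, n2⟩, n3⟩ := h
  have fin : ∀ t < 3, (mk (par r t) r 50 (par r t v)).testBit 492 = false →
      (∀ u < 492, (mk (par r t) r 50 (par r t v)).testBit u = true → u ∉ B) →
      Relation.ReflTransGen (St B) v r := by
    intro t ht a b
    obtain ⟨c, d⟩ := t1 r hr t ht v hv e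
    obtain ⟨x, y⟩ := reach B _ r hrB (t1 r hr t ht) 50 _ c a b
    exact Relation.ReflTransGen.head ⟨hv, c, hvB, x, d⟩ y
  by_contra hc
  have m : ∀ t < 3, (mk (par r t) r 50 (par r t v)).testBit 492 = false →
      ∃ u < 492, (mk (par r t) r 50 (par r t v)).testBit u = true ∧ u ∈ B := by
    intro t ht a
    by_contra h2
    push Not at h2
    exact hc (fin t ht a h2)
  obtain ⟨a, a1, a2, a3⟩ := m 0 (by norm_num) n1
  obtain ⟨b, b1, b2, b3⟩ := m 1 (by norm_num) n2
  obtain ⟨c, c1, c2, c3⟩ := m 2 (by norm_num) n3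
  rcases hB a a1 b b1 c c1 a3 b3 c3 with h | h | h
  · exact dis _ _ _ _ d1 a2 b2 h
  · exact dis _ _ _ _ d2 a2 c2 h
  · exact dis _ _ _ _ d3 b2 c2 h

theorem nonham (R : ℕ → ℕ → Prop) (hs : ∀ x y, R x y → R y x)
    (hA : ∀ x y, R x y → x < 492 ∧ y < 492 ∧ A x y = true)
    (hd : ∀ x < 492, {y | R x y}.ncard = 2)
    (hc : ∀ f : ℕ → Bool, (∀ x y, R x y → f x = f y) → ∀ x < 492, ∀ y < 492, f x = f y) : False := by
  classical
  obtain ⟨ρ, hρ⟩ : ∃ ρ : ℕ → ℕ → ℤ, ρ = fun x y => if R x y then 1 else 0 := ⟨_, rfl⟩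
  have sy : ∀ x y, ρ x y = ρ y x := by
    intro x y; rw [hρ]; exact if_congr ⟨hs x y, hs y x⟩ rfl rfl
  have bd : ∀ x y, 0 ≤ ρ x y ∧ ρ x y ≤ 1 := by
    intro x y; rw [hρ]; dsimp only; split_ifs <;> norm_num
  have z0 : ∀ x y, ¬ R x y → ρ x y = 0 := by intro x y h; rw [hρ]; exact if_neg h
  have z1 : ∀ x y, R x y → ρ x y = 1 := by intro x y h; rw [hρ]; exact if_pos h
  have mm : ∀ x, ρ x (mate x) = ρ (min x (mate x)) (max x (mate x)) := by
    intro x
    rcases le_total x (mate x) with h | h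
    · rw [min_eq_left h, max_eq_right h]
    · rw [min_eq_right h, max_eq_left h, sy]
  have dg : ∀ x < 492, ∑ y ∈ Finset.range 492, ρ x y = 2 := by
    intro x hx
    have e : {y | R x y} = ↑((Finset.range 492).filter (R x)) := by
      ext y; simp only [Set.mem_setOf_eq, Finset.coe_filter, Finset.mem_range]
      exact ⟨fun h => ⟨(hA x y h).2.1, h⟩, fun h => h.2⟩
    have := hd x hx
    rw [e, Set.ncard_coe_finset] at this
    rw [hρ]
    simp only [Finset.sum_boole, this]; rfl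
  have key : ∀ g < 12, ((D g).map (fun x => ρ (min x (mate x)) (max x (mate x)))).sum = 2 := by
    intro g hg
    obtain ⟨nd, hD, hw⟩ := u3 g hg
    let F := (Finset.range 492).filter (fun x => gad x = g)
    have e1 : ∑ x ∈ F, w x = if g < 6 then -1 else 1 := by rw [← hw]; exact sumF 492 _ _
    have e2 : ∀ x ∈ F, ∑ y ∈ Finset.range 492, ρ x y = ∑ y ∈ F, ρ x y + ρ x (mate x) := by
      intro x hx
      simp only [F, Finset.mem_filter, Finset.mem_range] at hx
      rw [← Finset.sum_filter_add_sum_filter_not (Finset.range 492) (fun y => gad y = g)]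
      refine congrArg (fun z => ∑ y ∈ F, ρ x y + z) ?_
      apply Finset.sum_eq_single
      · intro y hy hne
        simp only [Finset.mem_filter, Finset.mem_range] at hy
        apply z0; intro h
        rcases u1 x hx.1 y hy.1 (hA x y h).2.2 with h | h
        · exact hy.2 (h ▸ hx.2)
        · exact hne h
      · intro h
        apply z0; intro h2
        rcases u2 x hx.1 with h3 | h3
        · have := (hA _ _ h2).2.1; omega
        · apply h
          simp only [Finset.mem_filter, Finset.mem_range]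
          exact ⟨h3.2.2.1, fun e => h3.1 (hx.2.trans e.symm)⟩
    have e3 : ∑ x ∈ F, ∑ y ∈ F, w x * ρ x y = 0 := by
      have : ∑ x ∈ F, ∑ y ∈ F, w x * ρ x y = -∑ x ∈ F, ∑ y ∈ F, w x * ρ x y := by
        conv_rhs => rw [Finset.sum_comm]
        rw [← Finset.sum_neg_distrib]
        refine Finset.sum_congr rfl fun x _ => ?_
        rw [← Finset.sum_neg_distrib]
        refine Finset.sum_congr rfl fun y _ => ?_
        by_cases h : R x y
        · have h1 := (hA x y h).2.2
          rw [z1 _ _ h, z1 _ _ (hs _ _ h)]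
          have h2 := (Ap x y (hA x y h).1 h1).2.2
          unfold w
          split_ifs <;> simp <;> omega
        · rw [z0 _ _ h, sy, z0 _ _ h]; simp
      linarith
    have e4 : ∑ x ∈ F, w x * 2 = ∑ x ∈ F, w x * ρ x (mate x) := by
      rw [← zero_add (∑ x ∈ F, w x * ρ x (mate x)), ← e3, ← Finset.sum_add_distrib]
      refine Finset.sum_congr rfl fun x hx => ?_
      rw [← Finset.mul_sum, ← mul_add, ← e2 x hx, dg x (Finset.mem_range.1 (Finset.mem_filter.1 hx).1)]
    have e5 : ∑ x ∈ F, w x * ρ x (mate x) = ∑ x ∈ (D g).toFinset, w x * ρ x (mate x) := by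
      symm
      apply Finset.sum_subset
      · intro x hx
        rw [List.mem_toFinset] at hx
        simp only [F, Finset.mem_filter, Finset.mem_range]
        exact ⟨(hD x hx).1, (hD x hx).2.1⟩
      · intro x hx hn
        simp only [F, Finset.mem_filter, Finset.mem_range] at hx
        rcases u2 x hx.1 with h3 | h3
        · rw [z0 _ _ (fun h2 => by have := (hA _ _ h2).2.1; omega), mul_zero]
        · exact absurd (List.mem_toFinset.2 (hx.2 ▸ h3.2.1)) hn
    have e6 : ∑ x ∈ (D g).toFinset, w x * ρ x (mate x) = (if g < 6 then -1 else 1) *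
        ((D g).map (fun x => ρ (min x (mate x)) (max x (mate x)))).sum := by
      rw [← List.sum_toFinset _ nd, Finset.mul_sum]
      refine Finset.sum_congr rfl fun x hx => ?_
      rw [(hD x (List.mem_toFinset.1 hx)).2.2, mm]
    rw [← Finset.sum_mul, e1, e5, e6] at e4
    split_ifs at e4 <;> linarith
  have cut : ∀ U : ℕ, ((AL.filter (fun x => U.testBit (gad x) != U.testBit (gad (mate x)))).map
      (fun x => ρ (min x (mate x)) (max x (mate x)))).sum = 0 → ∀ a b, a < 492 → b < 492 →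
      U.testBit (gad a) ≠ U.testBit (gad b) → False := by
    intro U h a b ha hb hab
    refine hab (hc (fun x => U.testBit (gad x)) ?_ a ha b hb)
    have h1 : ∀ x ∈ AL, R x (mate x) → U.testBit (gad x) = U.testBit (gad (mate x)) := by
      intro x hx hR
      by_contra hne
      have := List.single_le_sum (l := (AL.filter (fun x => U.testBit (gad x) !=
        U.testBit (gad (mate x)))).map (fun x => ρ (min x (mate x)) (max x (mate x))))
        (by intro z hz; obtain ⟨y, -, rfl⟩ := List.mem_map.1 hz; exact (bd _ _).1) _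
        (List.mem_map.2 ⟨x, List.mem_filter.2 ⟨hx, by simpa using hne⟩, rfl⟩)
      rw [h, ← mm, z1 _ _ hR] at this
      omega
    intro x y hR
    obtain ⟨hx, hy, hxy⟩ := hA x y hR
    rcases u1 x hx y hy hxy with e | e
    · simp only [e]
    · subst e
      rcases u2 x hx with h3 | ⟨-, -, -, h4, h5 | h5⟩
      · omega
      · exact h1 x h5 hR
      · have := h1 _ h5 (by rw [h4]; exact hs _ _ hR)
        rw [h4] at this
        exact this.symm
  have q0 : ρ 4 370 + (ρ 13 440 + (ρ 16 454 + (ρ 19 461 + 0))) = 2 := key 0 (by norm_num)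
  have q1 : ρ 25 377 + (ρ 34 391 + (ρ 37 475 + (ρ 40 482 + 0))) = 2 := key 1 (by norm_num)
  have q2 : ρ 46 398 + (ρ 55 412 + (ρ 58 464 + (ρ 61 467 + 0))) = 2 := key 2 (by norm_num)
  have q3 : ρ 67 419 + (ρ 76 433 + (ρ 79 485 + (ρ 82 488 + 0))) = 2 := key 3 (by norm_num)
  have q4 : ρ 88 380 + (ρ 97 383 + (ρ 100 422 + (ρ 103 425 + 0))) = 2 := key 4 (by norm_num)
  have q5 : ρ 109 401 + (ρ 118 404 + (ρ 121 443 + (ρ 124 446 + 0))) = 2 := key 5 (by norm_num)
  have q6 : ρ 4 370 + (ρ 25 377 + (ρ 88 380 + (ρ 97 383 + 0))) = 2 := key 6 (by norm_num)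
  have q7 : ρ 34 391 + (ρ 46 398 + (ρ 109 401 + (ρ 118 404 + 0))) = 2 := key 7 (by norm_num)
  have q8 : ρ 55 412 + (ρ 67 419 + (ρ 100 422 + (ρ 103 425 + 0))) = 2 := key 8 (by norm_num)
  have q9 : ρ 76 433 + (ρ 13 440 + (ρ 121 443 + (ρ 124 446 + 0))) = 2 := key 9 (by norm_num)
  have q10 : ρ 16 454 + (ρ 19 461 + (ρ 58 464 + (ρ 61 467 + 0))) = 2 := key 10 (by norm_num)
  have q11 : ρ 37 475 + (ρ 40 482 + (ρ 79 485 + (ρ 82 488 + 0))) = 2 := key 11 (by norm_num)
  have b0 := bd 4 370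
  have b1 := bd 25 377
  have b2 := bd 34 391
  have b3 := bd 46 398
  have b4 := bd 55 412
  have b5 := bd 67 419
  have b6 := bd 76 433
  have b7 := bd 13 440
  have b8 := bd 16 454
  have b9 := bd 19 461
  have b10 := bd 58 464
  have b11 := bd 61 467
  have b12 := bd 37 475
  have b13 := bd 40 482
  have b14 := bd 79 485
  have b15 := bd 82 488
  have b16 := bd 88 380
  have b17 := bd 97 383
  have b18 := bd 100 422
  have b19 := bd 103 425
  have b20 := bd 109 401
  have b21 := bd 118 404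
  have b22 := bd 121 443
  have b23 := bd 124 446
  have cs : ρ 4 370 + (ρ 13 440 + (ρ 58 464 + (ρ 61 467 + 0))) = 0 ∨ ρ 46 398 + (ρ 55 412 + (ρ 16 454 + (ρ 19 461 + 0))) = 0 ∨ ρ 25 377 + (ρ 34 391 + (ρ 79 485 + (ρ 82 488 + 0))) = 0 ∨ ρ 67 419 + (ρ 76 433 + (ρ 37 475 + (ρ 40 482 + 0))) = 0 ∨ ρ 4 370 + (ρ 25 377 + (ρ 100 422 + (ρ 103 425 + 0))) = 0 ∨ ρ 55 412 + (ρ 67 419 + (ρ 88 380 + (ρ 97 383 + 0))) = 0 ∨ ρ 34 391 + (ρ 46 398 + (ρ 121 443 + (ρ 124 446 + 0))) = 0 ∨ ρ 76 433 + (ρ 13 440 + (ρ 109 401 + (ρ 118 404 + 0))) = 0 ∨ ρ 25 377 + (ρ 46 398 + (ρ 67 419 + (ρ 13 440 + 0))) = 0 ∨ ρ 4 370 + (ρ 34 391 + (ρ 55 412 + (ρ 76 433 + 0))) = 0 := by omega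
  rcases cs with h | h | h | h | h | h | h | h | h | h
  · exact cut 1025 h 0 21 (by norm_num) (by norm_num) (by decide)
  · exact cut 1028 h 42 0 (by norm_num) (by norm_num) (by decide)
  · exact cut 2050 h 21 0 (by norm_num) (by norm_num) (by decide)
  · exact cut 2056 h 63 0 (by norm_num) (by norm_num) (by decide)
  · exact cut 80 h 84 0 (by norm_num) (by norm_num) (by decide)
  · exact cut 272 h 84 0 (by norm_num) (by norm_num) (by decide)
  · exact cut 160 h 105 0 (by norm_num) (by norm_num) (by decide)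
  · exact cut 544 h 105 0 (by norm_num) (by norm_num) (by decide)
  · exact cut 1365 h 0 21 (by norm_num) (by norm_num) (by decide)
  · exact cut 2394 h 21 0 (by norm_num) (by norm_num) (by decide)

end Pool.Agent.H1.H4
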