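import Mathlib

namespace Pool.Agent.H1.LU

open Matrix

/-- Labels of the single-qubit Pauli matrices. -/
inductive Pauli | I | X | Y | Z
  deriving DecidableEq

/-- The Pauli matrices. -/
def Pauli.mat : Pauli → Matrix (Fin 2) (Fin 2) ℂ
  | .I => !![1, 0; 0, 1]
  | .X => !![0, 1; 1, 0]
  | .Y => !![0, -Complex.I; Complex.I, 0]
  | .Z => !![1, 0; 0, -1]

/-- The tensor product `A 0 ⊗ ⋯ ⊗ A (n-1)` on `(ℂ²)^{⊗ n}`, in the computational basis. -/
def kron {n : ℕ} (A : Fin n → Matrix (Fin 2) (Fin 2) ℂ) :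
    Matrix (Fin n → Fin 2) (Fin n → Fin 2) ℂ :=
  Matrix.of fun x y => ∏ i, A i (x i) (y i)

/-- The codespace of the stabilizer group generated by three Pauli strings. -/
def code {n : ℕ} (g : Fin 3 → Fin n → Pauli) : Set ((Fin n → Fin 2) → ℂ) :=
  {ψ | ∀ k, kron (fun i => (g k i).mat) *ᵥ ψ = ψ}

/-- Local-unitary equivalence (with qubit permutations). -/
def LUEquiv {n : ℕ} (Q Q' : Set ((Fin n → Fin 2) → ℂ)) : Prop :=
  ∃ (U : Fin n → Matrix.unitaryGroup (Fin 2) ℂ) (π : Equiv.Perm (Fin n)),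
    (fun ψ => kron (fun i => (U i).1) *ᵥ fun x => ψ (x ∘ π)) '' Q = Q'

variable {n : ℕ}

def pair (w : Fin n → Fin 2 → ℂ) (ψ : (Fin n → Fin 2) → ℂ) : ℂ := ∑ x, (∏ i, w i (x i)) * ψ x

theorem pair_kron (w : Fin n → Fin 2 → ℂ) (A : Fin n → Matrix (Fin 2) (Fin 2) ℂ)
    (ψ : (Fin n → Fin 2) → ℂ) : pair w (kron A *ᵥ ψ) = pair (fun i => w i ᵥ* A i) ψ := by
  unfold pair
  simp only [Matrix.mulVec, dotProduct, kron, Matrix.of_apply, Finset.mul_sum, Matrix.vecMul]
  rw [Finset.sum_comm]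
  refine Finset.sum_congr rfl fun y _ => ?_
  rw [Finset.prod_univ_sum, Fintype.piFinset_univ, Finset.sum_mul]
  refine Finset.sum_congr rfl fun x _ => ?_
  rw [Finset.prod_mul_distrib, mul_assoc]

theorem kron_mul (A B : Fin n → Matrix (Fin 2) (Fin 2) ℂ) :
    kron A * kron B = kron fun i => A i * B i := by
  ext x y
  simp only [kron, Matrix.mul_apply, Matrix.of_apply]
  rw [Finset.prod_univ_sum, Fintype.piFinset_univ]
  exact Finset.sum_congr rfl fun z _ => Finset.prod_mul_distrib.symm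

theorem kron_smul (c : Fin n → ℂ) (A : Fin n → Matrix (Fin 2) (Fin 2) ℂ) :
    kron (fun i => c i • A i) = (∏ i, c i) • kron A := by
  ext x y
  simp [kron, Finset.prod_mul_distrib]

theorem kron_one : kron (fun _ : Fin n => (1 : Matrix (Fin 2) (Fin 2) ℂ)) = 1 := by
  ext x y
  simp only [kron, Matrix.of_apply, Matrix.one_apply]
  rw [Finset.prod_ite_zero]
  simp [funext_iff]

def Ann (Q : Set ((Fin n → Fin 2) → ℂ)) (p q : Fin n) : Prop :=
  ∃ v : Fin n → Fin 2 → ℂ, (∀ i, v i ≠ 0) ∧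
    ∀ w : Fin n → Fin 2 → ℂ, (∀ i, i ≠ p → i ≠ q → w i = v i) → ∀ ψ ∈ Q, pair w ψ = 0

theorem transfer {Q Q' : Set ((Fin n → Fin 2) → ℂ)} (h : LUEquiv Q Q') :
    ∃ π : Equiv.Perm (Fin n), ∀ p q, Ann Q p q → Ann Q' (π p) (π q) := by
  obtain ⟨U, π, h⟩ := h
  refine ⟨π, ?_⟩
  rintro p q ⟨v, hv, H⟩
  have hU : ∀ i (z : Fin 2 → ℂ), (z ᵥ* star (U i).1) ᵥ* (U i).1 = z := fun i z => by
    rw [Matrix.vecMul_vecMul, (U i).2.1, Matrix.vecMul_one]
  refine ⟨fun i => v (π.symm i) ᵥ* star (U i).1, fun i h0 => hv (π.symm i) ?_, ?_⟩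
  · dsimp only at h0
    rw [← hU i (v _), h0, Matrix.zero_vecMul]
  · intro w hw φ hφ
    rw [← h] at hφ
    obtain ⟨ψ, hψ, rfl⟩ := hφ
    rw [pair_kron, ← H (fun j => w (π j) ᵥ* (U (π j)).1) (fun j h1 h2 => by
      rw [hw (π j) (π.injective.ne h1) (π.injective.ne h2), hU, Equiv.symm_apply_apply]) ψ hψ]
    unfold pair
    refine Fintype.sum_equiv (Equiv.arrowCongr π.symm (Equiv.refl _)) _ _ fun x => ?_
    congr 1
    exact (Fintype.prod_equiv π _ _ fun j => by simp).symm

theorem eig (a : Pauli) : ∃ v : Fin 2 → ℂ, v ≠ 0 ∧ v ᵥ* a.mat = v := by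
  cases a
  · exact ⟨![1, 0], by simp, by ext i; fin_cases i <;> simp [Pauli.mat, vecMul, dotProduct]⟩
  · exact ⟨![1, 1], by simp, by ext i; fin_cases i <;> simp [Pauli.mat, vecMul, dotProduct]⟩
  · exact ⟨![Complex.I, 1], by simp, by
      ext i; fin_cases i <;> simp [Pauli.mat, vecMul, dotProduct]⟩
  · exact ⟨![1, 0], by simp, by ext i; fin_cases i <;> simp [Pauli.mat, vecMul, dotProduct]⟩

theorem mat_I : Pauli.I.mat = 1 := by
  ext i j; fin_cases i <;> fin_cases j <;> simp [Pauli.mat]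

theorem pos (g : Fin 3 → Fin n → Pauli) (k : Fin 3) (p q i0 : Fin n) (hp : g k p = .I)
    (hq : g k q = .I) (h0 : g k i0 = .X) : Ann (code g) p q := by
  classical
  choose v hv hv' using eig
  refine ⟨fun i => if i = i0 then ![1, -1] else v (g k i), fun i => ?_, fun w hw ψ hψ => ?_⟩
  · dsimp only
    split_ifs
    · simp
    · exact hv _
  have h1 : pair w ψ = pair (fun i => w i ᵥ* (g k i).mat) ψ := by
    rw [← pair_kron, hψ k]
  have h2 : ∀ i, w i ᵥ* (g k i).mat = (if i = i0 then (-1 : ℂ) else 1) • w i := by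
    intro i
    by_cases e : i = i0
    · subst e
      rw [hw i (fun e => by rw [e, hp] at h0; cases h0) (fun e => by rw [e, hq] at h0; cases h0),
        h0]
      ext a
      fin_cases a <;> simp [Pauli.mat, vecMul, dotProduct]
    · rw [if_neg e, one_smul]
      by_cases e1 : i = p
      · rw [e1, hp, mat_I, Matrix.vecMul_one]
      by_cases e2 : i = q
      · rw [e2, hq, mat_I, Matrix.vecMul_one]
      rw [hw i e1 e2]
      dsimp only
      rw [if_neg e, hv']
  have h3 : pair (fun i => w i ᵥ* (g k i).mat) ψ = - pair w ψ := by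
    unfold pair
    rw [← Finset.sum_neg_distrib]
    refine Finset.sum_congr rfl fun x _ => ?_
    simp only [h2, Pi.smul_apply, smul_eq_mul, Finset.prod_mul_distrib, Finset.prod_ite_eq',
      Finset.mem_univ, if_true]
    ring
  linear_combination (h1 + h3) / 2

def sg (a b : Pauli) : ℤ := if a = .I ∨ b = .I ∨ a = b then 1 else -1

theorem mat_comm (a b : Pauli) : a.mat * b.mat = (sg a b : ℂ) • (b.mat * a.mat) := by
  cases a <;> cases b <;> ext i j <;> fin_cases i <;> fin_cases j <;>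
    simp [Pauli.mat, sg, Matrix.mul_apply]

theorem mat_sq (a : Pauli) : a.mat * a.mat = 1 := by
  cases a <;> ext i j <;> fin_cases i <;> fin_cases j <;> simp [Pauli.mat, Matrix.mul_apply]

/-- The product of the three labels is not the identity label. -/
def nz (a b c : Pauli) : Prop :=
  ¬ ((a = .I ∧ b = c) ∨ (b = .I ∧ a = c) ∨ (c = .I ∧ a = b) ∨
    (a ≠ .I ∧ b ≠ .I ∧ c ≠ .I ∧ a ≠ b ∧ a ≠ c ∧ b ≠ c))

instance (a b c : Pauli) : Decidable (nz a b c) := by unfold nz; infer_instance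

theorem tr3 (a b c : Pauli) (h : nz a b c) : (a.mat * b.mat * c.mat).trace = 0 := by
  cases a <;> cases b <;> cases c <;>
    first
    | exact absurd h (by decide)
    | simp [Pauli.mat, Matrix.trace, Matrix.mul_apply]

def sel (e : Bool) (a : Pauli) : Pauli := if e then a else .I

theorem neg (g : Fin 3 → Fin n → Pauli) (hc : ∀ k l, ∏ i, sg (g k i) (g l i) = 1) (p q : Fin n)
    (h : ∀ a b c : Bool, (a || b || c) = true →
      nz (sel a (g 0 p)) (sel b (g 1 p)) (sel c (g 2 p)) ∨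
      nz (sel a (g 0 q)) (sel b (g 1 q)) (sel c (g 2 q))) : ¬ Ann (code g) p q := by
  classical
  rintro ⟨v, hv, H⟩
  set G : Fin 3 → Matrix (Fin n → Fin 2) (Fin n → Fin 2) ℂ :=
    fun k => kron fun i => (g k i).mat with hG
  have hsq : ∀ k, G k * G k = 1 := fun k => by
    simp only [hG, kron_mul, mat_sq, kron_one]
  have hcm : ∀ k l, G k * G l = G l * G k := fun k l => by
    simp only [hG, kron_mul]
    rw [show (fun i => (g k i).mat * (g l i).mat) = fun i => (sg (g k i) (g l i) : ℂ) •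
      ((g l i).mat * (g k i).mat) from funext fun i => mat_comm _ _, kron_smul,
      ← Int.cast_prod, hc, Int.cast_one, one_smul]
  have hfix : ∀ k, G k * (1 + G k) = 1 + G k := fun k => by
    rw [mul_add, mul_one, hsq, add_comm]
  have hc2 : ∀ k l, G k * (1 + G l) = (1 + G l) * G k := fun k l => by
    rw [mul_add, add_mul, mul_one, one_mul, hcm]
  let P := (1 + G 0) * (1 + G 1) * (1 + G 2)
  have hP : ∀ k, G k * P = P := by
    intro k
    fin_cases k
    · show G 0 * P = P
      simp only [P, ← mul_assoc, hfix]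
    · show G 1 * P = P
      simp only [P, ← mul_assoc]
      rw [hc2 1 0, mul_assoc (1 + G 0) (G 1), hfix]
    · show G 2 * P = P
      simp only [P, ← mul_assoc]
      rw [hc2 2 0, mul_assoc (1 + G 0) (G 2), hc2 2 1, ← mul_assoc, mul_assoc _ (G 2), hfix]
  let S : Bool → Bool → Bool → Fin n → Matrix (Fin 2) (Fin 2) ℂ := fun a b c i =>
    (sel a (g 0 i)).mat * (sel b (g 1 i)).mat * (sel c (g 2 i)).mat
  have h1 : ∀ k, 1 + G k = ∑ a : Bool, kron fun i => (sel a (g k i)).mat := fun k => by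
    simp [sel, mat_I, kron_one, hG, add_comm]
  have hPS : P = ∑ a, ∑ b, ∑ c, kron (S a b c) := by
    simp only [P, h1]
    simp only [Fintype.sum_bool, add_mul, mul_add, kron_mul, S]
    abel
  have hx : ∀ i, ∃ a, v i a ≠ 0 := fun i => Function.ne_iff.1 (hv i)
  choose x hx using hx
  let w : (Fin n → Fin 2) → Fin n → Fin 2 → ℂ := fun e i =>
    if i = p ∨ i = q then Pi.single (e i) 1 else v i
  let y : (Fin n → Fin 2) → Fin n → Fin 2 := fun e i => if i = p ∨ i = q then e i else x i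
  have hpair : ∀ (u : Fin n → Fin 2 → ℂ) (z : Fin n → Fin 2),
      pair u (Pi.single z 1) = ∏ i, u i (z i) := fun u z => by
    simp [pair, Pi.single_apply]
  have h2 : ∀ e, pair (w e) (P *ᵥ Pi.single (y e) 1) = 0 := fun e =>
    H _ (fun i h1 h2 => by simp [w, h1, h2]) _ fun k => by
      show G k *ᵥ _ = _
      rw [Matrix.mulVec_mulVec, hP]
  have h3 : ∀ A : Fin n → Matrix (Fin 2) (Fin 2) ℂ,
      ∑ e, pair (w e) (kron A *ᵥ Pi.single (y e) 1) =
        ∏ i, ∑ a : Fin 2, if i = p ∨ i = q then A i a a else (v i ᵥ* A i) (x i) := fun A => by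
    rw [Finset.prod_univ_sum, Fintype.piFinset_univ]
    refine Finset.sum_congr rfl fun e _ => ?_
    rw [pair_kron, hpair]
    refine Finset.prod_congr rfl fun i _ => ?_
    simp only [w, y]
    split_ifs
    · simp
    · rfl
  have h4 : ∀ a b c : Bool, (a || b || c) = true →
      ∑ e, pair (w e) (kron (S a b c) *ᵥ Pi.single (y e) 1) = 0 := fun a b c habc => by
    rw [h3]
    rcases h a b c habc with h5 | h5
    · refine Finset.prod_eq_zero (Finset.mem_univ p) ?_
      simpa [Matrix.trace] using tr3 _ _ _ h5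
    · refine Finset.prod_eq_zero (Finset.mem_univ q) ?_
      simpa [Matrix.trace] using tr3 _ _ _ h5
  have hadd : ∀ u (a b : (Fin n → Fin 2) → ℂ), pair u (a + b) = pair u a + pair u b :=
    fun u a b => by simp [pair, mul_add, Finset.sum_add_distrib]
  have h5 : ∑ e, pair (w e) (P *ᵥ Pi.single (y e) 1) = 0 := Finset.sum_eq_zero fun e _ => h2 e
  simp only [hPS, Fintype.sum_bool, Matrix.add_mulVec, hadd, Finset.sum_add_distrib] at h5
  rw [h4 true true true rfl, h4 true true false rfl, h4 true false true rfl,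
    h4 true false false rfl, h4 false true true rfl, h4 false true false rfl,
    h4 false false true rfl, h3] at h5
  simp only [zero_add, add_zero] at h5
  obtain ⟨i, -, hi⟩ := Finset.prod_eq_zero_iff.1 h5
  have := hx i
  simp only [S, sel, mat_I, Bool.false_eq_true, if_false, mul_one, Matrix.one_apply_eq,
    Matrix.vecMul_one] at hi
  split_ifs at hi <;> simp_all

end Pool.Agent.H1.LU
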