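import Mathlib

open MeasureTheory Set Metric Complex Filter Topology
open scoped Real ComplexConjugate

namespace Pool.Agent.H1.Morera
noncomputable section

def M0 (v : ℂ → ℂ) (z : ℂ) (r : ℝ) : ℂ := ∫ θ in (0 : ℝ)..2 * π, v (circleMap z r θ)
def M1 (v : ℂ → ℂ) (z : ℂ) (r : ℝ) : ℂ :=
  ∫ θ in (0 : ℝ)..2 * π, exp (θ * I) * v (circleMap z r θ)

theorem circle_eq (v : ℂ → ℂ) (z : ℂ) (r : ℝ) : (∮ w in C(z, r), v w) = r * I * M1 v z r := by
  unfold M1 circleIntegral
  rw [← intervalIntegral.integral_const_mul]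
  refine intervalIntegral.integral_congr fun θ _ => ?_
  simp only [deriv_circleMap, smul_eq_mul, circleMap]
  ring

theorem k1 {z ζ : ℂ} {r : ℝ} (hr : 0 < r) (h : ζ ∉ sphere z r) :
    M1 (fun w => (w - ζ)⁻¹) z r = (ball z r).indicator (fun _ => (2 * π / r : ℂ)) ζ := by
  have h0 : (r : ℂ) * I ≠ 0 := mul_ne_zero (by exact_mod_cast hr.ne') I_ne_zero
  have hr' : (r : ℂ) ≠ 0 := by exact_mod_cast hr.ne'
  apply mul_left_cancel₀ h0
  rw [← circle_eq]
  by_cases hb : ζ ∈ ball z r
  · rw [circleIntegral.integral_sub_inv_of_mem_ball hb, indicator_of_mem hb]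
    field_simp
  · rw [indicator_of_notMem hb, mul_zero]
    have h1 : ∀ w ∈ closedBall z r, w - ζ ≠ 0 := fun w hw hw' => by
      rw [sub_eq_zero] at hw'
      subst hw'
      rcases (mem_closedBall.1 hw).lt_or_eq with h2 | h2
      · exact hb h2
      · exact h h2
    refine DiffContOnCl.circleIntegral_eq_zero hr.le (DifferentiableOn.diffContOnCl ?_)
    rw [closure_ball _ hr.ne']
    exact (differentiableOn_id.sub_const ζ).inv h1

theorem k0 {z ζ : ℂ} {r : ℝ} (hr : 0 < r) (h : ζ ∉ sphere z r) (hz : ζ ≠ z) :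
    M0 (fun w => (w - ζ)⁻¹) z r =
      2 * π * (z - ζ)⁻¹ - (ball z r).indicator (fun ζ => (2 * π * (z - ζ)⁻¹ : ℂ)) ζ := by
  have hr' : (r : ℂ) ≠ 0 := by exact_mod_cast hr.ne'
  have h1 : ∀ θ, circleMap z r θ - ζ ≠ 0 := fun θ h' => by
    rw [sub_eq_zero] at h'
    exact h (h' ▸ circleMap_mem_sphere z hr.le θ)
  have hc : Continuous fun θ : ℝ => (circleMap z r θ - ζ)⁻¹ :=
    ((continuous_circleMap z r).sub continuous_const).inv₀ h1
  have key : (z - ζ) * M0 (fun w => (w - ζ)⁻¹) z r + r * M1 (fun w => (w - ζ)⁻¹) z r = 2 * π := by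
    unfold M0 M1
    rw [← intervalIntegral.integral_const_mul, ← intervalIntegral.integral_const_mul,
      ← intervalIntegral.integral_add (Continuous.intervalIntegrable (by fun_prop) _ _)
        (Continuous.intervalIntegrable (by fun_prop) _ _),
      intervalIntegral.integral_congr (g := fun _ => 1)]
    · simp
    · intro θ _
      have := h1 θ
      simp only
      field_simp
      simp only [circleMap]; ring
  rw [k1 hr h] at key
  have hz' : z - ζ ≠ 0 := sub_ne_zero.2 hz.symm
  apply mul_left_cancel₀ hz'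
  by_cases hb : ζ ∈ ball z r
  · rw [indicator_of_mem hb] at key ⊢
    rw [sub_self, mul_zero]
    have : (r : ℂ) * (2 * π / r) = 2 * π := by field_simp
    linear_combination key - this
  · rw [indicator_of_notMem hb] at key ⊢
    rw [mul_zero, add_zero] at key
    rw [key]; field_simp; ring

theorem conv {𝕜 : Type} [RCLike 𝕜] {K h : ℂ → 𝕜} (hK : LocallyIntegrable K) (hc : Continuous h)
    (hs : HasCompactSupport h) :
    (∀ x, Integrable fun ζ => K (x - ζ) * h ζ) ∧ Continuous fun x => ∫ ζ, K (x - ζ) * h ζ := by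
  constructor
  · intro x
    exact (hs.convolutionExists_right (ContinuousLinearMap.mul ℝ 𝕜) hK hc x).integrable_swap
  · have := hs.continuous_convolution_right (ContinuousLinearMap.mul ℝ 𝕜) hK hc
    refine this.congr fun x => ?_
    rw [convolution_eq_swap]; rfl

theorem inv_loc : LocallyIntegrable (fun t : ℂ => t⁻¹) :=
  locallyIntegrable_of_norm_le_rpow (C := 1) (α := 1) (by simp) (by simp)
    (Eventually.of_forall fun x => by simp [Real.rpow_neg_one])
    measurable_inv.aestronglyMeasurable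

theorem inv_loc' : LocallyIntegrable (fun t : ℂ => ‖t⁻¹‖) :=
  locallyIntegrable_of_norm_le_rpow (C := 1) (α := 1) (by simp) (by simp)
    (Eventually.of_forall fun x => by simp [Real.rpow_neg_one])
    measurable_inv.norm.aestronglyMeasurable

def T (h : ℂ → ℂ) (x : ℂ) : ℂ := ∫ ζ, (x - ζ)⁻¹ * h ζ

variable {h : ℂ → ℂ}

theorem T_cont (hc : Continuous h) (hs : HasCompactSupport h) : Continuous (T h) :=
  (conv inv_loc hc hs).2

theorem fubini (hc : Continuous h) (hs : HasCompactSupport h) {ψ : ℝ → ℂ} (hψ : Continuous ψ)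
    (z : ℂ) (r : ℝ) :
    ∫ θ in (0 : ℝ)..2 * π, ψ θ * T h (circleMap z r θ) =
      ∫ ζ, (∫ θ in (0 : ℝ)..2 * π, ψ θ * (circleMap z r θ - ζ)⁻¹) * h ζ := by
  unfold T
  simp_rw [← integral_const_mul, ← intervalIntegral.integral_mul_const, mul_assoc]
  apply intervalIntegral_integral_swap
  have hm : Measurable (Function.uncurry fun (θ : ℝ) (ζ : ℂ) =>
      ψ θ * ((circleMap z r θ - ζ)⁻¹ * h ζ)) := by
    have := hψ.measurable; have := hc.measurable; have := (continuous_circleMap z r).measurable
    unfold Function.uncurry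
    fun_prop
  rw [integrable_prod_iff hm.aestronglyMeasurable]
  constructor
  · exact Eventually.of_forall fun θ => ((conv inv_loc hc hs).1 (circleMap z r θ)).const_mul (ψ θ)
  · have h1 := (conv inv_loc' hc.norm hs.norm).2
    have h2 : Continuous fun θ : ℝ => ‖ψ θ‖ * ∫ ζ, ‖(circleMap z r θ - ζ)⁻¹‖ * ‖h ζ‖ :=
      hψ.norm.mul (h1.comp (continuous_circleMap z r))
    refine (h2.continuousOn.integrableOn_compact isCompact_uIcc |>.mono_set
      uIoc_subset_uIcc).congr (Eventually.of_forall fun θ => ?_)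
    simp only [Function.uncurry, norm_mul, integral_const_mul]

theorem ae_sphere (z : ℂ) (r : ℝ) : ∀ᵐ ζ : ℂ, ζ ∉ sphere z r :=
  measure_eq_zero_iff_ae_notMem.1 (Measure.addHaar_sphere volume z r)

theorem M1_T (hc : Continuous h) (hs : HasCompactSupport h) (z : ℂ) {r : ℝ} (hr : 0 < r) :
    M1 (T h) z r = 2 * π / r * ∫ ζ in ball z r, h ζ := by
  unfold M1
  rw [fubini hc hs (by fun_prop), ← integral_const_mul, ← integral_indicator measurableSet_ball]
  refine integral_congr_ae ?_
  filter_upwards [ae_sphere z r] with ζ hζ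
  have := k1 hr hζ
  unfold M1 at this
  rw [this]
  by_cases hb : ζ ∈ ball z r <;> simp [hb]

theorem M0_T (hc : Continuous h) (hs : HasCompactSupport h) (z : ℂ) {r : ℝ} (hr : 0 < r) :
    M0 (T h) z r = 2 * π * T h z - 2 * π * ∫ ζ in ball z r, (z - ζ)⁻¹ * h ζ := by
  have h1 := fubini hc hs (ψ := fun _ => 1) continuous_const z r
  simp only [one_mul] at h1
  have hi := (conv inv_loc hc hs).1 z
  unfold M0
  rw [h1, ← mul_sub, ← integral_indicator measurableSet_ball, T,
    ← integral_sub hi (hi.indicator measurableSet_ball), ← integral_const_mul]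
  refine integral_congr_ae ?_
  filter_upwards [ae_sphere z r, Measure.ae_ne volume z] with ζ hζ hz
  have := k0 hr hζ hz
  unfold M0 at this
  rw [this]
  by_cases hb : ζ ∈ ball z r <;> simp [hb, mul_assoc]

theorem polar {g : ℂ → ℂ} (hc : Continuous g) (z : ℂ) (r : ℝ) :
    ∫ ζ in ball z r, (z - ζ)⁻¹ * conj (g ζ) = - ∫ s in Ioo 0 r, conj (M1 g z s) := by
  rw [← integral_indicator measurableSet_ball, ← integral_add_left_eq_self _ z,
    ← Complex.integral_comp_polarCoord_symm]
  have hF : Continuous fun p : ℝ × ℝ => -conj (exp (p.2 * I) * g (circleMap z p.1 p.2)) := by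
    unfold circleMap; fun_prop
  have e1 : ∫ p in polarCoord.target, p.1 • (ball z r).indicator
      (fun ζ => (z - ζ)⁻¹ * conj (g ζ)) (z + Complex.polarCoord.symm p) =
      ∫ p in Ioo 0 r ×ˢ Ioo (-π) π, -conj (exp (p.2 * I) * g (circleMap z p.1 p.2)) := by
    have hm : MeasurableSet (Ioo (0 : ℝ) r ×ˢ Ioo (-π) π) := measurableSet_Ioo.prod measurableSet_Ioo
    rw [← integral_indicator hm, ← integral_indicator polarCoord.open_target.measurableSet]
    refine integral_congr_ae (Eventually.of_forall fun p => ?_)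
    simp only [polarCoord_target]
    by_cases h1 : p ∈ Ioi (0 : ℝ) ×ˢ Ioo (-π) π
    · have hp : (0 : ℝ) < p.1 := h1.1
      have e2 : Complex.polarCoord.symm p = p.1 * exp (p.2 * I) := by
        rw [Complex.polarCoord_symm_apply, exp_mul_I]; simp
      have e3 : z + p.1 * exp (p.2 * I) ∈ ball z r ↔ p.1 < r := by
        simp [mem_ball, abs_of_pos hp]
      rw [indicator_of_mem h1, e2]
      by_cases h2 : p.1 < r
      · rw [indicator_of_mem (e3.2 h2), indicator_of_mem
          (show p ∈ Ioo (0 : ℝ) r ×ˢ Ioo (-π) π from ⟨⟨hp, h2⟩, h1.2⟩)]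
        have h3 : (p.1 : ℂ) ≠ 0 := by exact_mod_cast hp.ne'
        have h4 : conj (exp (p.2 * I)) = (exp (p.2 * I))⁻¹ := by
          rw [← exp_conj, ← exp_neg]; simp
        have h5 := exp_ne_zero (p.2 * I)
        simp only [circleMap, map_mul, h4, real_smul, sub_add_cancel_left]
        field_simp
      · rw [indicator_of_notMem (fun h => h2 (e3.1 h)), indicator_of_notMem (fun h => h2 h.1.2),
          smul_zero]
    · rw [indicator_of_notMem h1, indicator_of_notMem (fun h => h1 ⟨h.1.1, h.2⟩)]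
  rw [e1, Measure.volume_eq_prod, setIntegral_prod, ← integral_neg]
  · refine setIntegral_congr_fun measurableSet_Ioo fun s _ => ?_
    simp only
    rw [integral_neg, integral_conj, ← integral_Ioc_eq_integral_Ioo,
      ← intervalIntegral.integral_of_le (by linarith [Real.pi_pos])]
    have hp : Function.Periodic (fun θ : ℝ => exp (θ * I) * g (circleMap z s θ)) (2 * π) := by
      intro θ
      simp only [periodic_circleMap z s θ]
      push_cast
      rw [add_mul, exp_add, exp_two_pi_mul_I, mul_one]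
    have := hp.intervalIntegral_add_eq (-π) 0
    rw [show -π + 2 * π = π by ring, zero_add] at this
    rw [this]; rfl
  · exact (hF.continuousOn.integrableOn_compact (isCompact_Icc.prod isCompact_Icc)).mono_set
      (prod_mono Ioo_subset_Icc_self Ioo_subset_Icc_self)

end
end Pool.Agent.H1.Morera
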