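import Mathlib
import Pool.Agent.H1.Morera

open MeasureTheory Set Metric Complex Filter Topology
open scoped Real ComplexConjugate

namespace Pool.Agent.H1.Morera
noncomputable section

def Sm (v : ℂ → ℂ) (z : ℂ) : Prop :=
  ∀ ε > 0, ∃ ρ > 0, ∀ r : ℝ, 0 < r → r < ρ → ‖M0 v z r - 2 * π * v z‖ ≤ ε * r ^ 2

theorem sm_T {g : ℂ → ℂ} (hc : Continuous g) (hs : HasCompactSupport g) (z : ℂ)
    (h : ∀ ε > 0, ∃ ρ > 0, ∀ r : ℝ, 0 < r → r < ρ → ‖M1 g z r‖ ≤ ε * r) :
    Sm (T fun w => conj (g w)) z := by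
  intro ε hε
  have hpi := Real.pi_pos
  obtain ⟨ρ, hρ, h1⟩ := h (ε / (2 * π)) (by positivity)
  refine ⟨ρ, hρ, fun r hr hr' => ?_⟩
  rw [M0_T (h := fun w => conj (g w)) (by fun_prop) (hs.comp_left (g := fun x => conj x) (by simp)) z hr, polar hc]
  have h2 := norm_setIntegral_le_of_norm_le_const (μ := volume) (s := Ioo 0 r)
    (f := fun s => conj (M1 g z s)) (C := ε / (2 * π) * r) (by simp) fun s hs => by
      rw [norm_conj]
      exact (h1 s hs.1 (hs.2.trans hr')).trans
        (mul_le_mul_of_nonneg_left hs.2.le (by positivity))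
  rw [Real.volume_real_Ioo_of_le hr.le] at h2
  rw [sub_sub_cancel_left, mul_neg, neg_neg, norm_mul]
  have e : ‖(2 * π : ℂ)‖ = 2 * π := by simp [abs_of_pos hpi]
  rw [e]
  calc 2 * π * _ ≤ 2 * π * (ε / (2 * π) * r * (r - 0)) := by gcongr
    _ = ε * r ^ 2 := by field_simp; ring

theorem int_sq (z c : ℂ) (r : ℝ) : ∫ θ in (0 : ℝ)..2 * π, ‖circleMap z r θ - c‖ ^ 2 =
    2 * π * (‖z - c‖ ^ 2 + r ^ 2) := by
  have e : ∀ θ : ℝ, ‖circleMap z r θ - c‖ ^ 2 = (‖z - c‖ ^ 2 + r ^ 2) +
      (2 * r * (z - c).re * Real.cos θ + 2 * r * (z - c).im * Real.sin θ) := by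
    intro θ
    simp only [Complex.sq_norm, normSq_apply, circleMap, sub_re, add_re, sub_im, add_im,
      re_ofReal_mul, im_ofReal_mul, exp_ofReal_mul_I_re, exp_ofReal_mul_I_im]
    linear_combination r ^ 2 * Real.sin_sq_add_cos_sq θ
  simp_rw [e]
  rw [intervalIntegral.integral_add (by simp) (Continuous.intervalIntegrable (by fun_prop) _ _),
    intervalIntegral.integral_add (Continuous.intervalIntegrable (by fun_prop) _ _)
      (Continuous.intervalIntegrable (by fun_prop) _ _)]
  simp [mul_add]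

theorem maxp {v : ℂ → ℂ} (hv : Continuous v) {c : ℂ} {R ε : ℝ} (hε : 0 ≤ ε)
    (hs : ∀ z ∈ ball c R, Sm v z) (hb : ∀ z ∈ sphere c R, ‖v z‖ ≤ ε) :
    ∀ w ∈ closedBall c R, ‖v w‖ ≤ ε := by
  intro w hw
  have hpi := Real.pi_pos
  set l := conj (v w) with hl
  have key : ∀ δ > 0, ‖v w‖ ^ 2 ≤ ‖v w‖ * ε + δ * R ^ 2 := by
    intro δ hδ
    have hq : Continuous fun x => (l * v x).re + δ * ‖x - c‖ ^ 2 := by fun_prop
    obtain ⟨z, hz, hmax⟩ := (isCompact_closedBall c R).exists_isMaxOn ⟨w, hw⟩ hq.continuousOn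
    rcases (mem_closedBall.1 hz).lt_or_eq with h | h
    · exfalso
      obtain ⟨ρ, hρ, h1⟩ := hs z h (δ / (‖l‖ + 1)) (by positivity)
      obtain ⟨r, hr, hr'⟩ := exists_between (lt_min hρ (sub_pos.2 h))
      have h2 := h1 r hr (hr'.trans_le (min_le_left _ _))
      have h3 : ∫ θ in (0 : ℝ)..2 * π, ((l * v (circleMap z r θ)).re +
          δ * ‖circleMap z r θ - c‖ ^ 2) ≤
          ∫ θ in (0 : ℝ)..2 * π, ((l * v z).re + δ * ‖z - c‖ ^ 2) := by
        refine intervalIntegral.integral_mono (by positivity)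
          ((hq.comp (continuous_circleMap z r)).intervalIntegrable _ _) (by simp) fun θ => ?_
        refine hmax (mem_closedBall.2 ?_)
        have h4 := mem_sphere.1 (circleMap_mem_sphere z hr.le θ)
        have := dist_triangle (circleMap z r θ) z c
        linarith [hr'.trans_le (min_le_right _ _)]
      have hcm := continuous_circleMap z r
      rw [intervalIntegral.integral_add (Continuous.intervalIntegrable (by fun_prop) _ _)
        (Continuous.intervalIntegrable (by fun_prop) _ _), intervalIntegral.integral_const_mul,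
        int_sq] at h3
      have h4 : ∫ θ in (0 : ℝ)..2 * π, (l * v (circleMap z r θ)).re = (l * M0 v z r).re := by
        unfold M0
        rw [← intervalIntegral.integral_const_mul]
        exact reCLM.intervalIntegral_comp_comm (f := fun θ => l * v (circleMap z r θ))
          (Continuous.intervalIntegrable (by fun_prop) _ _)
      rw [h4] at h3
      simp only [intervalIntegral.integral_const, sub_zero, smul_eq_mul] at h3
      have h5 : (l * (M0 v z r - 2 * π * v z)).re = (l * M0 v z r).re - 2 * π * (l * v z).re := by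
        rw [mul_sub, sub_re, mul_left_comm, show (2 * π : ℂ) = ((2 * π : ℝ) : ℂ) by simp,
          re_ofReal_mul]
      have h6 := (abs_le.1 (abs_re_le_norm (l * (M0 v z r - 2 * π * v z)))).1
      rw [h5, norm_mul] at h6
      have h7 : ‖l‖ * ‖M0 v z r - 2 * π * v z‖ ≤ δ * r ^ 2 := by
        calc _ ≤ (‖l‖ + 1) * (δ / (‖l‖ + 1) * r ^ 2) := by gcongr; linarith
          _ = _ := by field_simp
      have h8 : 0 < δ * r ^ 2 := by positivity
      nlinarith [Real.pi_gt_three]
    · have h1 : (l * v w).re + δ * ‖w - c‖ ^ 2 ≤ (l * v z).re + δ * ‖z - c‖ ^ 2 := hmax hw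
      have h2 : (l * v w).re = ‖v w‖ ^ 2 := by
        rw [hl, conj_mul', ← ofReal_pow, ofReal_re]
      have h3 : (l * v z).re ≤ ‖v w‖ * ε := by
        refine (re_le_norm _).trans ?_
        rw [norm_mul, hl, norm_conj]
        exact mul_le_mul_of_nonneg_left (hb z h) (norm_nonneg _)
      rw [dist_eq_norm] at h
      rw [h] at h1
      have : 0 ≤ δ * ‖w - c‖ ^ 2 := by positivity
      linarith
  have k2 : ‖v w‖ ^ 2 ≤ ‖v w‖ * ε := by
    refine le_of_forall_pos_le_add fun η hη => ?_
    have := key (η / (R ^ 2 + 1)) (by positivity)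
    have h2 : η / (R ^ 2 + 1) * R ^ 2 ≤ η := by
      rw [div_mul_eq_mul_div, div_le_iff₀ (by positivity)]; nlinarith
    linarith
  by_contra hlt
  push Not at hlt
  nlinarith

structure Good (p : ℂ → ℂ) : Prop where
  cont : Continuous p
  mean : ∀ z r, M0 p z r = 2 * π * p z
  hol : ∀ r > 0, Differentiable ℂ fun z => conj (M1 p z r)

theorem M0_add {p q : ℂ → ℂ} (hp : Continuous p) (hq : Continuous q) (a : ℂ) (z : ℂ) (r : ℝ) :
    M0 (fun w => p w + a * q w) z r = M0 p z r + a * M0 q z r := by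
  have := continuous_circleMap z r
  unfold M0
  rw [intervalIntegral.integral_add (Continuous.intervalIntegrable (by fun_prop) _ _)
    (Continuous.intervalIntegrable (by fun_prop) _ _), intervalIntegral.integral_const_mul]

theorem M1_add {p q : ℂ → ℂ} (hp : Continuous p) (hq : Continuous q) (a : ℂ) (z : ℂ) (r : ℝ) :
    M1 (fun w => p w + a * q w) z r = M1 p z r + a * M1 q z r := by
  have := continuous_circleMap z r
  unfold M1
  rw [← intervalIntegral.integral_const_mul, ← intervalIntegral.integral_add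
    (Continuous.intervalIntegrable (by fun_prop) _ _)
    (Continuous.intervalIntegrable (by fun_prop) _ _)]
  exact intervalIntegral.integral_congr fun θ _ => by simp only; ring

theorem Good.add {p q : ℂ → ℂ} (hp : Good p) (hq : Good q) (a : ℂ) :
    Good fun w => p w + a * q w where
  cont := hp.cont.add (continuous_const.mul hq.cont)
  mean := fun z r => by rw [M0_add hp.cont hq.cont, hp.mean, hq.mean]; ring
  hol := fun r hr => by
    simp_rw [M1_add hp.cont hq.cont, map_add, map_mul]
    exact (hp.hol r hr).add ((hq.hol r hr).const_mul _)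

theorem M0_hol {G : ℂ → ℂ} (hG : Differentiable ℂ G) (z : ℂ) (r : ℝ) :
    M0 G z r = 2 * π * G z := by
  have := (hG.diffContOnCl (s := ball z |r|)).circleAverage
  rw [← this, Real.circleAverage_def, real_smul]
  have : (π : ℂ) ≠ 0 := by exact_mod_cast Real.pi_ne_zero
  unfold M0
  push_cast
  field_simp

theorem good_hol {G : ℂ → ℂ} (hG : Differentiable ℂ G) : Good G where
  cont := hG.continuous
  mean := M0_hol hG
  hol := fun r hr => by
    have : ∀ z, M1 G z r = 0 := fun z => by
      have h0 : (r : ℂ) * I ≠ 0 := mul_ne_zero (by exact_mod_cast hr.ne') I_ne_zero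
      have := (hG.diffContOnCl (s := ball z r)).circleIntegral_eq_zero hr.le
      rw [circle_eq] at this
      exact (mul_eq_zero.1 this).resolve_left h0
    simp [this]

theorem good_conj {G : ℂ → ℂ} (hG : Differentiable ℂ G) : Good fun w => conj (G w) where
  cont := continuous_conj.comp hG.continuous
  mean := fun z r => by
    have : M0 (fun w => conj (G w)) z r = conj (M0 G z r) :=
      intervalIntegral.intervalIntegral_conj
    rw [this, M0_hol hG]; simp [map_ofNat]
  hol := fun r hr => by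
    have hr' : (r : ℂ) ≠ 0 := by exact_mod_cast hr.ne'
    have hpi : (π : ℂ) ≠ 0 := by exact_mod_cast Real.pi_ne_zero
    have : ∀ z, conj (M1 (fun w => conj (G w)) z r) = 2 * π * r * deriv G z := fun z => by
      rw [← two_pi_I_inv_smul_circleIntegral_sub_sq_inv_smul_of_differentiable isOpen_univ
        (subset_univ (closedBall z r)) hG.differentiableOn (mem_ball_self hr), circle_eq]
      unfold M1
      rw [← intervalIntegral.intervalIntegral_conj, smul_eq_mul, ← mul_assoc, ← mul_assoc,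
        ← intervalIntegral.integral_const_mul]
      refine intervalIntegral.integral_congr fun θ _ => ?_
      have h4 : conj (exp (θ * I)) = (exp (θ * I))⁻¹ := by
        rw [← exp_conj, ← exp_neg]; simp
      have h5 := exp_ne_zero (θ * I)
      simp only [map_mul, h4, conj_conj, circleMap_sub_center, smul_eq_mul, circleMap_zero]
      field_simp
    simp_rw [this]
    exact (differentiableOn_univ.1 (hG.differentiableOn.deriv isOpen_univ)).const_mul _

theorem dense {v : ℂ → ℂ} (hv : Continuous v) (c : ℂ) {R ε : ℝ} (hR : 0 < R) (hε : 0 < ε) :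
    ∃ p, Good p ∧ ∀ z ∈ sphere c R, ‖v z - p z‖ ≤ ε := by
  haveI : Fact (0 < 2 * π) := ⟨Real.two_pi_pos⟩
  have hR' : (R : ℂ) ≠ 0 := by exact_mod_cast hR.ne'
  let e : AddCircle (2 * π) → ℂ := fun x => c + R * (AddCircle.toCircle x : ℂ)
  have he : Continuous e := by
    have : Continuous fun x : AddCircle (2 * π) => (AddCircle.toCircle x : ℂ) :=
      continuous_subtype_val.comp AddCircle.continuous_toCircle
    fun_prop
  let Φ : C(AddCircle (2 * π), ℂ) := ⟨fun x => v (e x), hv.comp he⟩
  have h1 : Φ ∈ closure (Submodule.span ℂ (range <| @fourier (2 * π)) : Set _) := by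
    rw [← Submodule.topologicalClosure_coe, span_fourier_closure_eq_top]; trivial
  obtain ⟨φ, hφ, hd⟩ := Metric.mem_closure_iff.1 h1 ε hε
  have h2 : ∃ p, Good p ∧ ∀ x, p (e x) = φ x := by
    clear hd
    induction hφ using Submodule.span_induction with
    | mem φ h =>
      obtain ⟨n, rfl⟩ := h
      have h3 : ∀ x, (e x - c) / R = AddCircle.toCircle x := fun x => by
        simp only [e]; field_simp; ring
      obtain ⟨m, rfl | rfl⟩ := n.eq_nat_or_neg
      · refine ⟨fun w => ((w - c) / R) ^ m, good_hol (by fun_prop), fun x => ?_⟩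
        simp only [h3, fourier_apply, AddCircle.toCircle_zsmul]; simp
      · refine ⟨fun w => conj (((w - c) / R) ^ m), good_conj (by fun_prop), fun x => ?_⟩
        simp only [h3, fourier_apply, AddCircle.toCircle_zsmul, map_pow, ← Circle.coe_inv_eq_conj]
        simp
    | zero => exact ⟨fun _ => 0, good_hol (by fun_prop), fun _ => rfl⟩
    | add φ ψ _ _ h1 h2 =>
      obtain ⟨p, hp, hp'⟩ := h1
      obtain ⟨q, hq, hq'⟩ := h2
      exact ⟨_, hp.add hq 1, fun x => by simp [hp', hq']⟩
    | smul a φ _ h1 =>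
      obtain ⟨p, hp, hp'⟩ := h1
      exact ⟨_, (good_hol (G := fun _ => 0) (by fun_prop)).add hp a, fun x => by simp [hp']⟩
  obtain ⟨p, hp, hp'⟩ := h2
  refine ⟨p, hp, fun z hz => ?_⟩
  rw [← abs_of_pos hR, ← range_circleMap] at hz
  obtain ⟨θ, rfl⟩ := hz
  have h3 : circleMap c R θ = e θ := by
    simp only [e, AddCircle.toCircle_apply_mk, div_self Real.two_pi_pos.ne', one_mul,
      Circle.coe_exp, circleMap]
  rw [h3, hp', ← dist_eq_norm]
  exact (ContinuousMap.dist_apply_le_dist (f := Φ) (g := φ) _).trans hd.le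

theorem unif {U : Set ℂ} (hU : IsOpen U) {F : ℂ → ℂ}
    (h : ∀ ε > 0, ∃ P, DifferentiableOn ℂ P U ∧ ∀ z ∈ U, ‖F z - P z‖ ≤ ε) :
    DifferentiableOn ℂ F U := by
  choose P hP hP' using fun n : ℕ => h (1 / ((n : ℝ) + 1)) Nat.one_div_pos_of_nat
  refine TendstoLocallyUniformlyOn.differentiableOn (F := P) (φ := atTop)
    (TendstoUniformlyOn.tendstoLocallyUniformlyOn ?_) (Eventually.of_forall hP) hU
  rw [Metric.tendstoUniformlyOn_iff]
  intro ε hε
  filter_upwards [tendsto_one_div_add_atTop_nhds_zero_nat.eventually_lt_const hε] with n hn z hz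
  rw [dist_eq_norm]
  exact (hP' n z hz).trans_lt hn

theorem main {g : ℂ → ℂ} (hc : Continuous g) (hs : HasCompactSupport g) {c : ℂ} {R : ℝ}
    (hR : 0 < R) (h : ∀ z ∈ ball c R,
      ∀ ε > 0, ∃ ρ > 0, ∀ r : ℝ, 0 < r → r < ρ → ‖M1 g z r‖ ≤ ε * r) :
    DifferentiableOn ℂ g (ball c (R / 2)) := by
  have hpi := Real.pi_pos
  have hc' : Continuous fun w => conj (g w) := by fun_prop
  have hs' : HasCompactSupport fun w => conj (g w) := hs.comp_left (g := fun x => conj x) (by simp)
  have hv := T_cont hc' hs'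
  set v := T fun w => conj (g w) with hvd
  refine unif isOpen_ball fun ε hε => ?_
  obtain ⟨δ, hδ, hu⟩ := Metric.uniformContinuous_iff.1
    (hs.uniformContinuous_of_continuous hc) (ε / 2) (by positivity)
  obtain ⟨r, hr, hr'⟩ := exists_between (lt_min hδ (half_pos hR))
  obtain ⟨p, hp, hp'⟩ := dense hv c hR (ε := ε / 2 * π * r) (by positivity)
  have hm := maxp (v := fun w => v w + (-1) * p w) (hv.add (continuous_const.mul hp.cont))
    (c := c) (R := R) (ε := ε / 2 * π * r) (by positivity) (fun z hz => by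
      intro η hη
      obtain ⟨ρ, hρ, h1⟩ := sm_T hc hs z (h z hz) η hη
      refine ⟨ρ, hρ, fun s h2 h3 => ?_⟩
      rw [M0_add hv hp.cont, hp.mean]
      convert h1 s h2 h3 using 2
      ring) fun z hz => by simpa [← sub_eq_add_neg] using hp' z hz
  have hr0 : (r : ℂ) ≠ 0 := by exact_mod_cast hr.ne'
  have hpi0 : (π : ℂ) ≠ 0 := by exact_mod_cast hpi.ne'
  refine ⟨fun z => (2 * π ^ 2 * r : ℂ)⁻¹ * conj (M1 p z r),
    ((hp.hol r hr).const_mul _).differentiableOn, fun z hz => ?_⟩
  have h1 : ‖M1 v z r + (-1) * M1 p z r‖ ≤ ε / 2 * π * r * (2 * π) := by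
    rw [← M1_add hv hp.cont]
    have := intervalIntegral.norm_integral_le_of_norm_le_const (a := 0) (b := 2 * π)
      (C := ε / 2 * π * r)
      (f := fun θ : ℝ => exp (θ * I) * (v (circleMap z r θ) + (-1) * p (circleMap z r θ)))
      fun θ _ => by
        rw [norm_mul, norm_exp_ofReal_mul_I, one_mul]
        refine hm _ (mem_closedBall.2 ?_)
        have h4 := mem_sphere.1 (circleMap_mem_sphere z hr.le θ)
        have := dist_triangle (circleMap z r θ) z c
        linarith [hr'.trans_le (min_le_right _ _), mem_ball.1 hz]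
    rwa [sub_zero, abs_of_pos Real.two_pi_pos] at this
  have hvol : volume.real (ball z r) = r ^ 2 * π := by
    simp [Measure.real, Complex.volume_ball, ENNReal.toReal_ofReal hr.le]
  have h2 : ‖(∫ ζ in ball z r, g ζ) - r ^ 2 * π * g z‖ ≤ ε / 2 * (r ^ 2 * π) := by
    have := norm_setIntegral_le_of_norm_le_const (μ := volume) (s := ball z r)
      (f := fun ζ => g ζ - g z) (C := ε / 2) measure_ball_lt_top fun ζ hζ => by
        rw [← dist_eq_norm]
        exact (hu ((mem_ball.1 hζ).trans (hr'.trans_le (min_le_left _ _)))).le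
    rw [integral_sub (hc.integrable_of_hasCompactSupport hs).integrableOn
      (integrableOn_const measure_ball_lt_top.ne), setIntegral_const, hvol, real_smul] at this
    simpa using this
  have h3 : conj (M1 v z r) = 2 * π / r * ∫ ζ in ball z r, g ζ := by
    rw [hvd, M1_T hc' hs' z hr, integral_conj]; simp [map_ofNat]
  have e : g z - (2 * π ^ 2 * r : ℂ)⁻¹ * conj (M1 p z r) =
      (2 * π ^ 2 * r : ℂ)⁻¹ * conj (M1 v z r + (-1) * M1 p z r) -
      (r ^ 2 * π : ℂ)⁻¹ * ((∫ ζ in ball z r, g ζ) - r ^ 2 * π * g z) := by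
    rw [map_add, h3]
    simp only [map_mul, map_neg, map_one]
    field_simp; ring
  rw [e]
  refine (norm_sub_le _ _).trans ?_
  rw [norm_mul, norm_mul, norm_conj, norm_inv, norm_inv]
  have e1 : ‖(2 * π ^ 2 * r : ℂ)‖ = 2 * π ^ 2 * r := by simp [abs_of_pos hr]
  have e2 : ‖(r ^ 2 * π : ℂ)‖ = r ^ 2 * π := by simp [abs_of_pos hpi]
  rw [e1, e2]
  calc _ ≤ (2 * π ^ 2 * r)⁻¹ * (ε / 2 * π * r * (2 * π)) +
        (r ^ 2 * π)⁻¹ * (ε / 2 * (r ^ 2 * π)) := by gcongr
    _ = ε := by field_simp; ring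

end
end Pool.Agent.H1.Morera
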