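import Mathlib

namespace Pool.Agent.H1.NL

open Polynomial

def EX : ℕ := 51684805056290280824820618972846893190865038227829119146706718585977121690066050665932924770242057531044541698448644031752849114945420295608377177804622924126622912042995392808693011360198306887118131800321481693888169484158830401289391169948375106771445813377539976410185456749159405975812049160918733591168985232820316509852890342600271178206451449587357644375070060281777522175315556592747656271251911586986297491218855898630253696023884405826240716433936882965682304268203008117594098341275011223898716613541596659659227485894103040683908369594346602893526854185568674272758725407747930436043992975936177061599086320453103307328442794834972187939266641345883333632903267573030740208223999297068122472776504190744139769691121016166583104753106943662403484645997679811241412637259942623021895498859735290059216944753634490291322608711713661017991574275447731404959190707432817657178726993805317543448893578120621267548791487940148734337962867853734964763237627965487377226415265386544870740483354392011594604841723566883280184150295445642150768707139015241617231979781842542224978412005036815203121540581102453360842343954234646873984248861187614102499346193492731492425560175499920422850028662874313651470857030760901220234059669787480841018411057925817191109448246870444875097324098441722874457731438767769676695708484486169310839487625155375480083986540535292981478344528816505857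
def LG : ℕ := 12566627499484730857162856963942095004053682436885788651150832978277661229950026800571360244739952059859409292874726049215402721533979710884097988416730947064032535577173645867908462499832765223067731124673620862412981905990637184131540792136747399831148293449218014801249803813511921775260935006617654518846307607398962288397458862889051468227663871727611217921766522973469709986798226424413319643090565297745987966170232450909003892843444100431942743286963129612696047544210517141623908924469403133001074249132265942792144104678994186120066925974037713100983681484799258774261656438168954102439109186000107782891589236128794785453454707102171002720696038635173980626434363953835293291059693311557657240842538008400909412759884571889848085247512533633429694056770380253797085951046743929127769561315908827701674380937540855738246014868861866171239549212996863111227748269689437324838916327353705705335476770360036398509906395282033622777707685662743522840593685297474917182840349762890616924510227174547940489473289862790615457467389632409032092934579506067348703338635251514299803207193907871671555306764102336917695460731365495551183293881000623491580122127288721855197194825243415015264448733506621107577874471486481332464044258308697450201738494255651523908883782779295090803902141850212368358370549956300849854224142258792527618205639853696743866951306706513780173002511223772938240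
def UU : ℕ := 17622865268884691010870822681539127721707713575378534905455496532602514542427817703210000313182918332930568668034966239486338496581688782099755795224986300922365295732546676545214244882274861180266500549781077936964106405659852451485467792428041471573190994402715557678561585532788273320116613266346804020956
def SS : ℕ := 1911290883808948535899226622619013134635961211993034729917955568994116587917827612587487984696475521946654917451229323830831259437276128512017288712875241134014783418381800381450852935648079932610222318461616082620727498947108419749629743196589503817927039490045675659216236337761236620779981113809292356053571869334201727299251047846807790500427622600795923041535542751155551804856852993906713060985823509897970051219230626013953115747673973713214945913948874621579741806482834678990307202755711996454196605096595620885553359637380263940466879175084857355918993252039578494652627320680068734303813891593675733840897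
def POS : ℕ := 2942641387530227586471193997431454101340549716126022669019194918721665661621944591108541166703207448093302143874979877888055894421157624262582098075880438585810027613139800779868534916932241494394374511959944549022794448924878061602696157865533452080400795606719347513604541033918713912239017401361672107352098398726183626860903934637034674660218021988199498626819378215323338955264956266625760002151884111881417756563624453073324540014571101425215995017470690503041188315215040499312222470414713344017120288530291694470348606371464657953390457582027405741246694272822381789988772222803142872942156010947753359943104602586509241277687402470671168893482480543993925524514393501512788471055749194828147191424584334552166984696971504553657423830242442102899361797417177305638018505613130683837351554422891440382278171062190208576572848707841174007521283958150118274611735029325799783396150456955555743451167680328937420471934924150495541444562731136870900535135594334798549558957857013779501162549839746075232346945266087605790469323444588827358669902267632375804504395810588405242219136304428525028511582960853546164674310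28993371714808529606462035096137394152554640205121785156143269702634683365126981754877002118623290651673601992945080321559660839543177999646000885688038493466961095523528990960378106144444504538069915070570888697496666335732238289896585778670579458012080960280687077371138375883631582677663784664204614457141401855404242555893677742280603230149586453673482241801282764219485347625578385762723749808801645402840817250013181463805656430345955346709442281559939670161068243975066414580413199659458771761185152561198904646225950315443145439025487267941215560461564575550991618902379112728117091968883780259755949845296092637609851730717060684259698503072753723310235134013308231324640261529982021006423798878766954000027577568437818448342338346597450075900490631048930254681576316760301516098074695349349390515935851622369491884131716044369879839501178820348022115766024724692413588024949428941365570282005926676054178739930503162522937745740768069682546248494325806270185190013091501756436072234417108610016794747371377993483518483218879456660272837639362743086824969293527276927116180384470052787487587976797375882057808159413094351788995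97557007236527704562205742712618847734953113051280077946645458874214564317682329425901544029119229706996773480426352686865400050967748389908917436986977698774865770756825017785591441763356133960632763732365075794094689748461678124194607608907927188559926105228880237053055944681446943394912056140714071818103543532342175373717795826988150180197543601605409426559281032792318844065957033188058445082092397498186340547759950458745619464485232696601482497347644171924177072338737461486583116779733817981959259950265210787082222880602247344423677382721858469456859845309236905725353938009041895155476348981067746724784765084298792260948787837296207648645233115997735863999046424975052116554955613717209505447009386310935696900334757334875375673958022143180879920155886455939808497708933226618087461988423901268239689876326651527168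
def AA : ℕ := 1056509228497374818303045924202797328233107813450639019113490543885589599357172104199938705511411882061245495019159415457102004743597638605454540620447257669044441161745787771008266125461646573618229978416590279144276582975466525435917758429651080779288280191298325130666280947945013864777884622601

def bt (N k : ℕ) : ZMod 2 := if N.testBit k then 1 else 0

def exV (k : ℕ) : Fin 9 → ZMod 2 := fun i => bt EX (9 * k + i.val)

def stepV (v : Fin 9 → ZMod 2) : Fin 9 → ZMod 2 :=
  ![v 8, v 0 + v 8, v 1 + v 8, v 2 + v 8, v 3, v 4, v 5, v 6 + v 8, v 7 + v 8]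

def idx (v : Fin 9 → ZMod 2) : ℕ :=
  (v 0).val + 2 * (v 1).val + 4 * (v 2).val + 8 * (v 3).val + 16 * (v 4).val + 32 * (v 5).val
    + 64 * (v 6).val + 128 * (v 7).val + 256 * (v 8).val

def lg (v : Fin 9 → ZMod 2) : ℕ := (LG >>> (9 * idx v)) % 512

theorem ex_step : ∀ k < 511, exV (k + 1) = stepV (exV k) := by decide +kernel

theorem ex_zero : exV 0 = ![1, 0, 0, 0, 0, 0, 0, 0, 0] := by decide +kernel

theorem ex_last : exV 511 = exV 0 := by decide +kernel

theorem lg_ex : ∀ k < 511, lg (exV k) = k := by decide +kernel

theorem ex_lg' : ∀ a0 a1 a2 a3 a4 a5 a6 a7 a8 : ZMod 2,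
    ![a0, a1, a2, a3, a4, a5, a6, a7, a8] = 0 ∨
      (lg ![a0, a1, a2, a3, a4, a5, a6, a7, a8] < 511 ∧
        exV (lg ![a0, a1, a2, a3, a4, a5, a6, a7, a8]) = ![a0, a1, a2, a3, a4, a5, a6, a7, a8]) := by
  decide +kernel

theorem ex_lg (v : Fin 9 → ZMod 2) : v = 0 ∨ (lg v < 511 ∧ exV (lg v) = v) := by
  have h : v = ![v 0, v 1, v 2, v 3, v 4, v 5, v 6, v 7, v 8] := by
    funext i
    fin_cases i <;> rfl
  have := ex_lg' (v 0) (v 1) (v 2) (v 3) (v 4) (v 5) (v 6) (v 7) (v 8)
  rwa [← h] at this

section
variable {K : Type} [Field K] [Algebra (ZMod 2) K]

def psi (α : K) (v : Fin 9 → ZMod 2) : K := ∑ i, v i • α ^ i.val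

theorem psi_add (α : K) (v w : Fin 9 → ZMod 2) : psi α (v + w) = psi α v + psi α w := by
  simp [psi, add_smul, Finset.sum_add_distrib]

theorem psi_smul (α : K) (a : ZMod 2) (v : Fin 9 → ZMod 2) : psi α (a • v) = a • psi α v := by
  simp [psi, Finset.smul_sum, mul_smul]

theorem psi_zero (α : K) : psi α 0 = 0 := by simp [psi]

theorem psi_step (α : K) (h : α ^ 9 = α ^ 8 + α ^ 7 + α ^ 3 + α ^ 2 + α + 1)
    (v : Fin 9 → ZMod 2) : psi α (stepV v) = α * psi α v := by
  simp only [psi, stepV, Fin.sum_univ_succ, Algebra.smul_def]
  simp
  linear_combination (-(algebraMap (ZMod 2) K (v 8))) * h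

theorem psi_ex (α : K) (h : α ^ 9 = α ^ 8 + α ^ 7 + α ^ 3 + α ^ 2 + α + 1) :
    ∀ k ≤ 511, psi α (exV k) = α ^ k := by
  intro k
  induction k with
  | zero =>
    intro _
    rw [ex_zero]
    simp [psi, Fin.sum_univ_succ]
  | succ k ih =>
    intro hk
    rw [ex_step k (by omega), psi_step α h, ih (by omega), pow_succ']

theorem a_ne (α : K) (h : α ^ 9 = α ^ 8 + α ^ 7 + α ^ 3 + α ^ 2 + α + 1) : α ≠ 0 := by
  rintro rfl
  simp at h

theorem psi_inj (α : K) (h : α ^ 9 = α ^ 8 + α ^ 7 + α ^ 3 + α ^ 2 + α + 1) :
    Function.Injective (psi α) := by
  intro v w e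
  have h1 : psi α (v - w) = 0 := by
    have := psi_add α (v - w) w
    rw [sub_add_cancel, e] at this
    simpa using this
  rcases ex_lg (v - w) with h2 | ⟨h2, h3⟩
  · exact sub_eq_zero.1 h2
  · rw [← h3, psi_ex α h _ h2.le] at h1
    exact absurd h1 (pow_ne_zero _ (a_ne α h))

theorem pow_inj (α : K) (h : α ^ 9 = α ^ 8 + α ^ 7 + α ^ 3 + α ^ 2 + α + 1) {i j : ℕ}
    (hi : i < 511) (hj : j < 511) (e : α ^ i = α ^ j) : i = j := by
  rw [← psi_ex α h i hi.le, ← psi_ex α h j hj.le] at e
  rw [← lg_ex i hi, psi_inj α h e, lg_ex j hj]

theorem pow_last (α : K) (h : α ^ 9 = α ^ 8 + α ^ 7 + α ^ 3 + α ^ 2 + α + 1) : α ^ 511 = 1 := by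
  rw [← psi_ex α h 511 le_rfl, ex_last, psi_ex α h 0 (by omega), pow_zero]

theorem order (α : K) (h : α ^ 9 = α ^ 8 + α ^ 7 + α ^ 3 + α ^ 2 + α + 1) : orderOf α = 511 := by
  rw [orderOf_eq_iff (by norm_num)]
  refine ⟨pow_last α h, fun m h1 h2 e => ?_⟩
  have := pow_inj α h h1 (show 0 < 511 by norm_num) (by rw [e, pow_zero])
  omega

open Classical in
noncomputable def gg (α : K) (x : K) : ZMod 2 :=
  if ∃ k < 511, α ^ k = x ∧ UU.testBit k then 1 else 0

theorem gg_zero (α : K) (h : α ^ 9 = α ^ 8 + α ^ 7 + α ^ 3 + α ^ 2 + α + 1) : gg α 0 = 0 := by
  unfold gg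
  rw [if_neg]
  rintro ⟨k, -, h1, -⟩
  exact pow_ne_zero _ (a_ne α h) h1

theorem gg_pow (α : K) (h : α ^ 9 = α ^ 8 + α ^ 7 + α ^ 3 + α ^ 2 + α + 1) {k : ℕ}
    (hk : k < 511) : gg α (α ^ k) = bt UU k := by
  unfold gg bt
  congr 1
  apply propext
  constructor
  · rintro ⟨j, hj, h1, h2⟩
    rwa [pow_inj α h hj hk h1] at h2
  · exact fun h2 => ⟨k, hk, rfl, h2⟩

theorem UU_per : ∀ k < 511, bt UU (k + 511) = bt UU k := by decide +kernel

theorem gg_pow2 (α : K) (h : α ^ 9 = α ^ 8 + α ^ 7 + α ^ 3 + α ^ 2 + α + 1) {k : ℕ}
    (hk : k < 1022) : gg α (α ^ k) = bt UU k := by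
  by_cases h1 : k < 511
  · exact gg_pow α h h1
  · obtain ⟨j, rfl⟩ : ∃ j, k = j + 511 := ⟨k - 511, by omega⟩
    rw [UU_per j (by omega), pow_add, pow_last α h, mul_one, gg_pow α h (by omega)]

def gV (v : Fin 9 → ZMod 2) : ZMod 2 := if v = 0 then 0 else bt UU (lg v)

theorem gg_psi (α : K) (h : α ^ 9 = α ^ 8 + α ^ 7 + α ^ 3 + α ^ 2 + α + 1)
    (v : Fin 9 → ZMod 2) : gg α (psi α v) = gV v := by
  unfold gV
  split_ifs with h0
  · rw [h0, psi_zero, gg_zero α h]
  · obtain ⟨h1, h2⟩ := (ex_lg v).resolve_left h0
    conv_lhs => rw [← h2]
    rw [psi_ex α h _ h1.le, gg_pow α h h1]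

theorem sum_eq [Fintype K] (α : K) (h : α ^ 9 = α ^ 8 + α ^ 7 + α ^ 3 + α ^ 2 + α + 1)
    (hs : Function.Surjective (psi α)) (f : K → ℤ) :
    ∑ x, f x = f 0 + ∑ k ∈ Finset.range 511, f (α ^ k) := by
  classical
  have : (Finset.univ : Finset K) = insert 0 ((Finset.range 511).image (α ^ ·)) := by
    ext x
    simp only [Finset.mem_univ, Finset.mem_insert, Finset.mem_image, Finset.mem_range, true_iff]
    obtain ⟨v, rfl⟩ := hs x
    rcases ex_lg v with h0 | ⟨h1, h2⟩
    · left
      rw [h0, psi_zero]
    · right
      exact ⟨lg v, h1, by rw [← psi_ex α h _ h1.le, h2]⟩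
  rw [this, Finset.sum_insert, Finset.sum_image]
  · intro i hi j hj e
    exact pow_inj α h (by simpa using hi) (by simpa using hj) e
  · simp only [Finset.mem_image, not_exists, not_and]
    exact fun k _ => pow_ne_zero _ (a_ne α h)

def cnt (W : ℕ) : ℕ → ℕ
  | 0 => 0
  | k + 1 => bif W.testBit k then cnt W k + 1 else cnt W k

theorem sum_cnt (A j : ℕ) (n : ℕ) :
    ∑ k ∈ Finset.range n, (-1 : ℤ) ^ (bt A (j + k) + bt A k).val
      = n - 2 * cnt ((A >>> j) ^^^ A) n := by
  induction n with
  | zero => simp [cnt]
  | succ n ih =>
    rw [Finset.sum_range_succ, ih, cnt, Nat.testBit_xor, Nat.testBit_shiftRight]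
    unfold bt
    have h2 : ((1 : ZMod 2) + 1).val = 0 := rfl
    have h1 : (1 : ZMod 2).val = 1 := rfl
    cases A.testBit (j + n) <;> cases A.testBit n <;> simp [h1, h2] <;> ring

theorem auto : ∀ j < 511, j ≠ 0 → cnt ((UU >>> j) ^^^ UU) 511 = 256 := by decide +kernel

theorem bal : ∑ k ∈ Finset.range 511, (-1 : ℤ) ^ (bt UU k).val = -1 := by decide +kernel

theorem orth [Fintype K] (α : K) (h : α ^ 9 = α ^ 8 + α ^ 7 + α ^ 3 + α ^ 2 + α + 1)
    (hs : Function.Surjective (psi α)) (l : K) (hl : l ≠ 1) :
    ∑ x, (-1 : ℤ) ^ (gg α (l * x) + gg α x).val = 0 := by
  rw [sum_eq α h hs, mul_zero, gg_zero α h]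
  obtain ⟨v, rfl⟩ := hs l
  rcases ex_lg v with h0 | ⟨h1, h2⟩
  · rw [h0, psi_zero]
    simp only [zero_mul, gg_zero α h, zero_add]
    rw [Finset.sum_congr rfl fun k hk => by rw [gg_pow α h (Finset.mem_range.1 hk)], bal]
    simp
  · rw [← h2, psi_ex α h _ h1.le] at hl ⊢
    have h3 : lg v ≠ 0 := fun e => hl (by rw [e, pow_zero])
    rw [Finset.sum_congr rfl fun k hk => by
      rw [← pow_add, gg_pow α h (Finset.mem_range.1 hk),
        gg_pow2 α h (by have := Finset.mem_range.1 hk; omega)], sum_cnt, auto _ h1 h3]
    simp

end

theorem gen {F : Type} [Field F] (p : F[X]) (hp : p.natDegree ≠ 0) :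
    ∃ (K : Type) (_ : Field K) (_ : Algebra F K) (α : K),
      aeval α p = 0 ∧ ∀ x, ∃ f : F[X], aeval α f = x := by
  haveI : Fact (Irreducible p.factor) := ⟨irreducible_factor p⟩
  refine ⟨AdjoinRoot p.factor, inferInstance, inferInstance, AdjoinRoot.root p.factor, ?_, ?_⟩
  · rw [AdjoinRoot.aeval_eq]
    exact AdjoinRoot.mk_eq_zero.2 (factor_dvd_of_natDegree_ne_zero hp)
  · intro x
    obtain ⟨f, rfl⟩ := AdjoinRoot.mk_surjective x
    exact ⟨f, AdjoinRoot.aeval_eq f⟩

theorem exists_field : ∃ (K : Type) (_ : Field K) (_ : Algebra (ZMod 2) K) (α : K),
    α ^ 9 = α ^ 8 + α ^ 7 + α ^ 3 + α ^ 2 + α + 1 ∧ Function.Surjective (psi α) := by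
  let p : (ZMod 2)[X] := X ^ 9 - (X ^ 8 + X ^ 7 + X ^ 3 + X ^ 2 + X + 1)
  have hp : p.natDegree = 9 := by
    unfold p
    compute_degree!
  obtain ⟨K, i1, i2, α, h0, hs⟩ := gen p (by omega)
  have h : α ^ 9 = α ^ 8 + α ^ 7 + α ^ 3 + α ^ 2 + α + 1 := by
    unfold p at h0
    simp only [map_sub, map_add, map_pow, aeval_X, map_one] at h0
    exact sub_eq_zero.1 h0
  refine ⟨K, i1, i2, α, h, ?_⟩
  have hpow : ∀ k, ∃ v, psi α v = α ^ k := by
    intro k
    induction k with
    | zero => exact ⟨exV 0, psi_ex _ h 0 (by omega)⟩
    | succ k ih =>
      obtain ⟨v, hv⟩ := ih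
      exact ⟨stepV v, by rw [psi_step _ h, hv, pow_succ']⟩
  intro x
  obtain ⟨f, rfl⟩ := hs x
  induction f using Polynomial.induction_on' with
  | add f g hf hg =>
    obtain ⟨v, hv⟩ := hf
    obtain ⟨w, hw⟩ := hg
    exact ⟨v + w, by rw [psi_add, hv, hw, map_add]⟩
  | monomial k a =>
    obtain ⟨v, hv⟩ := hpow k
    refine ⟨a • v, ?_⟩
    rw [psi_smul, hv, aeval_monomial, Algebra.smul_def]

/-- the sequence -/
def sq (k : ℕ) : ZMod 2 := bt SS (k % 1023)

theorem sq_per (k : ℕ) : sq (k + 1023) = sq k := by simp [sq]

theorem sq_mod (k j : ℕ) : sq (k % 1023 + j) = sq (k + j) := by simp [sq]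

theorem rec0 : ∀ k < 1023, sq (k + 10) = 0 + sq k + gV fun i => sq (k + (i.val + 1)) := by
  decide +kernel

theorem rec1 (k : ℕ) : sq (k + 10) = 0 + sq k + gV fun i => sq (k + (i.val + 1)) := by
  have := rec0 (k % 1023) (Nat.mod_lt _ (by norm_num))
  simp only [sq_mod] at this
  rw [this]
  congr 2
  simp [sq]

def win (k : ℕ) : Fin 10 → ZMod 2 := fun j => sq (k + j.val)

def pos (w : Fin 10 → ZMod 2) : ℕ :=
  (POS >>> (10 * ((w 0).val + 2 * (w 1).val + 4 * (w 2).val + 8 * (w 3).val + 16 * (w 4).val
    + 32 * (w 5).val + 64 * (w 6).val + 128 * (w 7).val + 256 * (w 8).val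
    + 512 * (w 9).val))) % 1024

theorem pos_win : ∀ k < 1023, pos (win k) = k ∧ win k ≠ 0 := by decide +kernel

theorem span (w : Fin 10 → ZMod 2) (hw : w ≠ 0) :
    ∃! i, i < 1023 ∧ ∀ j : Fin 10, sq (i + j.val) = w j := by
  have hinj : ∀ a < 1023, ∀ b < 1023, win a = win b → a = b := fun a ha b hb e => by
    rw [← (pos_win a ha).1, e, (pos_win b hb).1]
  have := Finset.surj_on_of_inj_on_of_card_le (s := Finset.range 1023)
    (t := Finset.univ.erase (0 : Fin 10 → ZMod 2)) (fun a _ => win a)
    (fun a ha => by simpa using (pos_win a (Finset.mem_range.1 ha)).2)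
    (fun a b ha hb e => hinj a (Finset.mem_range.1 ha) b (Finset.mem_range.1 hb) e)
    (by simp) w (by simpa using hw)
  obtain ⟨a, ha, e⟩ := this
  refine ⟨a, ⟨Finset.mem_range.1 ha, fun j => (congrFun e j).symm⟩, fun b hb => ?_⟩
  exact hinj b hb.1 a (Finset.mem_range.1 ha) ((funext hb.2).trans e)

def acc : ℕ → ℕ
  | 0 => 0
  | j + 1 => bif AA.testBit j then (SS >>> j) ^^^ acc j else acc j

theorem acc_bit (k j : ℕ) : bt (acc j) k = ∑ i ∈ Finset.range j, bt AA i * bt SS (i + k) := by
  induction j with
  | zero => simp [acc, bt]
  | succ j ih =>
    rw [Finset.sum_range_succ, ← ih, acc]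
    unfold bt
    cases AA.testBit j
    · simp
    · simp only [cond_true, Nat.testBit_xor, Nat.testBit_shiftRight]
      have h2 : (1 : ZMod 2) + 1 = 0 := rfl
      cases SS.testBit (j + k) <;> cases (acc j).testBit k <;> simp [h2]

theorem acc_chk : acc 987 % 2 ^ 1023 = (SS >>> 987) % 2 ^ 1023 := by decide +kernel

theorem SS_per : ∀ k < 2046, bt SS k = sq k := by decide +kernel

theorem lin (k : ℕ) : sq (k + 987) = ∑ j : Fin 987, bt AA j.val * sq (k + j.val) := by
  have hk := Nat.mod_lt k (show 0 < 1023 by norm_num)
  have h1 := congrArg (fun x => Nat.testBit x (k % 1023)) acc_chk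
  simp only [Nat.testBit_mod_two_pow, hk, decide_true, Bool.true_and,
    Nat.testBit_shiftRight] at h1
  have h2 : bt (acc 987) (k % 1023) = bt SS (987 + k % 1023) := by
    unfold bt
    rw [h1]
  rw [acc_bit, SS_per _ (by omega), add_comm 987, sq_mod] at h2
  rw [← h2, Finset.sum_range]
  refine Finset.sum_congr rfl fun j _ => ?_
  have := j.2
  rw [SS_per _ (by omega), add_comm j.val, sq_mod]

theorem nonaff : gV ![0, 0, 1, 0, 0, 0, 0, 0, 0] = 1 ∧ gV ![0, 1, 0, 0, 0, 0, 0, 0, 0] = 0 ∧
    gV ![0, 1, 1, 0, 0, 0, 0, 0, 0] = 0 ∧ gV 0 = 0 := by decide +kernel

end Pool.Agent.H1.NL
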