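import Mathlib

set_option autoImplicit false
set_option linter.unusedVariables false

namespace Pool.Agent.H1.Osc

open Set Filter Topology MeasureTheory

lemma ibp {a b : ℝ} (hab : a ≤ b) {Φ q q' g g' : ℝ → ℝ} {K1 K2 l : ℝ} (hl : 0 < l)
    (hΦ : ∀ x ∈ Icc a b, HasDerivAt Φ (q x) x) (hq : ∀ x ∈ Icc a b, HasDerivAt q (q' x) x)
    (hg : ∀ x ∈ Icc a b, HasDerivAt g (g' x) x) (cq : ContinuousOn q' (Icc a b))
    (cg : ContinuousOn g' (Icc a b)) (bg : ∀ x ∈ Icc a b, |g x| ≤ 1)
    (bg' : ∀ x ∈ Icc a b, |g' x| ≤ K1) (bq' : ∀ x ∈ Icc a b, |q' x| ≤ K2) :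
    ‖∫ x in a..b, Complex.exp (Complex.I * Φ x) * g x‖ ≤
      1 / l + ∫ x in a..b, (l ^ 2 / (q x ^ 2 + l ^ 2) + (K1 / (2 * l) + K2 / l ^ 2)) := by
  have cΦ : ContinuousOn Φ (Icc a b) := fun x hx => (hΦ x hx).continuousAt.continuousWithinAt
  have cq0 : ContinuousOn q (Icc a b) := fun x hx => (hq x hx).continuousAt.continuousWithinAt
  have cg0 : ContinuousOn g (Icc a b) := fun x hx => (hg x hx).continuousAt.continuousWithinAt
  have hD : ∀ x, 0 < q x ^ 2 + l ^ 2 := fun x => by positivity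
  let r : ℝ → ℝ := fun x => g x * (q x / (q x ^ 2 + l ^ 2))
  let r' : ℝ → ℝ := fun x => g' x * (q x / (q x ^ 2 + l ^ 2)) +
    g x * (q' x * (l ^ 2 - q x ^ 2) / (q x ^ 2 + l ^ 2) ^ 2)
  have hr : ∀ x ∈ Icc a b, HasDerivAt r (r' x) x := by
    intro x hx
    have h1 := (hq x hx).div (((hq x hx).pow 2).add_const (l ^ 2)) (hD x).ne'
    have h2 := (hg x hx).mul h1
    refine HasDerivAt.congr_deriv h2 ?_
    simp only [r', Pi.div_apply, Pi.pow_apply]
    congr 3
    norm_num; ring
  let e : ℝ → ℂ := fun x => Complex.exp (Complex.I * Φ x)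
  have ne : ∀ x, ‖e x‖ = 1 := fun x => by
    simp only [e]; rw [mul_comm]; exact Complex.norm_exp_ofReal_mul_I _
  have he : ∀ x ∈ Icc a b, HasDerivAt e (e x * (Complex.I * q x)) x := fun x hx =>
    ((hΦ x hx).ofReal_comp.const_mul Complex.I).cexp
  have hu : ∀ x ∈ Icc a b, HasDerivAt (fun x => e x * r x)
      (e x * (Complex.I * q x) * r x + e x * r' x) x := fun x hx =>
    (he x hx).mul (hr x hx).ofReal_comp
  have ce : ContinuousOn e (Icc a b) := fun x hx => (he x hx).continuousAt.continuousWithinAt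
  have cr : ContinuousOn r (Icc a b) := fun x hx => (hr x hx).continuousAt.continuousWithinAt
  have cD : ContinuousOn (fun x => q x ^ 2 + l ^ 2) (Icc a b) := (cq0.pow 2).add continuousOn_const
  have cr' : ContinuousOn r' (Icc a b) :=
    (cg.mul (cq0.div cD fun x _ => (hD x).ne')).add (cg0.mul ((cq.mul (continuousOn_const.sub (cq0.pow 2))).div
      (cD.pow 2) fun x _ => (pow_pos (hD x) 2).ne'))
  have oR : ∀ {f : ℝ → ℝ}, ContinuousOn f (Icc a b) → ContinuousOn (fun x => (f x : ℂ)) (Icc a b) :=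
    fun h => Complex.continuous_ofReal.comp_continuousOn h
  have cu' : ContinuousOn (fun x => e x * (Complex.I * q x) * r x + e x * r' x) (Icc a b) :=
    ((ce.mul (continuousOn_const.mul (oR cq0))).mul (oR cr)).add (ce.mul (oR cr'))
  have i1 : IntervalIntegrable (fun x => e x * (Complex.I * q x) * r x + e x * r' x) volume a b :=
    cu'.intervalIntegrable_of_Icc hab
  have i2 : IntervalIntegrable (fun x => Complex.I * (e x * g x)) volume a b :=
    (continuousOn_const.mul (ce.mul (oR cg0))).intervalIntegrable_of_Icc hab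
  have ftc := intervalIntegral.integral_eq_sub_of_hasDerivAt
    (fun x hx => hu x (by rwa [uIcc_of_le hab] at hx)) i1
  have hq2 : ∀ x, |q x / (q x ^ 2 + l ^ 2)| ≤ 1 / (2 * l) := by
    intro x
    rw [abs_div, abs_of_pos (hD x), div_le_div_iff₀ (hD x) (by positivity)]
    nlinarith [sq_nonneg (|q x| - l), sq_abs (q x)]
  have br : ∀ x ∈ Icc a b, ‖e x * r x‖ ≤ 1 / (2 * l) := by
    intro x hx
    rw [norm_mul, ne, one_mul, Complex.norm_real, Real.norm_eq_abs, abs_mul]
    calc _ ≤ 1 * (1 / (2 * l)) := mul_le_mul (bg x hx) (hq2 x) (abs_nonneg _) zero_le_one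
      _ = _ := one_mul _
  have key : ‖∫ x in a..b, (Complex.I * (e x * g x) - (e x * (Complex.I * q x) * r x + e x * r' x))‖ ≤
      ∫ x in a..b, (l ^ 2 / (q x ^ 2 + l ^ 2) + (K1 / (2 * l) + K2 / l ^ 2)) := by
    refine intervalIntegral.norm_integral_le_of_norm_le hab (Eventually.of_forall fun x hx => ?_)
      (((continuousOn_const.div cD fun x _ => (hD x).ne').add continuousOn_const).intervalIntegrable_of_Icc hab)
    have hx' : x ∈ Icc a b := Ioc_subset_Icc_self hx
    have e1 : Complex.I * (e x * g x) - (e x * (Complex.I * q x) * r x + e x * r' x) =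
        e x * (Complex.I * ((g x - q x * r x : ℝ) : ℂ) - (r' x : ℂ)) := by push_cast; ring
    have e2 : g x - q x * r x = g x * (l ^ 2 / (q x ^ 2 + l ^ 2)) := by
      simp only [r]; field_simp [(hD x).ne']; ring
    rw [e1, norm_mul, ne, one_mul]
    refine (norm_sub_le _ _).trans (add_le_add ?_ ?_)
    · rw [norm_mul, Complex.norm_I, one_mul, Complex.norm_real, Real.norm_eq_abs, e2, abs_mul,
        abs_of_pos (div_pos (by positivity) (hD x))]
      exact mul_le_of_le_one_left (by positivity) (bg x hx')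
    · rw [Complex.norm_real, Real.norm_eq_abs]
      refine (abs_add_le _ _).trans (add_le_add ?_ ?_)
      · rw [abs_mul, div_eq_mul_one_div K1]
        exact mul_le_mul (bg' x hx') (hq2 x) (abs_nonneg _) ((abs_nonneg _).trans (bg' x hx'))
      · rw [abs_mul]
        refine (mul_le_of_le_one_left (abs_nonneg _) (bg x hx')).trans ?_
        rw [abs_div, abs_mul, abs_of_pos (pow_pos (hD x) 2), div_le_div_iff₀ (pow_pos (hD x) 2) (by positivity)]
        have h1 : |l ^ 2 - q x ^ 2| ≤ q x ^ 2 + l ^ 2 := by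
          rw [abs_le]; constructor <;> nlinarith [sq_nonneg (q x), sq_nonneg l]
        have h2 : l ^ 2 ≤ q x ^ 2 + l ^ 2 := by nlinarith [sq_nonneg (q x)]
        calc |q' x| * |l ^ 2 - q x ^ 2| * l ^ 2 ≤ K2 * (q x ^ 2 + l ^ 2) * (q x ^ 2 + l ^ 2) := by
              have := (abs_nonneg _).trans (bq' x hx')
              gcongr
              exact bq' x hx'
          _ = _ := by ring
  rw [intervalIntegral.integral_sub i2 i1, ftc, intervalIntegral.integral_const_mul] at key
  have h3 : ‖Complex.I * ∫ x in a..b, e x * g x‖ ≤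
      ‖(Complex.I * ∫ x in a..b, e x * g x) - (e b * r b - e a * r a)‖ + ‖e b * r b - e a * r a‖ :=
    norm_le_norm_sub_add _ _
  rw [norm_mul, Complex.norm_I, one_mul] at h3
  have h4 := norm_sub_le (e b * r b) (e a * r a)
  have h5 := br a (left_mem_Icc.2 hab)
  have h6 := br b (right_mem_Icc.2 hab)
  have h7 : 1 / l = 1 / (2 * l) + 1 / (2 * l) := by field_simp; ring
  linarith

noncomputable def qq (c : ℝ × ℝ × ℝ) (b : ℝ) : ℝ := -c.1 / b ^ 2 - c.2.1 + 2 * c.2.2 / (1 + b ^ 2)

lemma zeros_finite {c : ℝ × ℝ × ℝ} (hc : c ≠ 0) : {b : ℝ | b ≠ 0 ∧ qq c b = 0}.Finite := by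
  let p : Polynomial ℝ := Polynomial.C (-c.2.1) * Polynomial.X ^ 4 +
    Polynomial.C (2 * c.2.2 - c.1 - c.2.1) * Polynomial.X ^ 2 + Polynomial.C (-c.1)
  have hp : ∀ b, p.eval b = -c.2.1 * b ^ 4 + (2 * c.2.2 - c.1 - c.2.1) * b ^ 2 - c.1 := fun b => by
    simp [p]; ring
  have hp0 : p ≠ 0 := by
    intro h
    have h0 := hp 0
    have h1 := hp 1
    have h2 := hp 2
    rw [h, Polynomial.eval_zero] at h0 h1 h2
    apply hc
    ext <;> simp <;> linarith
  refine (Polynomial.finite_setOfPred_isRoot hp0).subset ?_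
  rintro b ⟨hb, h⟩
  show p.eval b = 0
  rw [hp]
  unfold qq at h
  field_simp at h
  linarith

lemma small (δ : ℝ) (hδ : 0 < δ) : ∃ η : ℝ, 0 < η ∧ ∀ c : ℝ × ℝ × ℝ, ‖c‖ = 1 →
    ∫ x in (1 / 4 : ℝ)..(5 / 16), η ^ 2 / (qq c x ^ 2 + η ^ 2) ≤ δ := by
  by_contra hcon
  push Not at hcon
  choose c hc hI using fun k : ℕ => hcon (1 / ((k : ℝ) + 1)) (by positivity)
  obtain ⟨z, hz, φ, hφ, hlim⟩ := (isCompact_sphere (0 : ℝ × ℝ × ℝ) 1).tendsto_subseq
    (x := c) (fun k => by simpa using hc k)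
  have hz0 : z ≠ 0 := by rintro rfl; simp at hz
  have hη : Tendsto (fun k : ℕ => 1 / ((φ k : ℝ) + 1)) atTop (𝓝 0) :=
    tendsto_one_div_add_atTop_nhds_zero_nat.comp hφ.tendsto_atTop
  have h1 : Tendsto (fun k => ∫ x in (1 / 4 : ℝ)..(5 / 16),
      (1 / ((φ k : ℝ) + 1)) ^ 2 / (qq (c (φ k)) x ^ 2 + (1 / ((φ k : ℝ) + 1)) ^ 2)) atTop
      (𝓝 (∫ x in (1 / 4 : ℝ)..(5 / 16), (0 : ℝ))) := by
    refine intervalIntegral.tendsto_integral_filter_of_dominated_convergence (fun _ => 1)
      (Eventually.of_forall fun k => ?_) (Eventually.of_forall fun k => Eventually.of_forall fun x _ => ?_)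
      intervalIntegrable_const ?_
    · apply Measurable.aestronglyMeasurable
      unfold qq
      fun_prop
    · rw [Real.norm_eq_abs, abs_of_nonneg (by positivity), div_le_one (by positivity)]
      nlinarith [sq_nonneg (qq (c (φ k)) x)]
    · have := (zeros_finite hz0).measure_zero (volume : Measure ℝ)
      rw [← compl_mem_ae_iff] at this
      filter_upwards [this] with x hx hx'
      have hx0 : x ≠ 0 := by
        rintro rfl
        rw [uIoc_of_le (by norm_num)] at hx'
        have := hx'.1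
        norm_num at this
      have hq : qq z x ≠ 0 := fun h => hx ⟨hx0, h⟩
      have hc' : Continuous fun c : ℝ × ℝ × ℝ => qq c x := by unfold qq; fun_prop
      have h2 : Tendsto (fun k => qq (c (φ k)) x) atTop (𝓝 (qq z x)) := (hc'.tendsto z).comp hlim
      have := (hη.pow 2).div ((h2.pow 2).add (hη.pow 2)) (by positivity)
      rw [show (0 : ℝ) ^ 2 / (qq z x ^ 2 + 0 ^ 2) = 0 by simp] at this
      exact this
  simp only [intervalIntegral.integral_zero] at h1
  obtain ⟨k, hk⟩ := (h1.eventually (gt_mem_nhds hδ)).exists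
  exact absurd (hI (φ k)) (not_lt.2 hk.le)

lemma osc (δ : ℝ) (hδ : 0 < δ) : ∃ n : ℕ, ∀ t s : ℝ, ∀ j : ℕ,
    ‖∫ b in (1 / 4 : ℝ)..(5 / 16), Complex.exp (Complex.I * ((t / b - s * b + 2 * n * Real.arctan b : ℝ) : ℂ)) *
      (((8 * b - 2) ^ j : ℝ) : ℂ)‖ ≤ δ := by
  obtain ⟨η, hη, hs⟩ := small (δ / 2) (by positivity)
  obtain ⟨n, hn⟩ := exists_nat_gt ((2 / η + 10 / η ^ 2) / (δ / 2))
  have hn0 : (0 : ℝ) < n := lt_of_le_of_lt (by positivity) hn
  refine ⟨n, fun t s j => ?_⟩
  set c : ℝ × ℝ × ℝ := (t, s, (n : ℝ)) with hc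
  set R := ‖c‖ with hR
  have hRt : |t| ≤ R := norm_fst_le c
  have hRn : (n : ℝ) ≤ R := by
    have h1 : ‖c.2.2‖ ≤ ‖c‖ := (norm_snd_le c.2).trans (norm_snd_le c)
    exact (le_abs_self _).trans h1
  have hR0 : 0 < R := lt_of_lt_of_le hn0 hRn
  have h := ibp (a := 1 / 4) (b := 5 / 16) (by norm_num)
    (Φ := fun b => t / b - s * b + 2 * n * Real.arctan b) (q := qq c)
    (q' := fun b => 2 * t / b ^ 3 - 4 * n * b / (1 + b ^ 2) ^ 2) (g := fun b => (8 * b - 2) ^ j)
    (g' := fun b => j * (8 * b - 2) ^ (j - 1) * 8) (K1 := 8) (K2 := 130 * R) (l := η * R) (by positivity)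
    (fun x hx => by
      have hx0 : x ≠ 0 := by have := hx.1; intro h; rw [h] at this; norm_num at this
      have := (((hasDerivAt_const x t).div (hasDerivAt_id x) hx0).sub ((hasDerivAt_id x).const_mul s)).add
        ((Real.hasDerivAt_arctan x).const_mul (2 * (n : ℝ)))
      refine HasDerivAt.congr_deriv this ?_
      simp only [qq, hc, id]; field_simp; ring)
    (fun x hx => by
      have hx0 : x ≠ 0 := by have := hx.1; intro h; rw [h] at this; norm_num at this
      have h1 : (1 + x ^ 2) ≠ 0 := by positivity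
      have := (((hasDerivAt_const x (-t)).div (hasDerivAt_pow 2 x) (pow_ne_zero 2 hx0)).sub_const s).add
        ((hasDerivAt_const x (2 * (n : ℝ))).div ((hasDerivAt_pow 2 x).const_add 1) h1)
      refine HasDerivAt.congr_deriv this ?_
      field_simp; norm_num; ring)
    (fun x hx => by
      have := (((hasDerivAt_id x).const_mul 8).sub_const 2).pow j
      refine HasDerivAt.congr_deriv this ?_
      simp)
    (by
      refine ContinuousOn.sub (continuousOn_const.div (by fun_prop) fun x hx => ?_)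
        (ContinuousOn.div (by fun_prop) (by fun_prop) fun x _ => by positivity)
      have := hx.1; positivity)
    (by fun_prop)
    (fun x hx => by
      rw [abs_pow]
      refine pow_le_one₀ (abs_nonneg _) ?_
      rw [abs_le]; constructor <;> linarith [hx.1, hx.2])
    (fun x hx => by
      have h1 : 0 ≤ 8 * x - 2 := by linarith [hx.1]
      have h2 : 8 * x - 2 ≤ 1 / 2 := by linarith [hx.2]
      rw [abs_of_nonneg (by positivity)]
      have h3 : (j : ℝ) * (8 * x - 2) ^ (j - 1) ≤ j * (1 / 2) ^ (j - 1) := by gcongr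
      have h4 : (j : ℝ) * (1 / 2) ^ (j - 1) ≤ 1 := by
        rcases j with _ | j
        · simp
        · rw [Nat.add_sub_cancel, one_div_pow, mul_one_div, div_le_one (by positivity)]
          exact_mod_cast Nat.lt_two_pow_self
      linarith)
    (fun x hx => by
      have h1 := hx.1
      have h2 := hx.2
      have hx0 : 0 < x := by linarith
      refine (abs_sub _ _).trans ?_
      have a1 : |2 * t / x ^ 3| ≤ 128 * R := by
        rw [abs_div, abs_mul, abs_of_pos (pow_pos hx0 3), div_le_iff₀ (pow_pos hx0 3), abs_two]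
        have : (1 / 4 : ℝ) ^ 3 ≤ x ^ 3 := by gcongr
        nlinarith
      have a2 : |4 * n * x / (1 + x ^ 2) ^ 2| ≤ 2 * R := by
        rw [abs_of_nonneg (by positivity), div_le_iff₀ (by positivity)]
        have : 1 ≤ (1 + x ^ 2) ^ 2 := one_le_pow₀ (by nlinarith)
        nlinarith
      linarith)
  refine h.trans ?_
  have hcn : ‖R⁻¹ • c‖ = 1 := by rw [norm_smul, norm_inv, Real.norm_eq_abs, abs_of_pos hR0, ← hR]; field_simp
  have h2 := hs _ hcn
  have e1 : ∀ x, (η * R) ^ 2 / (qq c x ^ 2 + (η * R) ^ 2) = η ^ 2 / (qq (R⁻¹ • c) x ^ 2 + η ^ 2) := by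
    intro x
    have : qq c x = R * qq (R⁻¹ • c) x := by
      simp only [qq, Prod.smul_fst, Prod.smul_snd, smul_eq_mul]; field_simp
    rw [this]; field_simp
  simp only [e1]
  have cq : ContinuousOn (qq (R⁻¹ • c)) (Icc (1 / 4 : ℝ) (5 / 16)) := by
    unfold qq
    refine ((continuousOn_const.div (by fun_prop) fun x hx => ?_).sub continuousOn_const).add
      (continuousOn_const.div (by fun_prop) fun x _ => by positivity)
    have := hx.1; positivity
  have i1 : IntervalIntegrable (fun x => η ^ 2 / (qq (R⁻¹ • c) x ^ 2 + η ^ 2)) volume (1 / 4) (5 / 16) :=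
    (continuousOn_const.div ((cq.pow 2).add continuousOn_const)
      fun x _ => (by positivity : qq (R⁻¹ • c) x ^ 2 + η ^ 2 ≠ 0)).intervalIntegrable_of_Icc (by norm_num)
  rw [intervalIntegral.integral_add i1 intervalIntegrable_const,
    intervalIntegral.integral_const, smul_eq_mul]
  have h3 : 1 / (η * R) + (5 / 16 - 1 / 4) * (8 / (2 * (η * R)) + 130 * R / (η * R) ^ 2) ≤
      (2 / η + 10 / η ^ 2) / R := by
    have : (2 / η + 10 / η ^ 2) / R - (1 / (η * R) + (5 / 16 - 1 / 4) * (8 / (2 * (η * R)) + 130 * R / (η * R) ^ 2)) =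
        (3 / 4) / (η * R) + (15 / 8) / (η ^ 2 * R) := by field_simp; ring
    have h5 : 0 ≤ (3 / 4) / (η * R) + (15 / 8) / (η ^ 2 * R) := by positivity
    linarith
  have h4 : (2 / η + 10 / η ^ 2) / R ≤ δ / 2 := by
    rw [div_le_iff₀ hR0]
    rw [div_lt_iff₀ (by positivity)] at hn
    nlinarith
  linarith

end Pool.Agent.H1.Osc
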