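import Mathlib

namespace Pool.Agent.H1.PermPoset

/-- A finite permutation of arbitrary length `n`. -/
structure P where
  n : ℕ
  p : Equiv.Perm (Fin n)

/-- Pattern containment: `π` has a subsequence in the same relative order as `σ`. -/
def Contains (σ π : P) : Prop :=
  ∃ f : Fin σ.n → Fin π.n, StrictMono f ∧ ∀ i j, σ.p i < σ.p j ↔ π.p (f i) < π.p (f j)

theorem Contains.len_le {σ π : P} (h : Contains σ π) : σ.n ≤ π.n := by
  obtain ⟨f, hf, -⟩ := h
  simpa using Fintype.card_le_of_injective f hf.injective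

theorem Contains.eq_of_len {σ π : P} (h : Contains σ π) (hn : σ.n = π.n) : σ = π := by
  obtain ⟨n, p⟩ := σ
  obtain ⟨m, q⟩ := π
  dsimp only at hn
  subst hn
  obtain ⟨f, hf, h⟩ := h
  dsimp only at f hf h
  have hid : f = id := hf.eq_id
  subst hid
  have h2 : StrictMono (fun i => q (p.symm i)) := by
    intro i j hij
    exact (h _ _).1 (by simpa using hij)
  have h3 := h2.eq_id
  have : p = q := by
    ext i
    have := congrFun h3 (p i)
    simp only [Equiv.symm_apply_apply, id] at this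
    rw [this]
  rw [this]

instance : PartialOrder P where
  le := Contains
  le_refl _ := ⟨id, strictMono_id, fun _ _ => Iff.rfl⟩
  le_trans _ _ _ := fun ⟨f, hf, h⟩ ⟨g, hg, h'⟩ =>
    ⟨g ∘ f, hg.comp hf, fun i j => (h i j).trans (h' _ _)⟩
  le_antisymm _ _ h h' := h.eq_of_len (le_antisymm h.len_le h'.len_le)

theorem finite_len (n : ℕ) : {τ : P | τ.n ≤ n}.Finite := by
  refine (Set.finite_range fun x : (Σ k : Fin (n + 1), Equiv.Perm (Fin k)) =>
    (⟨x.1, x.2⟩ : P)).subset fun τ hτ => ⟨⟨⟨τ.n, Nat.lt_succ_of_le hτ⟩, τ.p⟩, rfl⟩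

noncomputable instance : LocallyFiniteOrder P :=
  LocallyFiniteOrder.ofFiniteIcc fun _ π => (finite_len π.n).subset fun _ h => h.2.len_le

/-- One-line notation (values `0, …, n - 1`). -/
def code (τ : P) : List ℕ := List.ofFn fun i => (τ.p i).val

theorem code_inj {a b : P} (h : code a = code b) : a = b := by
  obtain ⟨n, p⟩ := a
  obtain ⟨m, q⟩ := b
  have hn : n = m := by simpa [code] using congrArg List.length h
  subst hn
  have := List.ofFn_injective h
  have : p = q := by
    ext i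
    exact congrFun this i
  rw [this]

instance : DecidableEq P := fun a b => decidable_of_iff (code a = code b) ⟨code_inj, congrArg _⟩

/-- The Möbius function of the pattern poset (Mathlib's Möbius function of a locally finite
order). -/
noncomputable def mu (σ π : P) : ℤ := IncidenceAlgebra.mu ℤ σ π

/-- `C` is a face of the subcomplex of the order complex of the open interval `(σ, π)` induced by
the elements `τ` with `Q (μ (σ, τ))`. -/
def IsFace (Q : ℤ → Prop) (σ π : P) (C : Finset P) : Prop :=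
  (∀ τ ∈ C, σ < τ ∧ τ < π ∧ Q (mu σ τ)) ∧ IsChain (· ≤ ·) (C : Set P)

/-- The subcomplex is pure: all its maximal faces have the same size. -/
def IsPure (Q : ℤ → Prop) (σ π : P) : Prop :=
  ∀ C D : Finset P, Maximal (IsFace Q σ π) C → Maximal (IsFace Q σ π) D → C.card = D.card

instance decLE (σ π : P) : Decidable (σ ≤ π) :=
  decidable_of_iff (σ.n ≤ π.n ∧ ∃ f : Fin σ.n → Fin π.n, (∀ i j, i < j → f i < f j) ∧
      ∀ i j, σ.p i < σ.p j ↔ π.p (f i) < π.p (f j))
    ⟨fun h => h.2, fun h => ⟨Contains.len_le h, h⟩⟩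

theorem lt_iff (σ π : P) : σ < π ↔ σ.n < π.n ∧ σ ≤ π := by
  rw [lt_iff_le_and_ne]
  constructor
  · rintro ⟨h, hne⟩
    exact ⟨lt_of_le_of_ne (Contains.len_le h) fun e => hne (Contains.eq_of_len h e), h⟩
  · rintro ⟨h1, h⟩
    exact ⟨h, fun e => by rw [e] at h1; exact lt_irrefl _ h1⟩

instance decLT (σ π : P) : Decidable (σ < π) := decidable_of_iff _ (lt_iff σ π).symm

theorem mu_table (σ π : P) (E : List P) (t : P → ℤ) (hE : ∀ τ, σ ≤ τ → τ < π → τ ∈ E)
    (hE' : ∀ τ ∈ E, σ ≤ τ) (hnd : E.Nodup) (ht0 : t σ = 1)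
    (ht : ∀ τ ∈ E, τ ≠ σ → t τ = - ((E.filter fun x => x < τ).map t).sum) :
    ∀ τ, σ ≤ τ → τ < π → mu σ τ = t τ := by
  intro τ
  induction' hn : τ.n using Nat.strong_induction_on with n ih generalizing τ
  intro h1 h2
  by_cases h : τ = σ
  · subst h; simp [mu, ht0]
  rw [ht τ (hE τ h1 h2) h, mu, IncidenceAlgebra.mu_eq_neg_sum_Ico_of_ne (Ne.symm h)]
  congr 1
  have : Finset.Ico σ τ = (E.filter fun x => x < τ).toFinset := by
    ext x
    simp only [Finset.mem_Ico, List.mem_toFinset, List.mem_filter, decide_eq_true_eq]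
    exact ⟨fun hx => ⟨hE x hx.1 (hx.2.trans h2), hx.2⟩, fun hx => ⟨hE' x hx.1, hx.2⟩⟩
  rw [this, List.sum_toFinset _ (hnd.filter _)]
  congr 1
  refine List.map_congr_left fun x hx => ?_
  simp only [List.mem_filter, decide_eq_true_eq] at hx
  exact ih x.n (hn ▸ ((lt_iff _ _).1 hx.2).1) x rfl (hE' x hx.1) (hx.2.trans h2)

/-- Building a permutation from its one-line notation and that of its inverse. -/
def mk (n : ℕ) (f g : Fin n → Fin n) (h1 : ∀ i, g (f i) = i) (h2 : ∀ i, f (g i) = i) : P :=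
  ⟨n, ⟨f, g, h1, h2⟩⟩

theorem not_pure (Q : ℤ → Prop) (σ π : P) (C D : Finset P) (hC : Maximal (IsFace Q σ π) C)
    (hD : IsFace Q σ π D) (h : C.card < D.card) : ¬ IsPure Q σ π := by
  intro hp
  have hfin : {X : Finset P | IsFace Q σ π X}.Finite := by
    refine (Finset.finite_toSet (Finset.Icc σ π).powerset).subset fun X hX => ?_
    simp only [Finset.coe_powerset, Set.mem_preimage, Set.mem_powerset_iff]
    intro τ hτ
    simp only [Finset.coe_Icc]
    exact ⟨(hX.1 τ hτ).1.le, (hX.1 τ hτ).2.1.le⟩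
  obtain ⟨D', h1, h2⟩ := hfin.exists_le_maximal hD
  have := hp C D' hC h2
  have := Finset.card_le_card h1
  omega

end Pool.Agent.H1.PermPoset
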