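import Mathlib

open MeasureTheory Set

namespace Pool.Agent.H1.SMP
noncomputable section

def len (k : ℕ) : ℝ := (1 / 2) ^ (k ^ 2 + 3)
def tent (k : ℕ) (x : ℝ) : ℝ := (1 / 2) ^ k * max 0 (1 - |x - (1 / 2) ^ k| / len k)
def g (x : ℝ) : ℝ := ∑' k, tent k x
def G (x : ℝ) : ℝ := ∫ t in (0 : ℝ)..x, g t
def w (x : ℝ) : ℝ := ∫ t in (0 : ℝ)..x, G t
def W (x : ℝ) : ℝ := g x / w x

theorem len_pos (k : ℕ) : 0 < len k := by unfold len; positivity

theorem len_le (k : ℕ) : len k ≤ (1 / 2) ^ k / 8 := by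
  unfold len
  have h : ((1 : ℝ) / 2) ^ (k ^ 2) ≤ (1 / 2) ^ k :=
    pow_le_pow_of_le_one (by norm_num) (by norm_num) (by nlinarith [Nat.zero_le k, Nat.le_mul_self k])
  rw [pow_add]; norm_num at h ⊢; linarith

theorem tent_nonneg (k : ℕ) (x : ℝ) : 0 ≤ tent k x := by
  unfold tent; exact mul_nonneg (by positivity) (le_max_left _ _)

theorem tent_le (k : ℕ) (x : ℝ) : tent k x ≤ (1 / 2) ^ k := by
  unfold tent
  have h : max 0 (1 - |x - (1 / 2) ^ k| / len k) ≤ 1 := by
    refine max_le zero_le_one ?_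
    have := div_nonneg (abs_nonneg (x - (1 / 2) ^ k)) (len_pos k).le
    linarith
  have : (0 : ℝ) < (1 / 2) ^ k := by positivity
  nlinarith

theorem tent_cont (k : ℕ) : Continuous (tent k) := by
  unfold tent; fun_prop

theorem tent_zero {k : ℕ} {x : ℝ} (h : len k ≤ |x - (1 / 2) ^ k|) : tent k x = 0 := by
  unfold tent
  have : 1 ≤ |x - (1 / 2) ^ k| / len k := (one_le_div (len_pos k)).2 h
  rw [max_eq_left (by linarith), mul_zero]

theorem tent_ge {k : ℕ} {x : ℝ} (h : |x - (1 / 2) ^ k| ≤ len k / 2) :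
    (1 / 2) ^ k / 2 ≤ tent k x := by
  unfold tent
  have h1 : |x - (1 / 2) ^ k| / len k ≤ 1 / 2 := by
    rw [div_le_iff₀ (len_pos k)]; linarith
  have h2 : 1 / 2 ≤ max 0 (1 - |x - (1 / 2) ^ k| / len k) := le_max_of_le_right (by linarith)
  have : (0 : ℝ) < (1 / 2) ^ k := by positivity
  nlinarith

theorem tent_summable (x : ℝ) : Summable fun k => tent k x :=
  Summable.of_nonneg_of_le (fun k => tent_nonneg k x) (fun k => tent_le k x) summable_geometric_two

theorem g_cont : Continuous g :=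
  continuous_tsum tent_cont summable_geometric_two fun k x => by
    rw [Real.norm_of_nonneg (tent_nonneg k x)]; exact tent_le k x

theorem g_nonneg (x : ℝ) : 0 ≤ g x := tsum_nonneg fun k => tent_nonneg k x

theorem g_le (x : ℝ) : g x ≤ 2 := by
  rw [← tsum_geometric_two]
  exact (tent_summable x).tsum_le_tsum (fun k => tent_le k x) summable_geometric_two

theorem tent_le_g (k : ℕ) (x : ℝ) : tent k x ≤ g x :=
  (tent_summable x).le_tsum k fun j _ => tent_nonneg j x

theorem g_zero' {x : ℝ} (h : ∀ k, len k ≤ |x - (1 / 2) ^ k|) : g x = 0 := by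
  unfold g; simp [fun k => tent_zero (h k)]

theorem g_zero {x : ℝ} (h : x ≤ 0) : g x = 0 := by
  refine g_zero' fun k => ?_
  have h1 := len_le k
  have : (0 : ℝ) < (1 / 2) ^ k := by positivity
  rw [abs_of_nonpos (by linarith)]; linarith

theorem G_der (x : ℝ) : HasDerivAt G (g x) x := (g_cont.integral_hasStrictDerivAt 0 x).hasDerivAt

theorem G_diff : Differentiable ℝ G := fun x => (G_der x).differentiableAt

theorem deriv_G : deriv G = g := funext fun x => (G_der x).deriv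

theorem w_der (x : ℝ) : HasDerivAt w (G x) x :=
  (G_diff.continuous.integral_hasStrictDerivAt 0 x).hasDerivAt

theorem w_diff : Differentiable ℝ w := fun x => (w_der x).differentiableAt

theorem deriv_w : deriv w = G := funext fun x => (w_der x).deriv

theorem G_mono : Monotone G :=
  monotone_of_deriv_nonneg G_diff fun x => by rw [deriv_G]; exact g_nonneg x

theorem G_zero {x : ℝ} (h : x ≤ 0) : G x = 0 := by
  unfold G
  rw [intervalIntegral.integral_congr (g := fun _ => 0)]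
  · simp
  · intro t ht
    rw [uIcc_of_ge h] at ht
    exact g_zero ht.2

theorem G_nonneg (x : ℝ) : 0 ≤ G x := by
  rcases le_total x 0 with h | h
  · rw [G_zero h]
  · rw [← G_zero le_rfl]; exact G_mono h

theorem w_mono : Monotone w :=
  monotone_of_deriv_nonneg w_diff fun x => by rw [deriv_w]; exact G_nonneg x

theorem w_zero {x : ℝ} (h : x ≤ 0) : w x = 0 := by
  unfold w
  rw [intervalIntegral.integral_congr (g := fun _ => 0)]
  · simp
  · intro t ht
    rw [uIcc_of_ge h] at ht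
    exact G_zero ht.2

theorem w_nonneg (x : ℝ) : 0 ≤ w x := by
  rcases le_total x 0 with h | h
  · rw [w_zero h]
  · rw [← w_zero le_rfl]; exact w_mono h

theorem incr {F : ℝ → ℝ} (hF : Differentiable ℝ F) {a b c : ℝ} (hab : a ≤ b)
    (h : ∀ t ∈ Icc a b, c ≤ deriv F t) : c * (b - a) ≤ F b - F a :=
  (convex_Icc a b).mul_sub_le_image_sub_of_le_deriv hF.continuous.continuousOn
    hF.differentiableOn (fun t ht => h t (interior_subset ht)) a (left_mem_Icc.2 hab) b
    (right_mem_Icc.2 hab) hab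

theorem G_lb (k : ℕ) {t : ℝ} (h : (1 / 2) ^ k + len k ≤ t) : (1 / 2) ^ k / 2 * len k ≤ G t := by
  have hl := len_pos k
  have h1 := incr G_diff (a := (1 / 2) ^ k - len k / 2) (b := (1 / 2) ^ k + len k / 2)
    (c := (1 / 2) ^ k / 2) (by linarith) fun s hs => by
      rw [deriv_G]
      exact (tent_ge (abs_le.2 ⟨by linarith [hs.1], by linarith [hs.2]⟩)).trans (tent_le_g k s)
  have h2 := G_nonneg ((1 / 2) ^ k - len k / 2)
  have h3 : G ((1 / 2) ^ k + len k / 2) ≤ G t := G_mono (by linarith)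
  have : (1 / 2 : ℝ) ^ k + len k / 2 - ((1 / 2) ^ k - len k / 2) = len k := by ring
  rw [this] at h1
  linarith

theorem w_lb (k : ℕ) {x : ℝ} (h : (1 / 2) ^ k - len k ≤ x) :
    (1 / 2) ^ (k ^ 2 + 4 * k + 8) ≤ w x := by
  have hl := len_le k
  have hl' := len_le (k + 1)
  have hp : (0 : ℝ) < (1 / 2) ^ k := by positivity
  have e : ((1 : ℝ) / 2) ^ (k + 1) = (1 / 2) ^ k / 2 := by ring
  have h1 := incr w_diff (a := (1 / 2) ^ (k + 1) + len (k + 1))
    (b := (1 / 2) ^ (k + 1) + len (k + 1) + (1 / 2) ^ k / 4)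
    (c := (1 / 2) ^ (k + 1) / 2 * len (k + 1)) (by linarith) fun s hs => by
      rw [deriv_w]; exact G_lb (k + 1) hs.1
  have h2 := w_nonneg ((1 / 2) ^ (k + 1) + len (k + 1))
  have h3 : w ((1 / 2) ^ (k + 1) + len (k + 1) + (1 / 2) ^ k / 4) ≤ w x := w_mono (by linarith)
  have e2 : (1 / 2 : ℝ) ^ (k + 1) / 2 * len (k + 1) * ((1 / 2) ^ (k + 1) + len (k + 1) +
      (1 / 2) ^ k / 4 - ((1 / 2) ^ (k + 1) + len (k + 1))) = (1 / 2) ^ (k ^ 2 + 4 * k + 8) := by
    unfold len; ring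
  rw [e2] at h1
  linarith

theorem W_nonneg (x : ℝ) : 0 ≤ W x := div_nonneg (g_nonneg x) (w_nonneg x)

theorem W_meas : Measurable W := g_cont.measurable.div w_diff.continuous.measurable

theorem W_mul (x : ℝ) : W x * w x = g x := by
  unfold W
  by_cases h : ∀ k, len k ≤ |x - (1 / 2) ^ k|
  · simp [g_zero' h]
  · push Not at h
    obtain ⟨k, hk⟩ := h
    have h1 := w_lb k (x := x) (by linarith [(abs_lt.1 hk).1])
    have : (0 : ℝ) < (1 / 2) ^ (k ^ 2 + 4 * k + 8) := by positivity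
    field_simp [(this.trans_le h1).ne']

theorem W_le {k : ℕ} {x : ℝ} (hk : |x - (1 / 2) ^ k| < len k) :
    W x ≤ 2 ^ (k ^ 2 + 4 * k + 9) := by
  have h1 := w_lb k (x := x) (by linarith [(abs_lt.1 hk).1])
  have h0 : (0 : ℝ) < (1 / 2) ^ (k ^ 2 + 4 * k + 8) := by positivity
  unfold W
  rw [div_le_iff₀ (h0.trans_le h1)]
  have h2 : (2 : ℝ) ^ (k ^ 2 + 4 * k + 9) * (1 / 2) ^ (k ^ 2 + 4 * k + 8) = 2 := by
    rw [pow_succ, mul_right_comm, ← mul_pow]; norm_num
  have h3 : (0 : ℝ) < 2 ^ (k ^ 2 + 4 * k + 9) := by positivity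
  nlinarith [g_le x]

theorem summ {q : ℝ} (hq : q < 1) :
    Summable fun k : ℕ => ((2 : ℝ) ^ (k ^ 2 + 4 * k + 9)) ^ q * (2 * len k) := by
  refine Summable.of_norm_bounded_eventually_nat summable_geometric_two ?_
  obtain ⟨K, hK⟩ := exists_nat_ge (14 / (1 - q))
  filter_upwards [Filter.eventually_ge_atTop (K + 1)] with k hk
  have hl := len_pos k
  rw [Real.norm_of_nonneg (by positivity)]
  have e1 : ((2 : ℝ) ^ (k ^ 2 + 4 * k + 9)) ^ q * (2 * len k) =
      2 ^ (((k : ℝ) ^ 2 + 4 * k + 9) * q + 1 - ((k : ℝ) ^ 2 + 3)) := by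
    unfold len
    rw [← Real.rpow_natCast, ← Real.rpow_mul (by norm_num), one_div, inv_pow, ← Real.rpow_natCast,
      Real.rpow_sub (by norm_num), Real.rpow_add (by norm_num), Real.rpow_one]
    push_cast
    ring
  have e2 : ((1 : ℝ) / 2) ^ k = 2 ^ (-(k : ℝ)) := by
    rw [Real.rpow_neg (by norm_num), Real.rpow_natCast, one_div, inv_pow]
  rw [e1, e2]
  refine Real.rpow_le_rpow_of_exponent_le (by norm_num) ?_
  have h1 : (K : ℝ) + 1 ≤ k := by exact_mod_cast hk
  have hK0 : (0 : ℝ) ≤ K := Nat.cast_nonneg K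
  rw [div_le_iff₀ (by linarith)] at hK
  have h2 : 14 ≤ (k : ℝ) * (1 - q) := by nlinarith
  nlinarith

theorem W_int {q : ℝ} (h0 : 0 < q) (hq : q < 1) : Integrable fun x => W x ^ q := by
  refine ⟨(W_meas.pow_const q).aestronglyMeasurable, ?_⟩
  have key : ∀ x, ‖W x ^ q‖ₑ ≤ ∑' k : ℕ, (Ioo ((1 / 2 : ℝ) ^ k - len k) ((1 / 2) ^ k + len k)).indicator
      (fun _ => ENNReal.ofReal (((2 : ℝ) ^ (k ^ 2 + 4 * k + 9)) ^ q)) x := by
    intro x
    by_cases h : ∀ k, len k ≤ |x - (1 / 2) ^ k|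
    · simp [W, g_zero' h, Real.zero_rpow h0.ne']
    · push Not at h
      obtain ⟨k, hk⟩ := h
      refine le_trans ?_ (ENNReal.le_tsum k)
      rw [indicator_of_mem (show x ∈ Ioo _ _ from ⟨by linarith [(abs_lt.1 hk).1],
        by linarith [(abs_lt.1 hk).2]⟩), Real.enorm_eq_ofReal (Real.rpow_nonneg (W_nonneg x) q)]
      exact ENNReal.ofReal_le_ofReal (Real.rpow_le_rpow (W_nonneg x) (W_le hk) h0.le)
  refine (lintegral_mono key).trans_lt ?_
  rw [lintegral_tsum fun k => (measurable_const.indicator measurableSet_Ioo).aemeasurable]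
  have e : ∀ k : ℕ, ∫⁻ x, (Ioo ((1 / 2 : ℝ) ^ k - len k) ((1 / 2) ^ k + len k)).indicator
      (fun _ => ENNReal.ofReal (((2 : ℝ) ^ (k ^ 2 + 4 * k + 9)) ^ q)) x =
      ENNReal.ofReal (((2 : ℝ) ^ (k ^ 2 + 4 * k + 9)) ^ q * (2 * len k)) := by
    intro k
    rw [lintegral_indicator_const measurableSet_Ioo, Real.volume_Ioo,
      ENNReal.ofReal_mul (by positivity)]
    congr 2; ring
  simp_rw [e]
  exact (summ hq).tsum_ofReal_lt_top

theorem w_smooth : ContDiff ℝ 2 w := by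
  rw [show (2 : WithTop ℕ∞) = 1 + 1 from rfl, contDiff_succ_iff_deriv]
  refine ⟨w_diff, by simp, ?_⟩
  rw [deriv_w, contDiff_one_iff_deriv, deriv_G]
  exact ⟨G_diff, g_cont⟩

theorem w_half : 0 < w (1 / 2) := by
  have h := w_lb 1 (x := 1 / 2) (by have := len_pos 1; norm_num; linarith)
  exact lt_of_lt_of_le (by positivity) h

end
end Pool.Agent.H1.SMP
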